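import Mathlib

set_option autoImplicit false

/-!
# Quantitative local connectivity of the Multibrot sets at typical parameters: statements, part 6

Explicit constants in the statements of real analysis.
-/

open Filter Topology

namespace Pool.Agent.Y272.LC

/-- MOD1C -/
def St_Mod1c : Prop := ∀ (M : ℕ → ℝ) (C₁ C₂ D₀ K lam : ℝ) (good : ℕ → Prop), 0 < C₁ → 0 < C₂ →
  1 ≤ D₀ → 0 < lam → (∀ n, 0 < M n) → (∀ n, M (n + 1) ≤ D₀ * M n) →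
  (∀ n : ℕ, Real.exp (lam * n - K) ≤ M n) →
  (∀ᶠ N : ℕ in atTop, ∃ n : ℕ, N ≤ n ∧ (n : ℝ) ≤ N + Real.log N ^ 6 ∧ good n) →
  ∃ r₀ : ℝ, 0 < r₀ ∧ ∀ r : ℝ, 0 < r → r < r₀ → ∃ n : ℕ, good n ∧ r ≤ C₁ / M n ∧
    C₂ / M n ≤ r * Real.exp ((2 * Real.log D₀ + 1) * Real.log (Real.log (1 / r)) ^ 6)

/-- MOD2C -/
def St_Mod2c : Prop := ∀ (d : ℕ) (M : ℕ → ℝ) (C₂ C₃ : ℝ) (good : ℕ → Prop), 2 ≤ d → 0 < C₂ →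
  0 < C₃ → (∀ n, 0 < M n) →
  (∀ᶠ n : ℕ in atTop, |Real.log (M n) - n * Real.log d| ≤
    32 * √(n * Real.log d * Real.log (Real.log n))) →
  (∀ᶠ N : ℕ in atTop, ∃ n : ℕ, N ≤ n ∧ (n : ℝ) ≤ N + Real.log N ^ 6 ∧ good n) →
  ∃ h₀ : ℝ, 0 < h₀ ∧ ∀ h : ℝ, 0 < h → h < h₀ → ∃ n : ℕ, good n ∧
    (d : ℝ) ^ n * h < C₃ ∧
    C₂ / M n ≤ h * Real.exp (33 * √(Real.log (1 / h) * Real.log (Real.log (Real.log (1 / h)))))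

/-- MOD3C -/
def St_Mod3c : Prop := ∀ (d : ℕ) (M : ℕ → ℝ) (C₁ C₃ : ℝ) (good : ℕ → Prop), 2 ≤ d → 0 < C₁ →
  0 < C₃ → (∀ n, 0 < M n) →
  (∀ᶠ n : ℕ in atTop, |Real.log (M n) - n * Real.log d| ≤
    32 * √(n * Real.log d * Real.log (Real.log n))) →
  (∀ᶠ N : ℕ in atTop, ∃ n : ℕ, N ≤ n ∧ (n : ℝ) ≤ N + Real.log N ^ 6 ∧ good n) →
  ∃ h₀ : ℝ, 0 < h₀ ∧ ∀ h : ℝ, 0 < h → h < h₀ → ∃ n : ℕ, good n ∧
    C₃ < (d : ℝ) ^ n * h ∧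
    h * Real.exp (-(33 * √(Real.log (1 / h) * Real.log (Real.log (Real.log (1 / h)))))) ≤ C₁ / M n

end Pool.Agent.Y272.LC
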