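import Mathlib
import Pool.Agent.Y272.TY.Stm2
import Pool.Agent.H713R2.AR.GF

set_option autoImplicit false

/-!
# Quantitative local connectivity of the Multibrot sets at typical parameters: statements

Conventions. Angles are real numbers, one full turn is `1`. `zt s t` is the point `s + 2 π t i` of the
right half plane. The dynamical plane of `z ^ d + c` has the half plane Boettcher coordinate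
`Φ c : {ζ | green d c 0 < re ζ} → ℂ` (`IsBott`): `Φ c (zt s t)` is the point of the dynamical ray of
angle `t` on the equipotential of level `s`. The parameter `cc β (exp (-ζ))` lies on the parameter ray
of angle `t` at level `s` for `ζ = zt s t`, and is the point `Φ c ζ` in its own dynamical plane.
-/

open Complex Filter Topology Metric Set MeasureTheory

namespace Pool.Agent.Y272.LC

open Pool.Agent.H712R2 Pool.Agent.H713R2 Pool.Agent.H713R2.AR Pool.Agent.W677.Mar Pool.Agent.Y272.TY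

/-- the point of level `s` and angle `t` in the right half plane -/
noncomputable def zt (s t : ℝ) : ℂ := (s : ℂ) + ((2 * Real.pi * t : ℝ) : ℂ) * I

/-- inverse Boettcher coordinates of all the maps `z ^ d + c`, in the half plane -/
structure IsBott (d : ℕ) (Φ : ℂ → ℂ → ℂ) : Prop where
  map : ∀ c ζ, green d c 0 < ζ.re → fc d c (Φ c ζ) = Φ c (d * ζ)
  per : ∀ c ζ, green d c 0 < ζ.re → Φ c (ζ + ((2 * Real.pi : ℝ) : ℂ) * I) = Φ c ζ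
  grn : ∀ c ζ, green d c 0 < ζ.re → green d c (Φ c ζ) = ζ.re
  inj : ∀ c ζ ζ', green d c 0 < ζ.re → green d c 0 < ζ'.re → Φ c ζ = Φ c ζ' →
    ∃ k : ℤ, ζ = ζ' + k * (((2 * Real.pi : ℝ) : ℂ) * I)
  surj : ∀ c z, green d c 0 < green d c z → ∃ ζ : ℂ, ζ.re = green d c z ∧ Φ c ζ = z
  cont : ContinuousOn (fun q : ℂ × ℂ => Φ q.1 q.2) {q | green d q.1 0 < q.2.re}
  hol : ∀ c, DifferentiableOn ℂ (Φ c) {ζ | green d c 0 < ζ.re}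
  par : ∀ β : ℂ → ℂ, IsBeta d β → ∀ ζ : ℂ, 0 < ζ.re →
    green d (cc β (Complex.exp (-ζ))) 0 = ζ.re / d ∧
    Φ (cc β (Complex.exp (-ζ))) ζ = cc β (Complex.exp (-ζ))

/-- BOTT -/
def St_Bott : Prop := ∀ d : ℕ, 2 ≤ d → ∃ Φ : ℂ → ℂ → ℂ, IsBott d Φ

/-- GRN: elementary properties of the escape rate -/
def St_Grn : Prop := ∀ d : ℕ, 2 ≤ d →
  Continuous (fun q : ℂ × ℂ => green d q.1 q.2) ∧
  (∀ c z, green d c (fc d c z) = d * green d c z) ∧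
  (∀ c, c ∈ N62a1eb23.multibrotSet d ↔ green d c 0 = 0) ∧
  (∀ c z, (Bornology.IsBounded (range fun n : ℕ => (fc d c)^[n] z)) ↔ green d c z = 0)

/-- LND: in the connected case, preperiodic rays land -/
def St_Lnd : Prop := ∀ (d : ℕ) (Φ : ℂ → ℂ → ℂ), 2 ≤ d → IsBott d Φ → ∀ c0 : ℂ, green d c0 0 = 0 →
  ∀ (t : ℝ) (k N : ℕ), 1 ≤ N → (∃ m : ℤ, ((d : ℝ) ^ (k + N) - (d : ℝ) ^ k) * t = m) →
    ∃ q : ℂ, Tendsto (fun s : ℝ => Φ c0 (zt s t)) (𝓝[>] 0) (𝓝 q) ∧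
      (fc d c0)^[k + N] q = (fc d c0)^[k] q

/-- DISC: an area estimate -/
def St_Disc : Prop := ∀ (z : ℕ → ℂ) (p : ℂ) (κ : ℝ), 0 < κ → (∀ n, z n ≠ p) →
  Tendsto z atTop (𝓝 p) → Tendsto (fun n => ‖z (n + 1) - p‖ / ‖z n - p‖) atTop (𝓝 1) →
  ∃ i j : ℕ, i ≠ j ∧ ¬ Disjoint (ball (z i) (κ * ‖z i - p‖)) (ball (z j) (κ * ‖z j - p‖))

/-- SNAIL: the multiplier at the landing point of a periodic ray -/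
def St_Snail : Prop := ∀ (d : ℕ) (Φ : ℂ → ℂ → ℂ), 2 ≤ d → IsBott d Φ → ∀ c0 : ℂ,
  green d c0 0 = 0 → ∀ (t : ℝ) (N : ℕ) (p : ℂ), 1 ≤ N → (∃ m : ℤ, ((d : ℝ) ^ N - 1) * t = m) →
    Tendsto (fun s : ℝ => Φ c0 (zt s t)) (𝓝[>] 0) (𝓝 p) → (fc d c0)^[N] p = p →
      1 < ‖deriv ((fc d c0)^[N]) p‖ ∨ deriv ((fc d c0)^[N]) p = 1

/-- FIN -/
def St_Fin : Prop := ∀ d N : ℕ, 2 ≤ d → 1 ≤ N →
  {c : ℂ | ∃ p : ℂ, (fc d c)^[N] p = p ∧ deriv ((fc d c)^[N]) p = 1}.Countable ∧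
  ∀ n : ℕ, 1 ≤ n → {c : ℂ | P d (n + N) c = P d n c}.Countable

/-- PT -/
def St_Pt : Prop := ∀ (d : ℕ) (β : ℂ → ℂ), 2 ≤ d → IsBeta d β → ∀ c1 : ℂ,
  ∀ᵐ θ : ℝ, ¬ Tendsto (fun ρ : ℝ => cc β (pt ρ θ)) (𝓝[<] 1) (𝓝 c1)

/-- a continuous family of rays of angle `t`, for the parameters in `ball c0 ε` -/
structure Ray (d : ℕ) (Φ : ℂ → ℂ → ℂ) (c0 : ℂ) (ε t : ℝ) (X : ℂ → ℝ → ℂ) : Prop where
  cont : ContinuousOn (fun q : ℂ × ℝ => X q.1 q.2) (ball c0 ε ×ˢ Ici 0)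
  eq : ∀ c ∈ ball c0 ε, ∀ s : ℝ, green d c 0 < s → X c s = Φ c (zt s t)
  grn : ∀ c ∈ ball c0 ε, ∀ s : ℝ, 0 ≤ s → green d c (X c s) = s
  hol : DifferentiableOn ℂ (fun c => X c 0) (ball c0 ε)

/-- STAB: stability of preperiodic rays landing at repelling points -/
def St_Stab : Prop := ∀ (d : ℕ) (Φ : ℂ → ℂ → ℂ), 2 ≤ d → IsBott d Φ → ∀ c0 : ℂ,
  green d c0 0 = 0 → ∀ (t : ℝ) (k N : ℕ) (q : ℂ), 1 ≤ N →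
    (∃ m : ℤ, ((d : ℝ) ^ (k + N) - (d : ℝ) ^ k) * t = m) →
    Tendsto (fun s : ℝ => Φ c0 (zt s t)) (𝓝[>] 0) (𝓝 q) →
    (∀ j < k, (fc d c0)^[j] q ≠ 0) →
    1 < ‖deriv ((fc d c0)^[N]) ((fc d c0)^[k] q)‖ →
    ∃ (ε : ℝ) (γ : ℕ → ℂ → ℝ → ℂ), 0 < ε ∧ (∀ j, Ray d Φ c0 ε ((d : ℝ) ^ j * t) (γ j)) ∧
      (∀ j, ∀ c ∈ ball c0 ε, ∀ s : ℝ, 0 ≤ s → fc d c (γ j c s) = γ (j + 1) c (d * s)) ∧
      γ 0 c0 0 = q ∧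
      ∃ r : ℝ, 0 < r ∧ ∀ c ∈ ball c0 ε, ∀ z ∈ ball q r,
        (fc d c)^[k + N] z = (fc d c)^[k] z → z = γ 0 c 0

/-- `z` is not enclosed by the closed curve made of the leg `T0`, the cap `C` and the leg `T1`:
there is a continuous logarithm of the difference with `z` along the closed curve -/
def HasLog (T0 T1 C : ℝ → ℂ) (l a b : ℝ) (z : ℂ) : Prop :=
  ∃ L0 L1 L2 : ℝ → ℂ, ContinuousOn L0 (Icc 0 l) ∧ ContinuousOn L1 (Icc 0 l) ∧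
    ContinuousOn L2 (Icc a b) ∧ (∀ s ∈ Icc 0 l, Complex.exp (L0 s) = T0 s - z) ∧
    (∀ s ∈ Icc 0 l, Complex.exp (L1 s) = T1 s - z) ∧
    (∀ t ∈ Icc a b, Complex.exp (L2 t) = C t - z) ∧ L0 0 = L1 0 ∧ L0 l = L2 a ∧ L1 l = L2 b

/-- FAR -/
def St_Far : Prop := ∀ (T0 T1 C : ℝ → ℂ) (l a b r : ℝ) (z w : ℂ), 0 ≤ l → a ≤ b →
  ContinuousOn T0 (Icc 0 l) → ContinuousOn T1 (Icc 0 l) → ContinuousOn C (Icc a b) →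
  T0 0 = T1 0 → T0 l = C a → T1 l = C b →
  (∀ s ∈ Icc 0 l, ‖T0 s - w‖ ≤ r) → (∀ s ∈ Icc 0 l, ‖T1 s - w‖ ≤ r) →
  (∀ t ∈ Icc a b, ‖C t - w‖ ≤ r) → r < ‖z - w‖ → HasLog T0 T1 C l a b z

/-- HOM: homotopy invariance -/
def St_Hom : Prop := ∀ (T0 T1 C : ℝ → ℝ → ℂ) (z : ℝ → ℂ) (l a b : ℝ), 0 ≤ l → a ≤ b →
  ContinuousOn (fun q : ℝ × ℝ => T0 q.1 q.2) (Icc 0 1 ×ˢ Icc 0 l) →
  ContinuousOn (fun q : ℝ × ℝ => T1 q.1 q.2) (Icc 0 1 ×ˢ Icc 0 l) →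
  ContinuousOn (fun q : ℝ × ℝ => C q.1 q.2) (Icc 0 1 ×ˢ Icc a b) →
  ContinuousOn z (Icc 0 1) →
  (∀ τ ∈ Icc (0 : ℝ) 1, T0 τ 0 = T1 τ 0 ∧ T0 τ l = C τ a ∧ T1 τ l = C τ b) →
  (∀ τ ∈ Icc (0 : ℝ) 1, ∀ s ∈ Icc 0 l, T0 τ s ≠ z τ ∧ T1 τ s ≠ z τ) →
  (∀ τ ∈ Icc (0 : ℝ) 1, ∀ t ∈ Icc a b, C τ t ≠ z τ) →
  HasLog (T0 0) (T1 0) (C 0) l a b (z 0) → HasLog (T0 1) (T1 1) (C 1) l a b (z 1)

/-- ENC: a pair of rays with a common landing point encloses the points between them -/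
def St_Enc : Prop := ∀ (d : ℕ) (Φ : ℂ → ℂ → ℂ), 2 ≤ d → IsBott d Φ → ∀ (c : ℂ)
  (T0 T1 : ℝ → ℂ) (l a b : ℝ), a < b → b < a + 1 →
  ContinuousOn T0 (Icc 0 l) → ContinuousOn T1 (Icc 0 l) → T0 0 = T1 0 →
  (∀ s ∈ Icc 0 l, green d c 0 < s → T0 s = Φ c (zt s a) ∧ T1 s = Φ c (zt s b)) →
  (∀ s ∈ Icc 0 l, green d c (T0 s) = s ∧ green d c (T1 s) = s) →
  ∀ s0 t0 : ℝ, green d c 0 < s0 → s0 < l → a < t0 → t0 < b →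
    ¬ HasLog T0 T1 (fun t => Φ c (zt l t)) l a b (Φ c (zt s0 t0))

/-- SLIT: logarithm in the complement of a curve to infinity -/
def St_Slit : Prop := ∀ p : ℝ → ℂ, ContinuousOn p (Ici 0) → Tendsto (fun s => ‖p s‖) atTop atTop →
  IsClosed (p '' Ici 0) ∧ ∃ L : ℂ → ℂ, DifferentiableOn ℂ L (p '' Ici 0)ᶜ ∧
    ∀ z ∈ (p '' Ici 0)ᶜ, Complex.exp (L z) = z - p 0

/-- `c` is a parameter outside of the Multibrot set, of angle `θ` and level `G` -/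
structure Esc (d : ℕ) (Φ : ℂ → ℂ → ℂ) (c : ℂ) (θ G : ℝ) : Prop where
  G0 : 0 < G
  crit : green d c 0 = G / d
  val : Φ c (zt G θ) = c

/-- the slit: the ray which ends at the critical value -/
def Sl (Φ : ℂ → ℂ → ℂ) (c : ℂ) (θ G : ℝ) : Set ℂ := {z | ∃ s : ℝ, G ≤ s ∧ z = Φ c (zt s θ)}

/-- the inverse branches in the slit plane -/
structure IsBr (d : ℕ) (Φ : ℂ → ℂ → ℂ) (c : ℂ) (θ G : ℝ) (g : ℤ → ℂ → ℂ) : Prop where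
  hol : ∀ j, DifferentiableOn ℂ (g j) (Sl Φ c θ G)ᶜ
  inv : ∀ j, ∀ z ∉ Sl Φ c θ G, fc d c (g j z) = z
  ray : ∀ (j : ℤ) (s t : ℝ), G < s → θ + j < t → t < θ + j + 1 →
    g j (Φ c (zt s t)) = Φ c (zt (s / d) (t / d))
  all : ∀ z, fc d c z ∉ Sl Φ c θ G → ∃ j : ℤ, 0 ≤ j ∧ j < d ∧ g j (fc d c z) = z
  per : ∀ i j : ℤ, (d : ℤ) ∣ i - j → ∀ z ∉ Sl Φ c θ G, g i z = g j z
  disj : ∀ (i j : ℤ), ∀ z ∉ Sl Φ c θ G, ∀ w ∉ Sl Φ c θ G, g i z = g j w → (d : ℤ) ∣ i - j ∧ z = w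

/-- BR -/
def St_Br : Prop := ∀ (d : ℕ) (Φ : ℂ → ℂ → ℂ), 2 ≤ d → IsBott d Φ → ∀ (c : ℂ) (θ G : ℝ),
  Esc d Φ c θ G → IsClosed (Sl Φ c θ G) ∧ ∃ g, IsBr d Φ c θ G g

/-- CB: rays and inverse branches -/
def St_Cb : Prop := ∀ (d : ℕ) (Φ : ℂ → ℂ → ℂ), 2 ≤ d → IsBott d Φ → ∀ (c : ℂ) (θ G : ℝ),
  Esc d Φ c θ G → ∀ g, IsBr d Φ c θ G g → ∀ (y : ℝ) (i : ℤ) (X Y : ℝ → ℂ),
    θ + i < d * y → d * y < θ + i + 1 → ContinuousOn X (Ici 0) → ContinuousOn Y (Ici 0) →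
    (∀ s : ℝ, G / d < s → X s = Φ c (zt s y) ∧ Y s = Φ c (zt s (d * y))) →
    (∀ s : ℝ, 0 ≤ s → green d c (X s) = s ∧ green d c (Y s) = s ∧ fc d c (X s) = Y (d * s)) →
    ∀ s : ℝ, 0 ≤ s → Y (d * s) ∉ Sl Φ c θ G ∧ g i (Y (d * s)) = X s

/-- EH: the contraction lemma of Earle and Hamilton -/
def St_Eh : Prop := ∀ (W : Set ℂ) (g : ℂ → ℂ) (δ D : ℝ), IsOpen W → DifferentiableOn ℂ g W →
  MapsTo g W W → 0 < δ → 0 < D → (∀ x ∈ W, ∀ y ∈ W, ‖x - y‖ ≤ D) →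
  (∀ x ∈ W, ball (g x) δ ⊆ W) → ∀ x ∈ W, ∀ r : ℝ, 0 < r → ball x r ⊆ W → ∀ k : ℕ,
    ‖deriv (g^[k]) x‖ * r * (1 + δ / (2 * D)) ^ k ≤ D

/-- COL: rays whose orbits stay in the sector of the slit land at the same point -/
def St_Col : Prop := ∀ (d : ℕ) (Φ : ℂ → ℂ → ℂ), 2 ≤ d → IsBott d Φ → ∀ (c : ℂ) (θ G : ℝ),
  Esc d Φ c θ G → ∀ (i : ℤ) (x y : ℝ) (X Y : ℕ → ℝ → ℂ),
    (∀ k : ℕ, ∃ m : ℤ, (θ + i) / d < (d : ℝ) ^ k * x - m ∧ (d : ℝ) ^ k * x - m < (θ + i + 1) / d) →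
    (∀ k : ℕ, ∃ m : ℤ, (θ + i) / d < (d : ℝ) ^ k * y - m ∧ (d : ℝ) ^ k * y - m < (θ + i + 1) / d) →
    (∀ k, ContinuousOn (X k) (Ici 0) ∧ ContinuousOn (Y k) (Ici 0)) →
    (∀ (k : ℕ) (s : ℝ), G / d < s → X k s = Φ c (zt s ((d : ℝ) ^ k * x)) ∧
      Y k s = Φ c (zt s ((d : ℝ) ^ k * y))) →
    (∀ (k : ℕ) (s : ℝ), 0 ≤ s → green d c (X k s) = s ∧ green d c (Y k s) = s ∧
      fc d c (X k s) = X (k + 1) (d * s) ∧ fc d c (Y k s) = Y (k + 1) (d * s)) →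
    X 0 0 = Y 0 0

/-- COMB: periodic angles on both sides of `θ` whose orbits stay in the sector of `θ` -/
def St_Comb : Prop := ∀ (d : ℕ) (θ : ℝ) (i : ℤ), 2 ≤ d → 0 < θ → θ < 1 →
  θ + i < d * θ → d * θ < θ + i + 1 →
  (∃ n : ℕ, ∀ m : ℤ, (d : ℝ) ^ n * θ - m < (θ + i) / d ∨ (θ + i + 1) / d < (d : ℝ) ^ n * θ - m) →
  (∀ (n : ℕ) (m : ℤ), 1 ≤ n → (d : ℝ) ^ n * θ ≠ θ + m) →
  ∃ (q : ℕ) (x₁ x₂ : ℝ), 1 ≤ q ∧ (∃ m : ℤ, ((d : ℝ) ^ q - 1) * x₁ = m) ∧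
    (∃ m : ℤ, ((d : ℝ) ^ q - 1) * x₂ = m) ∧ (θ + i) / d < x₁ ∧ x₁ < θ ∧ θ < x₂ ∧
    x₂ < (θ + i + 1) / d ∧
    (∀ k : ℕ, ∃ m : ℤ, (θ + i) / d < (d : ℝ) ^ k * x₁ - m ∧ (d : ℝ) ^ k * x₁ - m < (θ + i + 1) / d) ∧
    (∀ k : ℕ, ∃ m : ℤ, (θ + i) / d < (d : ℝ) ^ k * x₂ - m ∧ (d : ℝ) ^ k * x₂ - m < (θ + i + 1) / d)

/-- VIT: a form of the theorem of Vitali -/
def St_Vit : Prop := ∀ (U X : Set ℂ) (z0 : ℂ) (r R η : ℝ), IsOpen U → IsPreconnected U →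
  IsCompact X → X ⊆ U → 0 < r → ball z0 r ⊆ U → 0 < R → 0 < η → ∃ ε : ℝ, 0 < ε ∧
    ∀ (h : ℂ → ℂ) (w : ℂ), DifferentiableOn ℂ h U → (∀ z ∈ U, ‖h z‖ ≤ R) →
      (∀ z ∈ ball z0 r, ‖h z - w‖ ≤ ε) → ∀ z ∈ X, ‖h z - w‖ ≤ η

end Pool.Agent.Y272.LC
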