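import Mathlib
import Pool.Agent.Y272.LC.Stm

set_option autoImplicit false

/-!
# Quantitative local connectivity of the Multibrot sets at typical parameters: statements, part 2
-/

open Complex Filter Topology Metric Set MeasureTheory

namespace Pool.Agent.Y272.LC

open Pool.Agent.H712R2 Pool.Agent.H713R2 Pool.Agent.H713R2.AR Pool.Agent.W677.Mar Pool.Agent.Y272.TY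

/-- the parameter of level `G` and angle `θ` -/
noncomputable def pa (β : ℂ → ℂ) (θ G : ℝ) : ℂ := cc β (Complex.exp (-(zt G θ)))

/-- the data at a parameter `c0` on which the parameter ray of angle `θ` lands -/
structure Dat (d : ℕ) (Φ : ℂ → ℂ → ℂ) (β : ℂ → ℂ) (c0 : ℂ) (θ : ℝ) (i : ℤ) (x₁ x₂ ε : ℝ)
    (A₁ A₂ D₁ D₂ B : ℂ → ℝ → ℂ) : Prop where
  d2 : 2 ≤ d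
  bott : IsBott d Φ
  beta : IsBeta d β
  eps : 0 < ε
  conn : green d c0 0 = 0
  th0 : 0 < θ
  th1 : θ < 1
  i0 : 0 ≤ i
  i1 : i + 2 ≤ d
  x1l : (θ + i) / d < x₁
  x1r : x₁ < θ
  x2l : θ < x₂
  x2r : x₂ < (θ + i + 1) / d
  land : Tendsto (pa β θ) (𝓝[>] 0) (𝓝 c0)
  rA1 : Ray d Φ c0 ε x₁ A₁
  rA2 : Ray d Φ c0 ε x₂ A₂
  rD1 : Ray d Φ c0 ε (x₁ / d) D₁
  rD2 : Ray d Φ c0 ε ((x₂ - 1) / d) D₂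
  rB : Ray d Φ c0 ε 0 B
  col : ∀ c ∈ ball c0 ε, A₁ c 0 = A₂ c 0
  eqB : ∀ c ∈ ball c0 ε, ∀ s : ℝ, 0 ≤ s → fc d c (B c s) = B c (d * s)
  neB : B c0 0 ≠ A₁ c0 0
  neD1 : D₁ c0 0 ≠ A₁ c0 0
  neD2 : D₂ c0 0 ≠ A₁ c0 0
  rep : 1 < ‖deriv (fc d c0) (B c0 0)‖

/-- SLA: the slits stay away from the rays near the angle `0` -/
def St_Sla : Prop := ∀ (d : ℕ) (Φ : ℂ → ℂ → ℂ) (β : ℂ → ℂ) (c0 : ℂ) (θ : ℝ) (i : ℤ) (x₁ x₂ ε : ℝ)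
  (A₁ A₂ D₁ D₂ B : ℂ → ℝ → ℂ), Dat d Φ β c0 θ i x₁ x₂ ε A₁ A₂ D₁ D₂ B →
  ∃ δ G₁ : ℝ, 0 < δ ∧ 0 < G₁ ∧ ∀ G : ℝ, 0 < G → G < G₁ → ∀ s : ℝ, G ≤ s →
    (∀ u ∈ Icc 0 (1 / (d : ℝ)), δ ≤ ‖Φ (pa β θ G) (zt s θ) - D₁ c0 u‖ ∧
      δ ≤ ‖Φ (pa β θ G) (zt s θ) - D₂ c0 u‖ ∧ δ ≤ ‖Φ (pa β θ G) (zt s θ) - B c0 u‖) ∧
    ∀ t ∈ Icc ((x₂ - 1) / d) (x₁ / d),
      δ ≤ ‖Φ (pa β θ G) (zt s θ) - Φ c0 (zt (1 / d) t)‖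

/-- SHR: the loops around the landing point of the ray of angle `0` shrink -/
def St_Shr : Prop := ∀ (d : ℕ) (Φ : ℂ → ℂ → ℂ) (β : ℂ → ℂ) (c0 : ℂ) (θ : ℝ) (i : ℤ) (x₁ x₂ ε : ℝ)
  (A₁ A₂ D₁ D₂ B : ℂ → ℝ → ℂ), Dat d Φ β c0 θ i x₁ x₂ ε A₁ A₂ D₁ D₂ B →
  ∀ η : ℝ, 0 < η → ∃ m₀ : ℕ, ∀ m : ℕ, m₀ ≤ m →
    (∀ s : ℝ, 0 < s → s ≤ 1 / (d : ℝ) ^ (m + 1) →
      ‖Φ c0 (zt s (x₁ / (d : ℝ) ^ (m + 1))) - B c0 0‖ ≤ η ∧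
      ‖Φ c0 (zt s ((x₂ - 1) / (d : ℝ) ^ (m + 1))) - B c0 0‖ ≤ η) ∧
    ∀ t ∈ Icc ((x₂ - 1) / (d : ℝ) ^ (m + 1)) (x₁ / (d : ℝ) ^ (m + 1)),
      ‖Φ c0 (zt (1 / (d : ℝ) ^ (m + 1)) t) - B c0 0‖ ≤ η

/-- UNI: points between two rays with a common landing point, uniformly in the parameter -/
def St_Uni : Prop := ∀ (d : ℕ) (Φ : ℂ → ℂ → ℂ), 2 ≤ d → IsBott d Φ → ∀ (c0 w : ℂ)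
  (ε l a b η : ℝ) (T0 T1 : ℂ → ℝ → ℂ), 0 < ε → green d c0 0 = 0 → 0 < l → a < b → b < a + 1 →
  Ray d Φ c0 ε a T0 → Ray d Φ c0 ε b T1 → (∀ c ∈ ball c0 ε, T0 c 0 = T1 c 0) →
  (∀ s ∈ Icc 0 l, ‖T0 c0 s - w‖ < η ∧ ‖T1 c0 s - w‖ < η) →
  (∀ t ∈ Icc a b, ‖Φ c0 (zt l t) - w‖ < η) →
  ∃ ε' : ℝ, 0 < ε' ∧ ε' ≤ ε ∧ ∀ c ∈ ball c0 ε', green d c 0 < l ∧
    (∀ s ∈ Icc 0 l, ‖T0 c s - w‖ < η ∧ ‖T1 c s - w‖ < η) ∧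
    (∀ t ∈ Icc a b, ‖Φ c (zt l t) - w‖ < η) ∧
    ∀ s t : ℝ, green d c 0 < s → s < l → a < t → t < b → ‖Φ c (zt s t) - w‖ ≤ η

/-- INN: a neighbourhood of the landing point of the ray of angle `0` is enclosed -/
def St_Inn : Prop := ∀ (d : ℕ) (Φ : ℂ → ℂ → ℂ), 2 ≤ d → IsBott d Φ → ∀ (c0 : ℂ)
  (ε l a b : ℝ) (T0 T1 B : ℂ → ℝ → ℂ), 0 < ε → green d c0 0 = 0 → 0 < l → a < 0 → 0 < b →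
  b < a + 1 → Ray d Φ c0 ε a T0 → Ray d Φ c0 ε b T1 → Ray d Φ c0 ε 0 B →
  (∀ c ∈ ball c0 ε, T0 c 0 = T1 c 0) → B c0 0 ≠ T0 c0 0 →
  ∃ ε' δ : ℝ, 0 < ε' ∧ ε' ≤ ε ∧ 0 < δ ∧ ∀ c ∈ ball c0 ε', ∀ z ∈ ball (B c0 0) δ,
    ¬ HasLog (T0 c) (T1 c) (fun t => Φ c (zt l t)) l a b z ∧
    (∀ s ∈ Icc 0 l, T0 c s ≠ z ∧ T1 c s ≠ z) ∧ (∀ t ∈ Icc a b, Φ c (zt l t) ≠ z) ∧
    ∀ s t : ℝ, green d c 0 < s → Φ c (zt s t) = z → s < l ∧ ∃ k : ℤ, a < t - k ∧ t - k < b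

/-- GOOD: good times exist in all windows -/
def St_Good : Prop := ∀ d : ℕ, 2 ≤ d → ∀ᵐ θ : ℝ, ∀ a b : ℝ, 0 < a → (∀ m : ℤ, 4 * a < |θ - m|) →
  0 < b → ∀ᶠ N : ℕ in atTop, ∃ n : ℕ, N ≤ n ∧ (n : ℝ) ≤ N + Real.log N ^ 6 ∧
    (∃ k : ℤ, |(d : ℝ) ^ n * θ - k| < b) ∧
    ∀ k : ℕ, 1 ≤ k → k ≤ n → ∀ m : ℤ, 2 * a / (d : ℝ) ^ (n - k) < |(d : ℝ) ^ k * θ - θ - m|

/-- PUL: inverse branches along the critical orbit, escaping parameters -/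
def St_Pul : Prop := ∀ (d : ℕ) (Φ : ℂ → ℂ → ℂ), 2 ≤ d → IsBott d Φ → ∀ (c : ℂ) (θ G : ℝ),
  Esc d Φ c θ G → ∀ (w : ℂ) (δ a : ℝ), 0 < δ → 0 < a →
  (∀ s : ℝ, G ≤ s → Φ c (zt s θ) ∉ ball w δ) →
  (∀ s t : ℝ, G / d < s → Φ c (zt s t) ∈ ball w δ → ∃ k : ℤ, |t - k| < a) →
  (∀ (n : ℕ) (m : ℤ), 1 ≤ n → (d : ℝ) ^ n * θ ≠ θ + m) →
  ∀ n : ℕ, 1 ≤ n → (fc d c)^[n] c ∈ ball w δ →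
  (∀ k : ℕ, 1 ≤ k → k ≤ n → ∀ m : ℤ, 2 * a / (d : ℝ) ^ (n - k) < |(d : ℝ) ^ k * θ - θ - m|) →
  ∃ h : ℂ → ℂ, DifferentiableOn ℂ h (ball w δ) ∧ (∀ z ∈ ball w δ, (fc d c)^[n] (h z) = z) ∧
    h ((fc d c)^[n] c) = c

/-- PU0: passage to the limit -/
def St_Pu0 : Prop := ∀ (d : ℕ), 2 ≤ d → ∀ (c0 w : ℂ) (δ : ℝ) (n : ℕ), 0 < δ →
  (fc d c0)^[n] c0 ∈ ball w δ →
  (∃ᶠ c in 𝓝 c0, ∃ h : ℂ → ℂ, DifferentiableOn ℂ h (ball w δ) ∧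
    (∀ z ∈ ball w δ, (fc d c)^[n] (h z) = z) ∧ h ((fc d c)^[n] c) = c) →
  ∃ h : ℂ → ℂ, DifferentiableOn ℂ h (ball w δ) ∧ (∀ z ∈ ball w δ, (fc d c0)^[n] (h z) = z) ∧
    h ((fc d c0)^[n] c0) = c0

/-- KOE: distortion -/
def St_Koe : Prop := ∃ κ : ℝ, 0 < κ ∧ κ ≤ 1 ∧ ∀ (d : ℕ) (c0 w : ℂ) (δ : ℝ) (n : ℕ) (h : ℂ → ℂ),
  2 ≤ d → 0 < δ → ‖(fc d c0)^[n] c0 - w‖ < δ / 2 → DifferentiableOn ℂ h (ball w δ) →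
  (∀ z ∈ ball w δ, (fc d c0)^[n] (h z) = z) → h ((fc d c0)^[n] c0) = c0 →
  0 < ‖MM d c0 (n + 1)‖ ∧
  ∀ z ∈ ball c0 (κ * δ / ‖MM d c0 (n + 1)‖), ∀ z' ∈ ball c0 (κ * δ / ‖MM d c0 (n + 1)‖),
    κ * ‖MM d c0 (n + 1)‖ * ‖z - z'‖ ≤ ‖(fc d c0)^[n] z - (fc d c0)^[n] z'‖ ∧
    κ * ‖(fc d c0)^[n] z - (fc d c0)^[n] z'‖ ≤ ‖MM d c0 (n + 1)‖ * ‖z - z'‖

/-- SIM: similarity between the parameter plane and the dynamical plane -/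
def St_Sim : Prop := ∀ (d : ℕ) (c0 : ℂ) (A : ℝ) (R : ℂ) (κ δ e : ℝ), 2 ≤ d → 0 ≤ A →
  (∀ k : ℕ, ‖P d k c0‖ ≤ 2) →
  (∀ n : ℕ, Real.exp (-(A * Real.log (n + 2))) ≤ ‖P d (n + 1) c0‖) →
  (∀ k : ℕ, |∑ n ∈ Finset.range k, Real.log ‖P d (n + 1) c0‖| ≤ A * bb k) →
  Tendsto (fun n : ℕ => deriv (P d (n + 1)) c0 / MM d c0 (n + 1)) atTop (𝓝 R) →
  0 < κ → κ ≤ 1 → 0 < δ → δ ≤ 1 → 0 < e → ∃ n₀ : ℕ, ∀ n : ℕ, n₀ ≤ n →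
    (∀ z ∈ ball c0 (κ * δ / ‖MM d c0 (n + 1)‖), ∀ z' ∈ ball c0 (κ * δ / ‖MM d c0 (n + 1)‖),
      κ * ‖(fc d c0)^[n] z - (fc d c0)^[n] z'‖ ≤ ‖MM d c0 (n + 1)‖ * ‖z - z'‖) →
    ∀ c : ℂ, ‖c - c0‖ * ‖MM d c0 (n + 1)‖ ≤ κ * δ / (2 * ‖R‖ + 2) →
      ‖P d (n + 1) c - (fc d c0)^[n] (c0 + R * (c - c0))‖ ≤ e

/-- LOC: a connected piece of the Multibrot set -/
def St_Loc : Prop := ∀ (d : ℕ) (Φ : ℂ → ℂ → ℂ), 2 ≤ d → IsBott d Φ → ∀ (c0 w : ℂ)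
  (ε l a b η δ₂ κ K ρ M e : ℝ) (T0 T1 : ℂ → ℝ → ℂ) (n : ℕ) (W : ℂ → ℂ),
  0 < ε → green d c0 0 = 0 → 0 < l → a < b → b < a + 1 →
  Ray d Φ c0 ε a T0 → Ray d Φ c0 ε b T1 → (∀ c ∈ ball c0 ε, T0 c 0 = T1 c 0) →
  (∀ c ∈ ball c0 ε, green d c 0 < l) →
  (∀ c ∈ ball c0 ε, (∀ s ∈ Icc 0 l, ‖T0 c s - w‖ ≤ η ∧ ‖T1 c s - w‖ ≤ η) ∧
    ∀ t ∈ Icc a b, ‖Φ c (zt l t) - w‖ ≤ η) →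
  (∀ c ∈ ball c0 ε, ∀ z ∈ ball w δ₂,
    ¬ HasLog (T0 c) (T1 c) (fun t => Φ c (zt l t)) l a b z ∧
    (∀ s ∈ Icc 0 l, T0 c s ≠ z ∧ T1 c s ≠ z) ∧ (∀ t ∈ Icc a b, Φ c (zt l t) ≠ z)) →
  0 < δ₂ → 0 < κ → κ ≤ K → 0 < ρ → 0 < M → ρ / M ≤ ε → 0 ≤ e →
  DifferentiableOn ℂ W (ball c0 (ρ / M)) →
  (∀ c ∈ ball c0 (ρ / M), ∀ c' ∈ ball c0 (ρ / M),
    κ * M * ‖c - c'‖ ≤ ‖W c - W c'‖ ∧ ‖W c - W c'‖ ≤ K * M * ‖c - c'‖) →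
  (∀ c ∈ ball c0 (ρ / M), ‖P d (n + 1) c - W c‖ ≤ e) →
  (∀ c ∈ ball c0 (ρ / M), ‖T0 c 0 - T0 c0 0‖ ≤ e) →
  ‖W c0 - w‖ ≤ δ₂ / 4 → η + δ₂ + e < κ * ρ / 4 → 4 * e < δ₂ →
  ∃ Q : Set ℂ, IsConnected Q ∧ Q ⊆ N62a1eb23.multibrotSet d ∧
    N62a1eb23.multibrotSet d ∩ closedBall c0 (δ₂ / (4 * K * M)) ⊆ Q ∧
    Q ⊆ closedBall c0 (ρ / (2 * M))

/-- PSI: the parameters with angle near `θ` -/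
def St_Psi : Prop := ∀ (d : ℕ) (Φ : ℂ → ℂ → ℂ) (β : ℂ → ℂ), 2 ≤ d → IsBott d Φ → IsBeta d β →
  ∀ (c0 w : ℂ) (θ ε l a b η κ ρ M e : ℝ) (n : ℕ) (k : ℤ) (W : ℂ → ℂ),
  0 < ε → 0 < l → Tendsto (pa β θ) (𝓝[>] 0) (𝓝 c0) →
  (∀ c ∈ ball c0 ε, ∀ s t : ℝ, green d c 0 < s → s < l → a < t → t < b →
    ‖Φ c (zt s t) - w‖ ≤ η) →
  a < (d : ℝ) ^ n * θ - k → (d : ℝ) ^ n * θ - k < b →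
  ‖P d (n + 1) c0 - w‖ ≤ η ∧
  (0 < κ → 0 < ρ → 0 < M → ρ / M ≤ ε → 0 ≤ e →
    (∀ c ∈ ball c0 (ρ / M), κ * M * ‖c - c0‖ ≤ ‖W c - W c0‖) →
    (∀ c ∈ ball c0 (ρ / M), ‖P d (n + 1) c - W c‖ ≤ e) →
    2 * η + 2 * e < κ * ρ / 2 →
    ∀ s t : ℝ, 0 < s → (d : ℝ) ^ n * s < l → a < (d : ℝ) ^ n * t - k →
      (d : ℝ) ^ n * t - k < b → ‖pa β t s - c0‖ ≤ ρ / (2 * M))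

end Pool.Agent.Y272.LC
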