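import Mathlib
import Pool.Agent.Y272.LC.Stm2

set_option autoImplicit false

/-!
# Quantitative local connectivity of the Multibrot sets at typical parameters: statements, part 5
-/

open Complex Filter Topology Metric Set MeasureTheory

namespace Pool.Agent.Y272.LC

open Pool.Agent.H712R2 Pool.Agent.H713R2 Pool.Agent.H713R2.AR Pool.Agent.W677.Mar Pool.Agent.Y272.TY

/-- BOTT2: half plane Boettcher coordinates which are also holomorphic in the parameter -/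
def St_Bott2 : Prop := ∀ d : ℕ, 2 ≤ d → ∃ Φ : ℂ → ℂ → ℂ, IsBott d Φ ∧
  ∀ ζ : ℂ, DifferentiableOn ℂ (fun c => Φ c ζ) {c | green d c 0 < ζ.re}

/-- LOW: a parameter close to `c0` has an angle close to `θ` -/
def St_Low : Prop := ∀ (d : ℕ) (Φ : ℂ → ℂ → ℂ) (β : ℂ → ℂ), 2 ≤ d → IsBott d Φ → IsBeta d β →
  ∀ (c0 w : ℂ) (θ ε l a b η δ₂ κ K ρ M e Λ : ℝ) (n : ℕ) (k : ℤ) (W : ℂ → ℂ),
  0 < ε → 0 < l → a < b → Tendsto (pa β θ) (𝓝[>] 0) (𝓝 c0) →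
  (∀ c ∈ ball c0 ε, ∀ s t : ℝ, green d c 0 < s → s < l → a < t → t < b →
    ‖Φ c (zt s t) - w‖ ≤ η) →
  (∀ c ∈ ball c0 ε, ∀ z ∈ ball w δ₂, ∀ s t : ℝ, green d c 0 < s → Φ c (zt s t) = z →
    s < l ∧ ∃ j : ℤ, a < t - j ∧ t - j < b) →
  (∀ c ∈ ball c0 ε, ∀ c' ∈ ball c0 ε, ∀ t ∈ Icc a b, green d c 0 < l / 2 ∧
    ‖Φ c (zt (l / 2) t) - Φ c' (zt (l / 2) t)‖ ≤ Λ * ‖c - c'‖) →
  a < (d : ℝ) ^ n * θ - k → (d : ℝ) ^ n * θ - k < b →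
  0 < δ₂ → 0 < κ → κ ≤ K → 0 < ρ → 0 < M → ρ / M ≤ ε → 0 ≤ e → Λ < κ * M / 2 →
  DifferentiableOn ℂ W (ball c0 (ρ / M)) →
  (∀ c ∈ ball c0 (ρ / M), ∀ c' ∈ ball c0 (ρ / M),
    κ * M * ‖c - c'‖ ≤ ‖W c - W c'‖ ∧ ‖W c - W c'‖ ≤ K * M * ‖c - c'‖) →
  (∀ c ∈ ball c0 (ρ / M), ‖P d (n + 1) c - W c‖ ≤ e) →
  ‖W c0 - w‖ ≤ δ₂ / 4 → η + δ₂ + e < κ * ρ / 4 → 4 * e < δ₂ → 16 * e < κ * ρ →
  ∀ s u : ℝ, 0 < s → pa β u s ∈ ball c0 (δ₂ / (4 * K * M)) →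
    (d : ℝ) ^ n * s < l ∧ ∃ j : ℤ, a < (d : ℝ) ^ n * (u - j) - k ∧
      (d : ℝ) ^ n * (u - j) - k < b

/-- MOD3 -/
def St_Mod3 : Prop := ∀ (d : ℕ) (M : ℕ → ℝ) (C₁ C₃ : ℝ) (good : ℕ → Prop), 2 ≤ d → 0 < C₁ →
  0 < C₃ → (∀ n, 0 < M n) →
  (∀ᶠ n : ℕ in atTop, |Real.log (M n) - n * Real.log d| ≤
    32 * √(n * Real.log d * Real.log (Real.log n))) →
  (∀ᶠ N : ℕ in atTop, ∃ n : ℕ, N ≤ n ∧ (n : ℝ) ≤ N + Real.log N ^ 6 ∧ good n) →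
  ∃ A h₀ : ℝ, 0 < A ∧ 0 < h₀ ∧ ∀ h : ℝ, 0 < h → h < h₀ → ∃ n : ℕ, good n ∧
    C₃ < (d : ℝ) ^ n * h ∧
    h * Real.exp (-(A * √(Real.log (1 / h) * Real.log (Real.log (Real.log (1 / h)))))) ≤ C₁ / M n

end Pool.Agent.Y272.LC
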