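import Mathlib
import Pool.Agent.Y272.LC.Stm6
import Pool.Agent.Y468.LC.Mod3

set_option autoImplicit false

/-!
# The lower modulus with the law of the iterated logarithm, explicit constant (after Y468.LC.Mod3)
-/

namespace Pool.Agent.Y272.LC.M3C

open Filter Topology Pool.Agent.Y272.LC Pool.Agent.Y468.LC

theorem t : St_Mod3c := by
  intro d M C₁ C₃ good hd hC₁ hC₃ hM hlil hgood
  set L := Real.log d with hL
  have hd' : (2 : ℝ) ≤ d := by exact_mod_cast hd
  have hLpos : 0 < L := Real.log_pos (by linarith)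
  have hst := step1 good _ hgood hlil
  have hX : Tendsto (fun Y : ℝ => (Y + Real.log C₃) / L) atTop atTop :=
    (tendsto_atTop_add_const_right _ _ tendsto_id).atTop_div_const hLpos
  have hX1 : Tendsto (fun Y : ℝ => (Y + Real.log C₃) / L + 1) atTop atTop :=
    tendsto_atTop_add_const_right _ _ hX
  have hll : Tendsto (fun Y : ℝ => Real.log (Real.log Y)) atTop atTop :=
    Real.tendsto_log_atTop.comp Real.tendsto_log_atTop
  have key : ∀ᶠ Y : ℝ in atTop, ∃ n : ℕ, good n ∧ (Y + Real.log C₃) / L < (n : ℝ) ∧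
      Real.log (M n) ≤ Real.log C₁ + Y + 33 * √(Y * Real.log (Real.log Y)) := by
    filter_upwards [hX.eventually hst, hX.eventually (eventually_ge_atTop 3),
      hll.eventually (eventually_ge_atTop 64), eventually_ge_atTop (1 : ℝ),
      eventually_ge_atTop (128 * (Real.log C₃ + L)), eventually_ge_atTop (4 / L),
      log_pow_le (1 / (512 * L)) (by positivity) (1 / 2) (by norm_num),
      eventually_ge_atTop ((8 * (Real.log C₃ - Real.log C₁)) ^ 2),
      hX1.eventually (log_pow_le (1 / 256) (by norm_num) 1 one_pos),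
      eventually_ge_atTop ((8 * L) ^ 2)]
      with Y h1 h2 h3 h4 h5 h6 h7 h8 h9 h10
    obtain ⟨n, hn1, hn2, hn3, hn4, hn5⟩ := h1
    refine ⟨n, hn1, hn3, ?_⟩
    set X := (Y + Real.log C₃) / L with hXd
    have hXL : X * L = Y + Real.log C₃ := div_mul_cancel₀ _ hLpos.ne'
    have hn5' : (3 : ℝ) ≤ n := by exact_mod_cast hn5
    rw [Real.rpow_one] at h9
    have hn1X : (n : ℝ) ≤ 257 / 256 * (X + 1) := by linarith
    have hn2X : (n : ℝ) ≤ 2 * X := by linarith
    -- logarithms of X
    have hXY : 2 * X ≤ Y ^ 2 := by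
      have e1 : 4 ≤ Y * L := by rwa [div_le_iff₀ hLpos] at h6
      have e2 : 2 * X * L ≤ Y ^ 2 * L := by nlinarith
      exact le_of_mul_le_mul_right e2 hLpos
    have hYpos : 0 < Y := by linarith
    have hlX : Real.log (2 * X) ≤ 2 * Real.log Y := by
      have := Real.log_le_log (by linarith) hXY
      rwa [Real.log_pow, Nat.cast_ofNat] at this
    have hlY : 0 < Real.log Y := by
      by_contra hcon
      push Not at hcon
      have hz : Real.log Y = 0 := le_antisymm hcon (Real.log_nonneg h4)
      rw [hz, Real.log_zero] at h3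
      linarith
    have hl3 : 1 ≤ Real.log 3 := by
      rw [Real.le_log_iff_exp_le (by norm_num)]
      linarith [Real.exp_one_lt_d9]
    have hlX1 : 1 ≤ Real.log (2 * X) :=
      hl3.trans (Real.log_le_log (by norm_num) (by linarith))
    have hllX : Real.log (Real.log (2 * X)) ≤ 65 / 64 * Real.log (Real.log Y) := by
      have e1 := Real.log_le_log (by linarith) hlX
      rw [Real.log_mul (by norm_num) hlY.ne'] at e1
      have e2 : Real.log 2 ≤ 1 := by linarith [Real.log_two_lt_d9]
      linarith
    -- the square root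
    set R := √(Y * Real.log (Real.log Y)) with hR
    have hR0 : 0 ≤ R := Real.sqrt_nonneg _
    have hYR : √Y ≤ R := by
      rw [hR]
      apply Real.sqrt_le_sqrt
      nlinarith
    have h1Y : 1 ≤ √Y := by
      rw [Real.one_le_sqrt]
      exact h4
    have e1 : Real.log (X + 1) ^ 6 * L ≤ 1 / 8 * R := by
      have e0 : Real.log (X + 1) ≤ Real.log (2 * X) := Real.log_le_log (by linarith) (by linarith)
      have e2 : Real.log (X + 1) ^ 6 ≤ (2 * Real.log Y) ^ 6 :=
        pow_le_pow_left₀ (Real.log_nonneg (by linarith)) (e0.trans hlX) 6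
      have e3 : Real.log Y ^ 6 ≤ 1 / (512 * L) * √Y := by
        rw [Real.sqrt_eq_rpow]
        exact h7
      have e4 : (2 * Real.log Y) ^ 6 = 64 * Real.log Y ^ 6 := by ring
      have e5 : Real.log (X + 1) ^ 6 ≤ 64 * (1 / (512 * L) * √Y) := by linarith
      have e6 : 64 * (1 / (512 * L) * √Y) * L = 1 / 8 * √Y := by
        field_simp
        ring
      have e7 : Real.log (X + 1) ^ 6 * L ≤ 64 * (1 / (512 * L) * √Y) * L :=
        mul_le_mul_of_nonneg_right e5 hLpos.le
      linarith
    have e2 : √(n * L * Real.log (Real.log n)) ≤ 65 / 64 * R := by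
      have e3 : (n : ℝ) * L * Real.log (Real.log n) ≤
          (65 / 64 * Y) * (65 / 64 * Real.log (Real.log Y)) := by
        have e4 : (n : ℝ) * L ≤ 65 / 64 * Y := by
          have : (n : ℝ) * L ≤ 257 / 256 * (X + 1) * L := mul_le_mul_of_nonneg_right hn1X hLpos.le
          linarith
        have e6 : 1 ≤ Real.log n := hl3.trans (Real.log_le_log (by norm_num) hn5')
        have e5 : Real.log (Real.log n) ≤ 65 / 64 * Real.log (Real.log Y) := by
          refine le_trans ?_ hllX
          exact Real.log_le_log (by linarith) (Real.log_le_log (by linarith) hn2X)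
        have e7 : 0 ≤ Real.log (Real.log n) := Real.log_nonneg e6
        exact mul_le_mul e4 e5 e7 (by linarith)
      rw [show (65 / 64 * Y) * (65 / 64 * Real.log (Real.log Y)) =
        (65 / 64) ^ 2 * (Y * Real.log (Real.log Y)) by ring] at e3
      have e8 := Real.sqrt_le_sqrt e3
      have e9 : √((65 / 64) ^ 2 * (Y * Real.log (Real.log Y))) = 65 / 64 * R := by
        rw [Real.sqrt_mul (show (0 : ℝ) ≤ (65 / 64) ^ 2 by norm_num),
          Real.sqrt_sq (by norm_num)]
      rw [e9] at e8
      exact e8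
    have e3 : Real.log (M n) ≤ (n : ℝ) * L + 65 / 2 * R := by
      have := (abs_le.1 hn2).2
      linarith
    have e4 : (n : ℝ) * L ≤ (X + 1 + Real.log (X + 1) ^ 6) * L :=
      mul_le_mul_of_nonneg_right hn4 hLpos.le
    have e5 : Real.log C₃ - Real.log C₁ ≤ 1 / 8 * R := by
      have : 8 * (Real.log C₃ - Real.log C₁) ≤ √Y := Real.le_sqrt_of_sq_le h8
      linarith
    have e7 : L ≤ 1 / 8 * R := by
      have : 8 * L ≤ √Y := Real.le_sqrt_of_sq_le h10
      linarith
    nlinarith
  obtain ⟨Y0, hY0⟩ := eventually_atTop.1 key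
  refine ⟨Real.exp (-Y0), Real.exp_pos _, ?_⟩
  intro h hh hh0
  have hlog : Real.log (1 / h) = -Real.log h := by rw [one_div, Real.log_inv]
  have hY : Y0 ≤ Real.log (1 / h) := by
    have := Real.log_le_log hh hh0.le
    rw [Real.log_exp] at this
    rw [hlog]
    linarith
  obtain ⟨n, hn1, hn2, hn3⟩ := hY0 _ hY
  refine ⟨n, hn1, ?_, ?_⟩
  · have hdn : (0 : ℝ) < d ^ n * h := by positivity
    rw [← Real.log_lt_log_iff hC₃ hdn, Real.log_mul (by positivity) hh.ne', Real.log_pow]
    rw [div_lt_iff₀ hLpos, hlog] at hn2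
    linarith
  · have hq : 0 < C₁ / M n := div_pos hC₁ (hM n)
    rw [← Real.log_le_log_iff (by positivity) hq, Real.log_div hC₁.ne' (hM n).ne',
      Real.log_mul hh.ne' (Real.exp_pos _).ne', Real.log_exp]
    have : Real.log h = -Real.log (1 / h) := by rw [hlog, neg_neg]
    rw [this]
    linarith

end Pool.Agent.Y272.LC.M3C
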