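import Mathlib
import Pool.Agent.Y272.LC.Stm2

set_option autoImplicit false

/-!
# Quantitative local connectivity of the Multibrot sets at typical parameters: statements, part 3
-/

open Complex Filter Topology Metric Set MeasureTheory

namespace Pool.Agent.Y272.LC

open Pool.Agent.H712R2 Pool.Agent.H713R2 Pool.Agent.H713R2.AR Pool.Agent.W677.Mar Pool.Agent.Y272.TY

/-- STAB, with the periodicity of the family of rays -/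
def St_Stab2 : Prop := ∀ (d : ℕ) (Φ : ℂ → ℂ → ℂ), 2 ≤ d → IsBott d Φ → ∀ c0 : ℂ,
  green d c0 0 = 0 → ∀ (t : ℝ) (k N : ℕ) (q : ℂ), 1 ≤ N →
    (∃ m : ℤ, ((d : ℝ) ^ (k + N) - (d : ℝ) ^ k) * t = m) →
    Tendsto (fun s : ℝ => Φ c0 (zt s t)) (𝓝[>] 0) (𝓝 q) →
    (∀ j < k, (fc d c0)^[j] q ≠ 0) →
    1 < ‖deriv ((fc d c0)^[N]) ((fc d c0)^[k] q)‖ →
    ∃ (ε : ℝ) (γ : ℕ → ℂ → ℝ → ℂ), 0 < ε ∧ (∀ j, Ray d Φ c0 ε ((d : ℝ) ^ j * t) (γ j)) ∧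
      (∀ j, ∀ c ∈ ball c0 ε, ∀ s : ℝ, 0 ≤ s → fc d c (γ j c s) = γ (j + 1) c (d * s)) ∧
      (∀ j, k ≤ j → ∀ c ∈ ball c0 ε, ∀ s : ℝ, 0 ≤ s → γ (j + N) c s = γ j c s) ∧
      γ 0 c0 0 = q ∧
      ∃ r : ℝ, 0 < r ∧ ∀ c ∈ ball c0 ε, ∀ z ∈ ball q r,
        (fc d c)^[k + N] z = (fc d c)^[k] z → z = γ 0 c 0

end Pool.Agent.Y272.LC
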