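import Mathlib
import Pool.Agent.Y272.LC.Stm3
import Pool.Agent.Y960.LC.Grn

set_option autoImplicit false
set_option maxHeartbeats 400000

/-!
# Basic facts on half plane Boettcher coordinates
-/

open Complex Filter Topology Metric Set MeasureTheory

namespace Pool.Agent.Y272.LC

open Pool.Agent.H712R2 Pool.Agent.H713R2 Pool.Agent.H713R2.AR Pool.Agent.W677.Mar Pool.Agent.Y272.TY

theorem zt_re (s t : ℝ) : (zt s t).re = s := by simp [zt]

theorem zt_im (s t : ℝ) : (zt s t).im = 2 * Real.pi * t := by simp [zt]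

theorem natmul_zt (d : ℕ) (s t : ℝ) : (d : ℂ) * zt s t = zt (d * s) (d * t) := by
  unfold zt; push_cast; ring

theorem powmul_zt (d n : ℕ) (s t : ℝ) :
    ((d : ℂ)) ^ n * zt s t = zt ((d : ℝ) ^ n * s) ((d : ℝ) ^ n * t) := by
  unfold zt; push_cast; ring

theorem zt_add_int (s t : ℝ) (k : ℤ) :
    zt s (t + k) = zt s t + k * (((2 * Real.pi : ℝ) : ℂ) * I) := by
  unfold zt; push_cast; ring

theorem continuous_zt : Continuous (fun q : ℝ × ℝ => zt q.1 q.2) := by
  unfold zt; fun_prop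

theorem green_nonneg' {d : ℕ} (hd : 2 ≤ d) (c z : ℂ) : 0 ≤ green d c z := green_nonneg hd c z

attribute [local irreducible] Pool.Agent.H713R2.AR.green

variable {d : ℕ} {Φ : ℂ → ℂ → ℂ}

theorem per_nat (hΦ : IsBott d Φ) {c ζ : ℂ} (hs : green d c 0 < ζ.re) (k : ℕ) :
    Φ c (ζ + k * (((2 * Real.pi : ℝ) : ℂ) * I)) = Φ c ζ := by
  induction k with
  | zero => simp
  | succ k ih =>
    have h1 : green d c 0 < (ζ + k * (((2 * Real.pi : ℝ) : ℂ) * I)).re := by
      have : (ζ + k * (((2 * Real.pi : ℝ) : ℂ) * I)).re = ζ.re := by simp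
      rw [this]; exact hs
    have h2 := hΦ.per c _ h1
    rw [ih] at h2
    rw [← h2]
    congr 1
    push_cast
    ring

theorem per_int (hΦ : IsBott d Φ) {c : ℂ} {s : ℝ} (hs : green d c 0 < s) (t : ℝ) (k : ℤ) :
    Φ c (zt s (t + k)) = Φ c (zt s t) := by
  have h1 : green d c 0 < (zt s t).re := by rw [zt_re]; exact hs
  have h2 : green d c 0 < (zt s (t + k)).re := by rw [zt_re]; exact hs
  obtain ⟨n, rfl | rfl⟩ := k.eq_nat_or_neg
  · rw [zt_add_int]
    exact_mod_cast per_nat hΦ h1 n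
  · have h3 := per_nat hΦ h2 n
    rw [← h3]
    congr 1
    rw [zt_add_int]
    push_cast
    ring

theorem map_zt (hΦ : IsBott d Φ) {c : ℂ} {s : ℝ} (hs : green d c 0 < s) (t : ℝ) :
    fc d c (Φ c (zt s t)) = Φ c (zt (d * s) (d * t)) := by
  rw [hΦ.map c _ (by rw [zt_re]; exact hs), natmul_zt]

theorem map_iter (hΦ : IsBott d Φ) (hd : 2 ≤ d) {c : ℂ} {s : ℝ} (hs : green d c 0 < s) (t : ℝ)
    (n : ℕ) : (fc d c)^[n] (Φ c (zt s t)) = Φ c (zt ((d : ℝ) ^ n * s) ((d : ℝ) ^ n * t)) := by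
  induction n with
  | zero => simp
  | succ n ih =>
    have hd1 : (1 : ℝ) ≤ d := by exact_mod_cast (by omega : 1 ≤ d)
    have hs0 : 0 ≤ s := (green_nonneg hd c 0).trans hs.le
    have h1 : green d c 0 < (d : ℝ) ^ n * s :=
      hs.trans_le (le_mul_of_one_le_left hs0 (one_le_pow₀ hd1))
    rw [Function.iterate_succ_apply', ih, map_zt hΦ h1]
    congr 2 <;> ring

theorem grn_zt (hΦ : IsBott d Φ) {c : ℂ} {s : ℝ} (hs : green d c 0 < s) (t : ℝ) :
    green d c (Φ c (zt s t)) = s := by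
  rw [hΦ.grn c _ (by rw [zt_re]; exact hs), zt_re]

theorem inj_zt (hΦ : IsBott d Φ) {c : ℂ} {s s' t t' : ℝ} (hs : green d c 0 < s)
    (hs' : green d c 0 < s') (h : Φ c (zt s t) = Φ c (zt s' t')) :
    s = s' ∧ ∃ k : ℤ, t = t' + k := by
  obtain ⟨k, hk⟩ := hΦ.inj c _ _ (by rw [zt_re]; exact hs) (by rw [zt_re]; exact hs') h
  have h1 := congrArg Complex.re hk
  have h2 := congrArg Complex.im hk
  refine ⟨?_, k, ?_⟩
  · simpa [zt_re] using h1
  · have h3 : 2 * Real.pi * t = 2 * Real.pi * t' + k * (2 * Real.pi) := by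
      simpa [zt_im] using h2
    have hpi := Real.pi_pos
    have h4 : 2 * Real.pi * (t - (t' + k)) = 0 := by linarith
    rcases mul_eq_zero.1 h4 with h5 | h5
    · linarith
    · linarith

theorem continuous_green0 (hd : 2 ≤ d) : Continuous (fun q : ℂ × ℂ => green d q.1 0) :=
  Continuous.comp (g := fun q : ℂ × ℂ => green d q.1 q.2) (f := fun q : ℂ × ℂ => (q.1, (0 : ℂ)))
    (Pool.Agent.Y960.LC.t d hd).1 (by fun_prop)

theorem continuous_greenc (hd : 2 ≤ d) : Continuous (fun c : ℂ => green d c 0) :=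
  Continuous.comp (g := fun q : ℂ × ℂ => green d q.1 q.2) (f := fun q : ℂ => (q, (0 : ℂ)))
    (Pool.Agent.Y960.LC.t d hd).1 (by fun_prop)

/-- continuity of the rays in all variables -/
theorem contAt_zt (hΦ : IsBott d Φ) (hd : 2 ≤ d) {c : ℂ} {s : ℝ} (hs : green d c 0 < s) (t : ℝ) :
    ContinuousAt (fun q : ℂ × ℝ × ℝ => Φ q.1 (zt q.2.1 q.2.2)) (c, s, t) := by
  have hopen : IsOpen {q : ℂ × ℂ | green d q.1 0 < q.2.re} := by
    apply isOpen_lt
    · exact continuous_green0 hd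
    · exact Complex.continuous_re.comp continuous_snd
  have h1 : ContinuousAt (fun q : ℂ × ℂ => Φ q.1 q.2) (c, zt s t) :=
    hΦ.cont.continuousAt (hopen.mem_nhds (by
      show green d c 0 < (zt s t).re
      rw [zt_re]; exact hs))
  have h2 : Continuous (fun q : ℂ × ℝ × ℝ => (q.1, zt q.2.1 q.2.2)) :=
    continuous_fst.prodMk (continuous_zt.comp continuous_snd)
  exact ContinuousAt.comp (f := fun q : ℂ × ℝ × ℝ => (q.1, zt q.2.1 q.2.2))
    (x := (c, s, t)) h1 h2.continuousAt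

theorem esc_pa (hΦ : IsBott d Φ) {β : ℂ → ℂ} (hβ : IsBeta d β) (t : ℝ) {G : ℝ} (hG : 0 < G) :
    Esc d Φ (pa β t G) t G := by
  have h := hΦ.par β hβ (zt G t) (by rw [zt_re]; exact hG)
  rw [zt_re] at h
  have e : pa β t G = cc β (Complex.exp (-(zt G t))) := rfl
  rw [← e] at h
  exact ⟨hG, h.1, h.2⟩

theorem green_mul {d : ℕ} (hd : 2 ≤ d) (c z : ℂ) : green d c (fc d c z) = d * green d c z :=
  (Pool.Agent.Y960.LC.t d hd).2.1 c z

theorem green_iter {d : ℕ} (hd : 2 ≤ d) (c z : ℂ) (n : ℕ) :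
    green d c ((fc d c)^[n] z) = (d : ℝ) ^ n * green d c z := by
  induction n with
  | zero => simp
  | succ n ih => rw [Function.iterate_succ_apply', green_mul hd, ih]; ring

theorem continuous_fc_iter (d : ℕ) (n : ℕ) :
    Continuous (fun q : ℂ × ℂ => (fc d q.1)^[n] q.2) := by
  induction n with
  | zero => exact continuous_snd
  | succ n ih =>
    have : (fun q : ℂ × ℂ => (fc d q.1)^[n + 1] q.2) =
        fun q : ℂ × ℂ => ((fc d q.1)^[n] q.2) ^ d + q.1 := by
      funext q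
      rw [Function.iterate_succ_apply']
      rfl
    rw [this]
    exact (ih.pow d).add continuous_fst

/-- the analytic identity on a ball from an accumulating sequence -/
theorem eq_of_tendsto {c0 : ℂ} {ε : ℝ} {F H : ℂ → ℂ} {p : ℝ → ℂ} (hε : 0 < ε)
    (hF : DifferentiableOn ℂ F (ball c0 ε)) (hH : DifferentiableOn ℂ H (ball c0 ε))
    (hp : Tendsto p (𝓝[>] 0) (𝓝 c0)) (hne : ∀ G : ℝ, 0 < G → p G ≠ c0)
    (heq : ∀ᶠ G : ℝ in 𝓝[>] 0, F (p G) = H (p G)) : ∀ c ∈ ball c0 ε, F c = H c := by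
  have h1 : Tendsto p (𝓝[>] 0) (𝓝[≠] c0) := by
    rw [tendsto_nhdsWithin_iff]
    refine ⟨hp, ?_⟩
    filter_upwards [self_mem_nhdsWithin] with G hG
    exact hne G hG
  have h2 : ∃ᶠ c in 𝓝[≠] c0, F c = H c := h1.frequently heq.frequently
  have h3 := AnalyticOnNhd.eqOn_of_preconnected_of_frequently_eq
    (hF.analyticOnNhd isOpen_ball) (hH.analyticOnNhd isOpen_ball)
    (convex_ball c0 ε).isPreconnected (mem_ball_self hε) h2
  exact h3

end Pool.Agent.Y272.LC
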