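import Mathlib
import Pool.Agent.Y272.LC.Base

set_option autoImplicit false
set_option maxHeartbeats 400000

/-!
# Typical angles: stable rays and loops
-/

open Complex Filter Topology Metric Set MeasureTheory

namespace Pool.Agent.Y272.LC

open Pool.Agent.H712R2 Pool.Agent.H713R2 Pool.Agent.H713R2.AR Pool.Agent.W677.Mar Pool.Agent.Y272.TY

attribute [local irreducible] Pool.Agent.H713R2.AR.green

/-- a typical angle (in turns) in `(0, 1)` -/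
structure Ang (d : ℕ) (Φ : ℂ → ℂ → ℂ) (β : ℂ → ℂ) (t : ℝ) (c0 : ℂ) : Prop where
  d2 : 2 ≤ d
  bott : IsBott d Φ
  beta : IsBeta d β
  t0 : 0 < t
  t1 : t < 1
  land : Tendsto (pa β t) (𝓝[>] 0) (𝓝 c0)
  conn : green d c0 0 = 0
  par : ∀ N : ℕ, 1 ≤ N → ∀ p : ℂ, (fc d c0)^[N] p = p → deriv ((fc d c0)^[N]) p ≠ 1
  pre : ∀ n N : ℕ, 1 ≤ n → 1 ≤ N → P d (n + N) c0 ≠ P d n c0
  good : ∀ a b : ℝ, 0 < a → (∀ m : ℤ, 4 * a < |t - m|) → 0 < b → ∀ᶠ N : ℕ in atTop,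
    ∃ n : ℕ, N ≤ n ∧ (n : ℝ) ≤ N + Real.log N ^ 6 ∧ (∃ k : ℤ, |(d : ℝ) ^ n * t - k| < b) ∧
    ∀ k : ℕ, 1 ≤ k → k ≤ n → ∀ m : ℤ, 2 * a / (d : ℝ) ^ (n - k) < |(d : ℝ) ^ k * t - t - m|
  irr : ∀ (n : ℕ) (m : ℤ), 1 ≤ n → (d : ℝ) ^ n * t ≠ t + m

/-- a stable family of rays -/
structure Fam (d : ℕ) (Φ : ℂ → ℂ → ℂ) (c0 : ℂ) (y : ℝ) (k N : ℕ) (q : ℂ) (ε : ℝ)
    (γ : ℕ → ℂ → ℝ → ℂ) : Prop where
  eps : 0 < ε
  ray : ∀ j, Ray d Φ c0 ε ((d : ℝ) ^ j * y) (γ j)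
  map : ∀ j, ∀ c ∈ ball c0 ε, ∀ s : ℝ, 0 ≤ s → fc d c (γ j c s) = γ (j + 1) c (d * s)
  per : ∀ j, k ≤ j → ∀ c ∈ ball c0 ε, ∀ s : ℝ, 0 ≤ s → γ (j + N) c s = γ j c s
  zero : γ 0 c0 0 = q
  uniq : ∃ r : ℝ, 0 < r ∧ ∀ c ∈ ball c0 ε, ∀ z ∈ ball q r,
    (fc d c)^[k + N] z = (fc d c)^[k] z → z = γ 0 c 0

variable {d : ℕ} {Φ : ℂ → ℂ → ℂ} {β : ℂ → ℂ} {t : ℝ} {c0 : ℂ}

/-- the sector condition -/
def Sec (d : ℕ) (t : ℝ) (i : ℤ) (x : ℝ) : Prop :=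
  ∀ k : ℕ, ∃ m : ℤ, (t + i) / d < (d : ℝ) ^ k * x - m ∧ (d : ℝ) ^ k * x - m < (t + i + 1) / d

theorem Sec.shift {i : ℤ} {x : ℝ} (h : Sec d t i x) (j : ℕ) : Sec d t i ((d : ℝ) ^ j * x) := by
  intro k
  obtain ⟨m, hm⟩ := h (k + j)
  refine ⟨m, ?_⟩
  rwa [pow_add, mul_assoc] at hm

theorem Sec.sub_int {i : ℤ} {x : ℝ} (h : Sec d t i x) (m : ℤ) : Sec d t i (x - m) := by
  intro k
  obtain ⟨n, hn⟩ := h k
  refine ⟨n - d ^ k * m, ?_⟩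
  have e : (d : ℝ) ^ k * (x - m) - ((n - d ^ k * m : ℤ) : ℝ) = (d : ℝ) ^ k * x - n := by
    push_cast; ring
  rw [e]
  exact hn

theorem Ang.ev (h : Ang d Φ β t c0) {ε : ℝ} (hε : 0 < ε) :
    ∀ᶠ G : ℝ in 𝓝[>] 0, 0 < G ∧ pa β t G ∈ ball c0 ε := by
  have h1 : ∀ᶠ G : ℝ in 𝓝[>] 0, 0 < G := self_mem_nhdsWithin
  have h2 := h.land.eventually (ball_mem_nhds c0 hε)
  exact h1.and h2

theorem Ang.ne (h : Ang d Φ β t c0) {G : ℝ} (hG : 0 < G) : pa β t G ≠ c0 := by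
  intro e
  have h1 := (esc_pa h.bott h.beta t hG).crit
  rw [e, h.conn] at h1
  have hd : (0 : ℝ) < d := by exact_mod_cast (by have := h.d2; omega : 0 < d)
  have : 0 < G / d := by positivity
  linarith

theorem Ang.ident (h : Ang d Φ β t c0) {ε : ℝ} (hε : 0 < ε) {F H : ℂ → ℂ}
    (hF : DifferentiableOn ℂ F (ball c0 ε)) (hH : DifferentiableOn ℂ H (ball c0 ε))
    (heq : ∀ G : ℝ, 0 < G → pa β t G ∈ ball c0 ε → F (pa β t G) = H (pa β t G)) :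
    ∀ c ∈ ball c0 ε, F c = H c := by
  refine eq_of_tendsto hε hF hH h.land (fun G hG => h.ne hG) ?_
  filter_upwards [h.ev hε] with G hG
  exact heq G hG.1 hG.2

theorem Fam.mono {y : ℝ} {k N : ℕ} {q : ℂ} {ε ε' : ℝ} {γ : ℕ → ℂ → ℝ → ℂ}
    (F : Fam d Φ c0 y k N q ε γ) (h0 : 0 < ε') (h1 : ε' ≤ ε) : Fam d Φ c0 y k N q ε' γ := by
  have hb : ball c0 ε' ⊆ ball c0 ε := ball_subset_ball h1
  refine ⟨h0, fun j => ?_, fun j c hc => F.map j c (hb hc), fun j hj c hc => F.per j hj c (hb hc),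
    F.zero, ?_⟩
  · obtain ⟨a, b, c, e⟩ := F.ray j
    exact ⟨a.mono (prod_mono hb subset_rfl), fun x hx => b x (hb hx), fun x hx => c x (hb hx),
      e.mono hb⟩
  · obtain ⟨r, hr, H⟩ := F.uniq
    exact ⟨r, hr, fun c hc => H c (hb hc)⟩

theorem Ray.mono {y : ℝ} {ε ε' : ℝ} {X : ℂ → ℝ → ℂ} (F : Ray d Φ c0 ε y X) (h1 : ε' ≤ ε) :
    Ray d Φ c0 ε' y X := by
  have hb : ball c0 ε' ⊆ ball c0 ε := ball_subset_ball h1
  obtain ⟨a, b, c, e⟩ := F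
  exact ⟨a.mono (prod_mono hb subset_rfl), fun x hx => b x (hb hx), fun x hx => c x (hb hx),
    e.mono hb⟩

theorem Ray.contS {y : ℝ} {ε : ℝ} {X : ℂ → ℝ → ℂ} (F : Ray d Φ c0 ε y X) {c : ℂ}
    (hc : c ∈ ball c0 ε) : ContinuousOn (X c) (Ici 0) := by
  have h1 : ContinuousOn (fun s : ℝ => (c, s)) (Ici 0) := by fun_prop
  exact F.cont.comp h1 (fun s hs => ⟨hc, hs⟩)

theorem Ray.land {y : ℝ} {ε : ℝ} {X : ℂ → ℝ → ℂ} (F : Ray d Φ c0 ε y X) (hε : 0 < ε)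
    (h0 : green d c0 0 = 0) : Tendsto (fun s : ℝ => Φ c0 (zt s y)) (𝓝[>] 0) (𝓝 (X c0 0)) := by
  have h1 := F.contS (mem_ball_self hε)
  have h2 : Tendsto (X c0) (𝓝[>] 0) (𝓝 (X c0 0)) :=
    (h1 0 self_mem_Ici).mono_left (nhdsWithin_mono _ Ioi_subset_Ici_self)
  refine h2.congr' ?_
  filter_upwards [self_mem_nhdsWithin] with s hs
  exact F.eq c0 (mem_ball_self hε) s (by rw [h0]; exact hs)

theorem Fam.iter {y : ℝ} {k N : ℕ} {q : ℂ} {ε : ℝ} {γ : ℕ → ℂ → ℝ → ℂ}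
    (F : Fam d Φ c0 y k N q ε γ) {c : ℂ} (hc : c ∈ ball c0 ε) (j n : ℕ) :
    (fc d c)^[n] (γ j c 0) = γ (j + n) c 0 := by
  induction n with
  | zero => rfl
  | succ n ih =>
    rw [Function.iterate_succ_apply', ih, F.map (j + n) c hc 0 le_rfl, mul_zero]
    rfl

/-- existence of stable families -/
theorem Ang.fam (h : Ang d Φ β t c0) (hLnd : St_Lnd) (hSn : St_Snail) (hSt : St_Stab2) (y : ℝ)
    (k N : ℕ) (hN : 1 ≤ N) (hm : ∃ m : ℤ, ((d : ℝ) ^ (k + N) - (d : ℝ) ^ k) * y = m) :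
    ∃ q ε γ, Fam d Φ c0 y k N q ε γ ∧ 1 < ‖deriv ((fc d c0)^[N]) ((fc d c0)^[k] q)‖ := by
  have hd := h.d2
  have hdR : (0 : ℝ) < d := by exact_mod_cast (by omega : 0 < d)
  obtain ⟨q, hq, hqe⟩ := hLnd d Φ hd h.bott c0 h.conn y k N hN hm
  -- landing of the ray of angle `d ^ k * y`
  have hland : Tendsto (fun s : ℝ => Φ c0 (zt s ((d : ℝ) ^ k * y))) (𝓝[>] 0)
      (𝓝 ((fc d c0)^[k] q)) := by
    have h1 : Tendsto (fun s : ℝ => (fc d c0)^[k] (Φ c0 (zt s y))) (𝓝[>] 0)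
        (𝓝 ((fc d c0)^[k] q)) := by
      have hc : Continuous ((fc d c0)^[k]) := by
        have := continuous_fc_iter d k
        exact this.comp (f := fun z : ℂ => (c0, z)) (by fun_prop)
      exact (hc.tendsto q).comp hq
    have h2 : Tendsto (fun s : ℝ => s / (d : ℝ) ^ k) (𝓝[>] 0) (𝓝[>] 0) := by
      rw [tendsto_nhdsWithin_iff]
      constructor
      · have : Tendsto (fun s : ℝ => s / (d : ℝ) ^ k) (𝓝 0) (𝓝 (0 / (d : ℝ) ^ k)) :=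
          tendsto_id.div_const _
        rw [zero_div] at this
        exact this.mono_left nhdsWithin_le_nhds
      · filter_upwards [self_mem_nhdsWithin] with s hs
        have : (0 : ℝ) < s := hs
        exact div_pos this (by positivity)
    refine (h1.comp h2).congr' ?_
    filter_upwards [self_mem_nhdsWithin] with s hs
    have hs0 : (0 : ℝ) < s := hs
    have h3 : green d c0 0 < s / (d : ℝ) ^ k := by rw [h.conn]; positivity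
    show (fc d c0)^[k] (Φ c0 (zt (s / (d : ℝ) ^ k) y)) = _
    rw [map_iter h.bott hd h3]
    congr 2
    field_simp
  have hfix : (fc d c0)^[N] ((fc d c0)^[k] q) = (fc d c0)^[k] q := by
    rw [← Function.iterate_add_apply, add_comm, hqe]
  have hper : ∃ m : ℤ, ((d : ℝ) ^ N - 1) * ((d : ℝ) ^ k * y) = m := by
    obtain ⟨m, hm⟩ := hm
    refine ⟨m, ?_⟩
    rw [← hm, pow_add]
    ring
  have hmult : 1 < ‖deriv ((fc d c0)^[N]) ((fc d c0)^[k] q)‖ := by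
    rcases hSn d Φ hd h.bott c0 h.conn _ N _ hN hper hland hfix with h1 | h1
    · exact h1
    · exact absurd h1 (h.par N hN _ hfix)
  have hne : ∀ j < k, (fc d c0)^[j] q ≠ 0 := by
    intro j hj e
    obtain ⟨n, hn1, hn2⟩ : ∃ n, 1 ≤ n ∧ k = n + j := ⟨k - j, by omega, by omega⟩
    have e1 : P d n c0 = (fc d c0)^[k] q := by
      rw [hn2, Function.iterate_add_apply, e]
      rfl
    have e2 : P d (n + N) c0 = (fc d c0)^[N] (P d n c0) := by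
      rw [add_comm]
      exact Function.iterate_add_apply _ _ _ _
    exact h.pre n N hn1 hN (by rw [e2, e1, hfix])
  obtain ⟨ε, γ, h1, h2, h3, h4, h5, h6⟩ := hSt d Φ hd h.bott c0 h.conn y k N q hN hm hq hne hmult
  exact ⟨q, ε, γ, ⟨h1, h2, h3, h4, h5, h6⟩, hmult⟩

/-- co-landing in the sector of the slit -/
theorem Ang.col (h : Ang d Φ β t c0) (hCol : St_Col) {i : ℤ} {y y' : ℝ} {k N k' N' : ℕ} {q q' : ℂ}
    {ε : ℝ} {γ γ' : ℕ → ℂ → ℝ → ℂ} (F : Fam d Φ c0 y k N q ε γ) (F' : Fam d Φ c0 y' k' N' q' ε γ')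
    (j j' : ℕ) (h1 : Sec d t i ((d : ℝ) ^ j * y)) (h2 : Sec d t i ((d : ℝ) ^ j' * y')) :
    ∀ c ∈ ball c0 ε, γ j c 0 = γ' j' c 0 := by
  refine h.ident F.eps (F.ray j).hol (F'.ray j').hol ?_
  intro G hG hc
  have hE := esc_pa h.bott h.beta t hG
  refine hCol d Φ h.d2 h.bott (pa β t G) t G hE i _ _ (fun l => γ (j + l) (pa β t G))
    (fun l => γ' (j' + l) (pa β t G)) h1 h2 ?_ ?_ ?_
  · intro l
    exact ⟨(F.ray _).contS hc, (F'.ray _).contS hc⟩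
  · intro l s hs
    rw [← hE.crit] at hs
    refine ⟨?_, ?_⟩
    · rw [(F.ray (j + l)).eq _ hc s hs]
      congr 2
      rw [pow_add]; ring
    · rw [(F'.ray (j' + l)).eq _ hc s hs]
      congr 2
      rw [pow_add]; ring
  · intro l s hs
    refine ⟨(F.ray _).grn _ hc s hs, (F'.ray _).grn _ hc s hs, ?_, ?_⟩
    · rw [F.map _ _ hc s hs]; rfl
    · rw [F'.map _ _ hc s hs]; rfl

/-- one step backwards along an inverse branch -/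
theorem Ang.back (h : Ang d Φ β t c0) (hCb : St_Cb) {y : ℝ} {k N : ℕ} {q : ℂ}
    {ε : ℝ} {γ : ℕ → ℂ → ℝ → ℂ} (F : Fam d Φ c0 y k N q ε γ) {G : ℝ} (hG : 0 < G)
    (hc : pa β t G ∈ ball c0 ε) {g : ℤ → ℂ → ℂ} (hg : IsBr d Φ (pa β t G) t G g) (j : ℕ) (i : ℤ)
    (h1 : t + i < d * ((d : ℝ) ^ j * y)) (h2 : d * ((d : ℝ) ^ j * y) < t + i + 1) :
    γ (j + 1) (pa β t G) 0 ∉ Sl Φ (pa β t G) t G ∧
      g i (γ (j + 1) (pa β t G) 0) = γ j (pa β t G) 0 := by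
  have hE := esc_pa h.bott h.beta t hG
  have := hCb d Φ h.d2 h.bott (pa β t G) t G hE g hg ((d : ℝ) ^ j * y) i (γ j (pa β t G))
    (γ (j + 1) (pa β t G)) h1 h2 ((F.ray _).contS hc) ((F.ray _).contS hc) ?_ ?_ 0 le_rfl
  · rwa [mul_zero] at this
  · intro s hs
    rw [← hE.crit] at hs
    refine ⟨(F.ray j).eq _ hc s hs, ?_⟩
    rw [(F.ray (j + 1)).eq _ hc s hs]
    congr 2
    rw [pow_succ]; ring
  · intro s hs
    exact ⟨(F.ray _).grn _ hc s hs, (F.ray _).grn _ hc s hs, F.map _ _ hc s hs⟩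

end Pool.Agent.Y272.LC
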