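import Mathlib
import Pool.Agent.Y272.LC.Data
import Pool.Agent.Y272.TY.Fin5

set_option autoImplicit false
set_option maxHeartbeats 400000

/-!
# Almost every angle is typical
-/

open Complex Filter Topology Metric Set MeasureTheory

namespace Pool.Agent.Y272.LC

open Pool.Agent.H712R2 Pool.Agent.H713R2 Pool.Agent.H713R2.AR Pool.Agent.W677.Mar Pool.Agent.Y272.TY

attribute [local irreducible] Pool.Agent.H713R2.AR.green

theorem ae_scale {p : ℝ → Prop} {a : ℝ} (ha : a ≠ 0) (h : ∀ᵐ θ : ℝ, p θ) : ∀ᵐ t : ℝ, p (a * t) := by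
  rw [ae_iff] at h ⊢
  have h1 : {t : ℝ | ¬ p (a * t)} = (fun t => a * t) ⁻¹' {θ | ¬ p θ} := rfl
  rw [h1, Real.volume_preimage_mul_left ha, h, mul_zero]

theorem ae_fract {p : ℝ → Prop} (h : ∀ᵐ t : ℝ, p t) : ∀ᵐ t : ℝ, p (Int.fract t) := by
  have h1 : ∀ k : ℤ, ∀ᵐ t : ℝ, p (t - k) := by
    intro k
    have h2 := (measurePreserving_sub_right (volume : Measure ℝ) (k : ℝ)).quasiMeasurePreserving.ae h
    exact h2
  filter_upwards [ae_all_iff.2 h1] with t ht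
  have := ht ⌊t⌋
  rwa [Int.self_sub_floor] at this

theorem pa_int (β : ℂ → ℂ) (t G : ℝ) (k : ℤ) : pa β (t + k) G = pa β t G := by
  unfold pa
  congr 1
  rw [Complex.exp_eq_exp_iff_exists_int]
  refine ⟨-k, ?_⟩
  unfold zt
  push_cast
  ring

theorem pa_fract (β : ℂ → ℂ) (t G : ℝ) : pa β (Int.fract t) G = pa β t G := by
  have h := pa_int β (Int.fract t) G ⌊t⌋
  rw [Int.fract_add_floor] at h
  exact h.symm

theorem pa_eq (β : ℂ → ℂ) (t G : ℝ) : pa β t G = cc β (pt (Real.exp (-G)) (-(2 * Real.pi) * t)) := by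
  unfold pa pt circleMap
  rw [zero_add]
  congr 1
  rw [Complex.ofReal_exp, ← Complex.exp_add]
  congr 1
  unfold zt
  push_cast
  ring

theorem land_pa {β : ℂ → ℂ} {t : ℝ} {c0 : ℂ}
    (h : Tendsto (fun ρ : ℝ => cc β (pt ρ (-(2 * Real.pi) * t))) (𝓝[<] 1) (𝓝 c0)) :
    Tendsto (pa β t) (𝓝[>] 0) (𝓝 c0) := by
  have h1 : Tendsto (fun G : ℝ => Real.exp (-G)) (𝓝[>] 0) (𝓝[<] 1) := by
    rw [tendsto_nhdsWithin_iff]
    constructor
    · have : Tendsto (fun G : ℝ => Real.exp (-G)) (𝓝 0) (𝓝 (Real.exp (-0))) :=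
        (Real.continuous_exp.comp continuous_neg).tendsto 0
      rw [neg_zero, Real.exp_zero] at this
      exact this.mono_left nhdsWithin_le_nhds
    · filter_upwards [self_mem_nhdsWithin] with G hG
      have : (0 : ℝ) < G := hG
      show Real.exp (-G) < 1
      rw [Real.exp_lt_one_iff]
      linarith
  have h2 := h.comp h1
  refine h2.congr fun G => ?_
  rw [pa_eq]
  rfl

theorem ae_irr {d : ℕ} (hd : 2 ≤ d) : ∀ᵐ t : ℝ, ∀ (n : ℕ) (m : ℤ), 1 ≤ n →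
    (d : ℝ) ^ n * t ≠ t + m := by
  rw [ae_all_iff]
  intro n
  rw [ae_all_iff]
  intro m
  rcases Nat.eq_zero_or_pos n with hn | hn
  · exact Eventually.of_forall fun t h => by omega
  · have hd1 : (1 : ℝ) < d := by exact_mod_cast (by omega : 1 < d)
    have h1 : (1 : ℝ) < (d : ℝ) ^ n := one_lt_pow₀ hd1 (by omega)
    have h2 : ∀ᵐ t : ℝ, t ≠ m / ((d : ℝ) ^ n - 1) := by
      rw [ae_iff]
      simp
    filter_upwards [h2] with t ht _ e
    apply ht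
    rw [eq_div_iff (by linarith)]
    linarith

theorem ae_ang {d : ℕ} (hd : 2 ≤ d) {Φ : ℂ → ℂ → ℂ} (hΦ : IsBott d Φ) {β : ℂ → ℂ}
    (hβ : IsBeta d β) (hTyp : ∀ᵐ θ : ℝ, ∃ (c0 : ℂ) (A : ℝ) (R : ℂ), Typ d β θ c0 A R)
    (hFin : St_Fin) (hPt : St_Pt) (hGood : St_Good) :
    ∀ᵐ t : ℝ, ∃ (c0 : ℂ) (A : ℝ) (R : ℂ), Typ d β (-(2 * Real.pi) * t) c0 A R ∧
      Ang d Φ β (Int.fract t) c0 := by
  have h2pi : -(2 * Real.pi) ≠ 0 := by
    have := Real.pi_pos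
    intro h
    linarith
  have h1 := ae_scale h2pi hTyp
  -- the exceptional sets
  obtain ⟨E, hE⟩ : ∃ E : Set ℂ, E =
      (⋃ N : ℕ, {c : ℂ | ∃ p : ℂ, (fc d c)^[N + 1] p = p ∧ deriv ((fc d c)^[N + 1]) p = 1}) ∪
      ⋃ N : ℕ, ⋃ n : ℕ, {c : ℂ | P d (n + 1 + (N + 1)) c = P d (n + 1) c} := ⟨_, rfl⟩
  have hEc : E.Countable := by
    rw [hE]
    apply Set.Countable.union
    · exact countable_iUnion fun N => (hFin d (N + 1) hd (by omega)).1
    · exact countable_iUnion fun N => countable_iUnion fun n =>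
        (hFin d (N + 1) hd (by omega)).2 (n + 1) (by omega)
  have h2 : ∀ᵐ θ : ℝ, ∀ c1 ∈ E, ¬ Tendsto (fun ρ : ℝ => cc β (pt ρ θ)) (𝓝[<] 1) (𝓝 c1) := by
    rw [ae_ball_iff hEc]
    intro c1 _
    exact hPt d β hd hβ c1
  have h3 := ae_scale h2pi h2
  have h4 := ae_fract (hGood d hd)
  have h5 := ae_fract (ae_irr hd)
  filter_upwards [h1, h3, h4, h5] with t ht1 ht2 ht3 ht4
  obtain ⟨c0, A, R, hT⟩ := ht1
  refine ⟨c0, A, R, hT, ?_⟩
  have hnE : c0 ∉ E := fun hc => ht2 c0 hc hT.land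
  have hland := land_pa hT.land
  have hτ0 : Int.fract t ≠ 0 := by
    intro h
    have := ht4 1 0 le_rfl
    rw [h] at this
    simp at this
  refine ⟨hd, hΦ, hβ, lt_of_le_of_ne (Int.fract_nonneg t) (Ne.symm hτ0), Int.fract_lt_one t, ?_, ?_,
    ?_, ?_, ht3, ht4⟩
  · refine hland.congr fun G => ?_
    rw [pa_fract]
  · exact ((Pool.Agent.Y960.LC.t d hd).2.2.1 c0).1 (hT.mem hd hβ)
  · intro N hN p hp hdp
    apply hnE
    rw [hE]
    left
    rw [mem_iUnion]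
    obtain ⟨N', rfl⟩ : ∃ N', N = N' + 1 := ⟨N - 1, by omega⟩
    exact ⟨N', p, hp, hdp⟩
  · intro n N hn hN e
    apply hnE
    rw [hE]
    right
    obtain ⟨N', rfl⟩ : ∃ N', N = N' + 1 := ⟨N - 1, by omega⟩
    obtain ⟨n', rfl⟩ : ∃ n', n = n' + 1 := ⟨n - 1, by omega⟩
    rw [mem_iUnion]
    refine ⟨N', ?_⟩
    rw [mem_iUnion]
    exact ⟨n', e⟩

end Pool.Agent.Y272.LC
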