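import Mathlib
import Pool.Agent.Y272.LC.Data

set_option autoImplicit false
set_option maxHeartbeats 400000

/-!
# Typical angles: the data
-/

open Complex Filter Topology Metric Set MeasureTheory

namespace Pool.Agent.Y272.LC

open Pool.Agent.H712R2 Pool.Agent.H713R2 Pool.Agent.H713R2.AR Pool.Agent.W677.Mar Pool.Agent.Y272.TY

attribute [local irreducible] Pool.Agent.H713R2.AR.green

variable {d : ℕ} {Φ : ℂ → ℂ → ℂ} {β : ℂ → ℂ} {t : ℝ} {c0 : ℂ}

theorem Ang.dR (h : Ang d Φ β t c0) : (2 : ℝ) ≤ d := by exact_mod_cast h.d2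

theorem Ang.sector (h : Ang d Φ β t c0) : ∃ i : ℤ, 0 ≤ i ∧ i + 2 ≤ d ∧ t + i < d * t ∧
    d * t < t + i + 1 := by
  have hd := h.dR
  have h0 := h.t0
  have h1 := h.t1
  refine ⟨⌊((d : ℝ) - 1) * t⌋, ?_, ?_, ?_, ?_⟩
  · exact Int.floor_nonneg.2 (mul_nonneg (by linarith) h0.le)
  · have h2 : ((d : ℝ) - 1) * t < ((d - 1 : ℤ) : ℝ) := by push_cast; nlinarith
    have h3 := Int.floor_lt.2 h2
    omega
  · have h2 := Int.floor_le (((d : ℝ) - 1) * t)
    rcases h2.lt_or_eq with h3 | h3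
    · linarith
    · exfalso
      refine h.irr 1 ⌊((d : ℝ) - 1) * t⌋ le_rfl ?_
      rw [h3]; ring
  · have h2 := Int.lt_floor_add_one (((d : ℝ) - 1) * t)
    linarith

theorem dist_int (h : Ang d Φ β t c0) (m : ℤ) : min t (1 - t) ≤ |t - m| := by
  have h0 := h.t0
  have h1 := h.t1
  rcases le_or_gt m 0 with hm | hm
  · have : (m : ℝ) ≤ 0 := by exact_mod_cast hm
    rw [abs_of_pos (by linarith)]
    exact (min_le_left _ _).trans (by linarith)
  · have : (1 : ℝ) ≤ m := by exact_mod_cast hm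
    rw [abs_of_neg (by linarith)]
    exact (min_le_right _ _).trans (by linarith)

theorem Ang.exit (h : Ang d Φ β t c0) {i : ℤ} (hi0 : 0 ≤ i) (hi1 : i + 2 ≤ d) :
    ∃ n : ℕ, ∀ m : ℤ, (d : ℝ) ^ n * t - m < (t + i) / d ∨ (t + i + 1) / d < (d : ℝ) ^ n * t - m := by
  have hd := h.dR
  have h0 := h.t0
  have h1 := h.t1
  have hi0' : (0 : ℝ) ≤ i := by exact_mod_cast hi0
  have hi1' : (i : ℝ) + 2 ≤ d := by exact_mod_cast hi1
  obtain ⟨b, hb⟩ : ∃ b : ℝ, b = min ((t + i) / d) (1 - (t + i + 1) / d) := ⟨_, rfl⟩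
  have hb0 : 0 < b := by
    rw [hb]
    apply lt_min
    · positivity
    · rw [sub_pos, div_lt_one (by linarith)]; linarith
  have hb1 : b ≤ (t + i) / d := hb ▸ min_le_left _ _
  have hb2 : b ≤ 1 - (t + i + 1) / d := hb ▸ min_le_right _ _
  have ha0 : 0 < min t (1 - t) / 8 := by
    have : 0 < min t (1 - t) := lt_min h0 (by linarith)
    positivity
  obtain ⟨_, n, -, -, ⟨k, hk⟩, -⟩ := (h.good (min t (1 - t) / 8) b ha0 (fun m => by
    have := dist_int h m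
    have : 0 < min t (1 - t) := lt_min h0 (by linarith)
    linarith) hb0).exists
  refine ⟨n, fun m => ?_⟩
  rw [abs_lt] at hk
  rcases le_or_gt k m with hkm | hkm
  · left
    have : (k : ℝ) ≤ m := by exact_mod_cast hkm
    linarith [hk.2]
  · right
    have : (m : ℝ) + 1 ≤ k := by exact_mod_cast hkm
    linarith [hk.1]

/-- a fixed landing point is different from the landing points in the sector of the angle `0` -/
theorem Ang.ne_fam (h : Ang d Φ β t c0) (hBr : St_Br) (hCb : St_Cb) {i : ℤ} (hi0 : 0 ≤ i)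
    (hi1 : i + 2 ≤ d) {x y : ℝ} {k N k' N' : ℕ} {q q' : ℂ}
    {ε : ℝ} {γ γ' : ℕ → ℂ → ℝ → ℂ} (F : Fam d Φ c0 x k N q ε γ) (F' : Fam d Φ c0 y k' N' q' ε γ')
    (hfix : ∀ c ∈ ball c0 ε, fc d c (γ 0 c 0) = γ 0 c 0)
    (hx1 : (t + i) / d < x) (hx2 : x < (t + i + 1) / d) (hy1 : t - 1 < d * y) (hy2 : d * y < t) :
    γ' 0 c0 0 ≠ γ 0 c0 0 := by
  intro e
  have hd := h.dR
  obtain ⟨r, hr, hu⟩ := F'.uniq
  have hq' : q' = γ 0 c0 0 := by rw [← F'.zero, e]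
  have hcont : ContinuousAt (fun c => γ 0 c 0) c0 :=
    ((F.ray 0).hol.differentiableAt (ball_mem_nhds c0 F.eps)).continuousAt
  have hev : ∀ᶠ G : ℝ in 𝓝[>] 0, γ 0 (pa β t G) 0 ∈ ball q' r := by
    have h1 : Tendsto (fun G => γ 0 (pa β t G) 0) (𝓝[>] 0) (𝓝 (γ 0 c0 0)) :=
      hcont.tendsto.comp h.land
    rw [hq']
    exact h1.eventually (ball_mem_nhds _ hr)
  obtain ⟨G, ⟨hG, hc⟩, hb⟩ := ((h.ev F.eps).and hev).exists
  have hit : ∀ n : ℕ, (fc d (pa β t G))^[n] (γ 0 (pa β t G) 0) = γ 0 (pa β t G) 0 := by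
    intro n
    induction n with
    | zero => rfl
    | succ n ih => rw [Function.iterate_succ_apply', ih, hfix _ hc]
  have h1 : γ 0 (pa β t G) 0 = γ' 0 (pa β t G) 0 :=
    hu _ hc _ hb (by rw [hit, hit])
  have hE := esc_pa h.bott h.beta t hG
  obtain ⟨-, g, hg⟩ := hBr d Φ h.d2 h.bott _ t G hE
  have hdp : (0 : ℝ) < d := by linarith
  obtain ⟨a1, a2⟩ := h.back hCb F hG hc hg 0 i
    (by rw [pow_zero, one_mul]; rw [div_lt_iff₀ hdp] at hx1; linarith)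
    (by rw [pow_zero, one_mul]; rw [lt_div_iff₀ hdp] at hx2; linarith)
  obtain ⟨b1, b2⟩ := h.back hCb F' hG hc hg 0 (-1)
    (by rw [pow_zero, one_mul]; push_cast; linarith)
    (by rw [pow_zero, one_mul]; push_cast; linarith)
  have h2 := (hg.disj i (-1) _ a1 _ b1 (by rw [a2, b2, h1])).1
  have h3 : i - -1 = i + 1 := by ring
  rw [h3] at h2
  have h4 := Int.le_of_dvd (by omega) h2
  omega

/-- the data -/
theorem Ang.data (h : Ang d Φ β t c0) (hLnd : St_Lnd) (hSn : St_Snail) (hSt : St_Stab2)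
    (hCol : St_Col) (hBr : St_Br) (hCb : St_Cb) (hComb : St_Comb) :
    ∃ (i : ℤ) (x₁ x₂ ε : ℝ) (A₁ A₂ D₁ D₂ B : ℂ → ℝ → ℂ),
      Dat d Φ β c0 t i x₁ x₂ ε A₁ A₂ D₁ D₂ B ∧
      ∀ m : ℕ, ∃ (εm : ℝ) (T0 T1 : ℂ → ℝ → ℂ), 0 < εm ∧ εm ≤ ε ∧
        Ray d Φ c0 εm ((x₂ - 1) / (d : ℝ) ^ (m + 1)) T0 ∧
        Ray d Φ c0 εm (x₁ / (d : ℝ) ^ (m + 1)) T1 ∧ (∀ c ∈ ball c0 εm, T0 c 0 = T1 c 0) ∧
        B c0 0 ≠ T0 c0 0 := by
  have hd := h.dR
  have hdp : (0 : ℝ) < d := by linarith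
  obtain ⟨i, hi0, hi1, hi2, hi3⟩ := h.sector
  obtain ⟨q, x₁, x₂, hq, hm1, hm2, hx1, hx2, hx3, hx4, hs1, hs2⟩ :=
    hComb d t i h.d2 h.t0 h.t1 hi2 hi3 (h.exit hi0 hi1) h.irr
  have hi0' : (0 : ℝ) ≤ i := by exact_mod_cast hi0
  have hi1' : (i : ℝ) + 2 ≤ d := by exact_mod_cast hi1
  have hx0 : 0 < x₁ := lt_of_le_of_lt (by have := h.t0; positivity) hx1
  have hx5 : x₂ < 1 := by
    refine hx4.trans ?_
    rw [div_lt_one hdp]
    linarith [h.t1]
  have S1 : Sec d t i x₁ := hs1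
  have S2 : Sec d t i x₂ := hs2
  -- the families
  obtain ⟨q1, e1, γ1, F1, -⟩ := h.fam hLnd hSn hSt x₁ 0 q hq (by
    obtain ⟨m, hm⟩ := hm1; exact ⟨m, by rw [zero_add, pow_zero]; exact hm⟩)
  obtain ⟨q2, e2, γ2, F2, -⟩ := h.fam hLnd hSn hSt x₂ 0 q hq (by
    obtain ⟨m, hm⟩ := hm2; exact ⟨m, by rw [zero_add, pow_zero]; exact hm⟩)
  obtain ⟨q3, e3, γ3, F3, -⟩ := h.fam hLnd hSn hSt (x₁ / d) 1 q hq (by
    obtain ⟨m, hm⟩ := hm1
    refine ⟨m, ?_⟩
    rw [← hm, pow_add, pow_one]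
    field_simp)
  obtain ⟨q4, e4, γ4, F4, -⟩ := h.fam hLnd hSn hSt ((x₂ - 1) / d) 1 q hq (by
    obtain ⟨m, hm⟩ := hm2
    refine ⟨m - (d ^ q - 1), ?_⟩
    push_cast
    rw [← hm, pow_add, pow_one]
    field_simp)
  obtain ⟨q5, e5, γ5, F5, hrep⟩ := h.fam hLnd hSn hSt 0 0 1 le_rfl ⟨0, by simp⟩
  obtain ⟨ε, hε⟩ : ∃ ε : ℝ, ε = min e1 (min e2 (min e3 (min e4 e5))) := ⟨_, rfl⟩
  have hε0 : 0 < ε := by
    rw [hε]
    exact lt_min F1.eps (lt_min F2.eps (lt_min F3.eps (lt_min F4.eps F5.eps)))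
  have l1 : ε ≤ e1 := hε ▸ min_le_left _ _
  have l2 : ε ≤ e2 := hε ▸ (min_le_right _ _).trans (min_le_left _ _)
  have l3 : ε ≤ e3 := hε ▸ (min_le_right _ _).trans ((min_le_right _ _).trans (min_le_left _ _))
  have l4 : ε ≤ e4 := hε ▸ (min_le_right _ _).trans ((min_le_right _ _).trans
    ((min_le_right _ _).trans (min_le_left _ _)))
  have l5 : ε ≤ e5 := hε ▸ (min_le_right _ _).trans ((min_le_right _ _).trans
    ((min_le_right _ _).trans (min_le_right _ _)))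
  replace F1 := F1.mono hε0 l1
  replace F2 := F2.mono hε0 l2
  replace F3 := F3.mono hε0 l3
  replace F4 := F4.mono hε0 l4
  replace F5 := F5.mono hε0 l5
  have hfix : ∀ c ∈ ball c0 ε, fc d c (γ1 0 c 0) = γ1 0 c 0 := by
    intro c hc
    rw [F1.map 0 c hc 0 le_rfl, mul_zero]
    exact (h.col hCol F1 F1 (0 + 1) 0 (S1.shift 1)
      (by rw [pow_zero, one_mul]; exact S1) c hc)
  have hcol : ∀ c ∈ ball c0 ε, γ1 0 c 0 = γ2 0 c 0 :=
    h.col hCol F1 F2 0 0 (by rw [pow_zero, one_mul]; exact S1) (by rw [pow_zero, one_mul]; exact S2)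
  have hx2' : x₁ < (t + i + 1) / d := by linarith
  have hneB : γ5 0 c0 0 ≠ γ1 0 c0 0 := h.ne_fam hBr hCb hi0 hi1 F1 F5 hfix hx1 hx2'
    (by rw [mul_zero]; linarith [h.t1]) (by rw [mul_zero]; exact h.t0)
  have hneD1 : γ3 0 c0 0 ≠ γ1 0 c0 0 := by
    refine h.ne_fam hBr hCb hi0 hi1 F1 F3 hfix hx1 hx2' ?_ ?_
    · rw [mul_div_cancel₀ _ hdp.ne']; linarith [h.t1]
    · rw [mul_div_cancel₀ _ hdp.ne']; exact hx2
  have hneD2 : γ4 0 c0 0 ≠ γ1 0 c0 0 := by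
    refine h.ne_fam hBr hCb hi0 hi1 F1 F4 hfix hx1 hx2' ?_ ?_
    · rw [mul_div_cancel₀ _ hdp.ne']; linarith [h.t1]
    · rw [mul_div_cancel₀ _ hdp.ne']; linarith [h.t0]
  have heqB : ∀ c ∈ ball c0 ε, ∀ s : ℝ, 0 ≤ s → fc d c (γ5 0 c s) = γ5 0 c (d * s) := by
    intro c hc s hs
    rw [F5.map 0 c hc s hs, ← F5.per 0 le_rfl c hc (d * s) (by positivity)]
  have hc0 := mem_ball_self (x := c0) hε0
  refine ⟨i, x₁, x₂, ε, γ1 0, γ2 0, γ3 0, γ4 0, γ5 0, ⟨h.d2, h.bott, h.beta, hε0, h.conn, h.t0,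
    h.t1, hi0, hi1, hx1, hx2, hx3, hx4, h.land, ?_, ?_, ?_, ?_, ?_, hcol, heqB, hneB, hneD1, hneD2,
    ?_⟩, ?_⟩
  · simpa using F1.ray 0
  · simpa using F2.ray 0
  · simpa using F3.ray 0
  · simpa using F4.ray 0
  · simpa using F5.ray 0
  · have e : γ5 0 c0 0 = q5 := F5.zero
    rw [e]
    simpa using hrep
  · intro m
    obtain ⟨q6, e6, γ6, F6, -⟩ := h.fam hLnd hSn hSt (x₁ / (d : ℝ) ^ (m + 1)) (m + 1) q hq (by
      obtain ⟨n, hn⟩ := hm1
      refine ⟨n, ?_⟩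
      rw [← hn, pow_add]
      field_simp)
    obtain ⟨q7, e7, γ7, F7, -⟩ := h.fam hLnd hSn hSt ((x₂ - 1) / (d : ℝ) ^ (m + 1)) (m + 1) q hq (by
      obtain ⟨n, hn⟩ := hm2
      refine ⟨n - (d ^ q - 1), ?_⟩
      push_cast
      rw [← hn, pow_add]
      field_simp)
    obtain ⟨εm, hεm⟩ : ∃ εm : ℝ, εm = min ε (min e6 e7) := ⟨_, rfl⟩
    have hεm0 : 0 < εm := by rw [hεm]; exact lt_min hε0 (lt_min F6.eps F7.eps)
    have m1 : εm ≤ ε := hεm ▸ min_le_left _ _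
    have m2 : εm ≤ e6 := hεm ▸ (min_le_right _ _).trans (min_le_left _ _)
    have m3 : εm ≤ e7 := hεm ▸ (min_le_right _ _).trans (min_le_right _ _)
    replace F6 := F6.mono hεm0 m2
    replace F7 := F7.mono hεm0 m3
    have F1' := F1.mono hεm0 m1
    have hdm : (0 : ℝ) < (d : ℝ) ^ (m + 1) := by positivity
    have T1 : Sec d t i ((d : ℝ) ^ (m + 1) * (x₁ / (d : ℝ) ^ (m + 1))) := by
      rw [mul_div_cancel₀ _ hdm.ne']; exact S1
    have T2 : Sec d t i ((d : ℝ) ^ (m + 1) * ((x₂ - 1) / (d : ℝ) ^ (m + 1))) := by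
      rw [mul_div_cancel₀ _ hdm.ne']
      have := S2.sub_int 1
      simpa using this
    have hc76 := h.col hCol F7 F6 (m + 1) (m + 1) T2 T1
    have hc71 := h.col hCol F7 F1' (m + 1) 0 T2 (by rw [pow_zero, one_mul]; exact S1)
    refine ⟨εm, γ7 0, γ6 0, hεm0, m1, by simpa using F7.ray 0, by simpa using F6.ray 0, ?_, ?_⟩
    · refine h.ident hεm0 (F7.ray 0).hol (F6.ray 0).hol ?_
      intro G hG hc
      obtain ⟨-, g, hg⟩ := hBr d Φ h.d2 h.bott _ t G (esc_pa h.bott h.beta t hG)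
      have key : ∀ l j : ℕ, l + j = m + 1 → γ7 j (pa β t G) 0 = γ6 j (pa β t G) 0 := by
        intro l
        induction l with
        | zero =>
          intro j hj
          have : j = m + 1 := by omega
          subst this
          exact hc76 _ hc
        | succ l ih =>
          intro j hj
          have h1 := ih (j + 1) (by omega)
          have e1 : (d : ℝ) ^ (m + 1) = d * (d : ℝ) ^ j * (d : ℝ) ^ l := by
            rw [← hj, pow_add, pow_add]; ring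
          have hl1 : (1 : ℝ) ≤ (d : ℝ) ^ l := one_le_pow₀ (by linarith)
          have hl0 : (0 : ℝ) < (d : ℝ) ^ l := by positivity
          have e2 : d * ((d : ℝ) ^ j * (x₁ / (d : ℝ) ^ (m + 1))) = x₁ / (d : ℝ) ^ l := by
            rw [e1]; field_simp
          have e3 : d * ((d : ℝ) ^ j * ((x₂ - 1) / (d : ℝ) ^ (m + 1))) =
              (x₂ - 1) / (d : ℝ) ^ l := by
            rw [e1]; field_simp
          have b1 : x₁ / (d : ℝ) ^ l ≤ x₁ := div_le_self hx0.le hl1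
          have b2 : 0 < x₁ / (d : ℝ) ^ l := by positivity
          have b3 : x₂ - 1 ≤ (x₂ - 1) / (d : ℝ) ^ l := by
            rw [le_div_iff₀ hl0]
            nlinarith
          have b4 : (x₂ - 1) / (d : ℝ) ^ l < 0 := div_neg_of_neg_of_pos (by linarith) hl0
          have a1 := h.back hCb F6 hG hc hg j (-1) (by rw [e2]; push_cast; linarith [h.t1])
            (by rw [e2]; push_cast; linarith)
          have a2 := h.back hCb F7 hG hc hg j (-1) (by rw [e3]; push_cast; linarith)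
            (by rw [e3]; push_cast; linarith [h.t0])
          rw [← a1.2, ← a2.2, h1]
      exact key (m + 1) 0 (by omega)
    · intro e
      have hc0' := mem_ball_self (x := c0) hεm0
      have h1 := F7.iter hc0' 0 (m + 1)
      rw [zero_add] at h1
      have h2 : ∀ n : ℕ, (fc d c0)^[n] (γ5 0 c0 0) = γ5 0 c0 0 := by
        intro n
        induction n with
        | zero => rfl
        | succ n ih =>
          rw [Function.iterate_succ_apply', ih, heqB c0 hc0 0 le_rfl, mul_zero]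
      rw [← e, h2, hc71 c0 hc0'] at h1
      exact hneB h1

end Pool.Agent.Y272.LC
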