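import Mathlib
import Pool.Agent.Y272.LC.Data2
import Pool.Agent.Y272.TY.Fin5

set_option autoImplicit false
set_option maxHeartbeats 400000

/-!
# Typical angles: the pieces at the good scales
-/

open Complex Filter Topology Metric Set MeasureTheory

namespace Pool.Agent.Y272.LC

open Pool.Agent.H712R2 Pool.Agent.H713R2 Pool.Agent.H713R2.AR Pool.Agent.W677.Mar Pool.Agent.Y272.TY

attribute [local irreducible] Pool.Agent.H713R2.AR.green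

variable {d : ℕ} {Φ : ℂ → ℂ → ℂ} {β : ℂ → ℂ} {t : ℝ} {c0 : ℂ}

/-- loops of small size, with all their properties, for the parameters near `c0` -/
structure Loop (d : ℕ) (Φ : ℂ → ℂ → ℂ) (c0 w : ℂ) (ε l a b η δ : ℝ) (T0 T1 : ℂ → ℝ → ℂ) :
    Prop where
  eps : 0 < ε
  l0 : 0 < l
  a0 : a < 0
  b0 : 0 < b
  ab : b < a + 1
  r0 : Ray d Φ c0 ε a T0
  r1 : Ray d Φ c0 ε b T1
  col : ∀ c ∈ ball c0 ε, T0 c 0 = T1 c 0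
  lev : ∀ c ∈ ball c0 ε, green d c 0 < l
  near : ∀ c ∈ ball c0 ε, (∀ s ∈ Icc 0 l, ‖T0 c s - w‖ ≤ η ∧ ‖T1 c s - w‖ ≤ η) ∧
    ∀ u ∈ Icc a b, ‖Φ c (zt l u) - w‖ ≤ η
  ins : ∀ c ∈ ball c0 ε, ∀ s u : ℝ, green d c 0 < s → s < l → a < u → u < b →
    ‖Φ c (zt s u) - w‖ ≤ η
  δ0 : 0 < δ
  enc : ∀ c ∈ ball c0 ε, ∀ z ∈ ball w δ,
    ¬ HasLog (T0 c) (T1 c) (fun u => Φ c (zt l u)) l a b z ∧
    (∀ s ∈ Icc 0 l, T0 c s ≠ z ∧ T1 c s ≠ z) ∧ (∀ u ∈ Icc a b, Φ c (zt l u) ≠ z)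
  ang : ∀ c ∈ ball c0 ε, ∀ z ∈ ball w δ, ∀ s u : ℝ, green d c 0 < s → Φ c (zt s u) = z →
    s < l ∧ ∃ k : ℤ, a < u - k ∧ u - k < b

theorem tendsto_inv_pow {d : ℕ} (hd : 2 ≤ d) (x : ℝ) :
    Tendsto (fun m : ℕ => x / (d : ℝ) ^ (m + 1)) atTop (𝓝 0) := by
  have h1 : Tendsto (fun m : ℕ => (d : ℝ) ^ (m + 1)) atTop atTop :=
    (tendsto_pow_atTop_atTop_of_one_lt (by exact_mod_cast (by omega : 1 < d))).comp
      (tendsto_add_atTop_nat 1)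
  exact h1.const_div_atTop x

/-- existence of small loops -/
theorem exists_loop (h : Ang d Φ β t c0) {i : ℤ} {x₁ x₂ ε : ℝ} {A₁ A₂ D₁ D₂ B : ℂ → ℝ → ℂ}
    (D : Dat d Φ β c0 t i x₁ x₂ ε A₁ A₂ D₁ D₂ B)
    (hL : ∀ m : ℕ, ∃ (εm : ℝ) (T0 T1 : ℂ → ℝ → ℂ), 0 < εm ∧ εm ≤ ε ∧
        Ray d Φ c0 εm ((x₂ - 1) / (d : ℝ) ^ (m + 1)) T0 ∧
        Ray d Φ c0 εm (x₁ / (d : ℝ) ^ (m + 1)) T1 ∧ (∀ c ∈ ball c0 εm, T0 c 0 = T1 c 0) ∧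
        B c0 0 ≠ T0 c0 0)
    (hShr : St_Shr) (hUni : St_Uni) (hInn : St_Inn) {η a : ℝ} (hη : 0 < η) (ha : 0 < a) :
    ∃ (ε' l a' b' δ : ℝ) (T0 T1 : ℂ → ℝ → ℂ), -a < a' ∧ b' < a ∧
      Loop d Φ c0 (B c0 0) ε' l a' b' η δ T0 T1 := by
  have hd := h.d2
  have hdR := h.dR
  have hx0 : 0 < x₁ := lt_of_le_of_lt (by
    have h1 := h.t0
    have h2 : (0 : ℝ) ≤ i := by exact_mod_cast D.i0
    positivity) D.x1l
  have hx5 : x₂ < 1 := by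
    refine D.x2r.trans ?_
    have h2 : (i : ℝ) + 2 ≤ d := by exact_mod_cast D.i1
    rw [div_lt_one (by linarith)]
    linarith [h.t1]
  obtain ⟨m₀, hm₀⟩ := hShr d Φ β c0 t i x₁ x₂ ε A₁ A₂ D₁ D₂ B D (η / 2) (by positivity)
  have e1 : ∀ᶠ m : ℕ in atTop, (1 - x₂) / (d : ℝ) ^ (m + 1) < a :=
    (tendsto_inv_pow hd _).eventually (gt_mem_nhds ha)
  have e2 : ∀ᶠ m : ℕ in atTop, x₁ / (d : ℝ) ^ (m + 1) < a :=
    (tendsto_inv_pow hd _).eventually (gt_mem_nhds ha)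
  obtain ⟨m, hm, hm1, hm2⟩ := ((eventually_ge_atTop m₀).and (e1.and e2)).exists
  obtain ⟨s1, s2⟩ := hm₀ m hm
  obtain ⟨εm, T0, T1, g0, g1, R0, R1, gc, gn⟩ := hL m
  have hdm : (0 : ℝ) < (d : ℝ) ^ (m + 1) := by positivity
  obtain ⟨l, hl⟩ : ∃ l : ℝ, l = 1 / (d : ℝ) ^ (m + 1) := ⟨_, rfl⟩
  have hl0 : 0 < l := by rw [hl]; positivity
  obtain ⟨a', ha'⟩ : ∃ a' : ℝ, a' = (x₂ - 1) / (d : ℝ) ^ (m + 1) := ⟨_, rfl⟩
  obtain ⟨b', hb'⟩ : ∃ b' : ℝ, b' = x₁ / (d : ℝ) ^ (m + 1) := ⟨_, rfl⟩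
  rw [← ha'] at R0 s1 s2
  rw [← hb'] at R1 s1 s2
  rw [← hl] at s1 s2
  have ha0 : a' < 0 := by rw [ha']; exact div_neg_of_neg_of_pos (by linarith) hdm
  have hb0 : 0 < b' := by rw [hb']; positivity
  have hab : b' < a' + 1 := by
    have h1 : (1 : ℝ) ≤ (d : ℝ) ^ (m + 1) := one_le_pow₀ (by linarith)
    have h2 : b' - a' = (x₁ + (1 - x₂)) / (d : ℝ) ^ (m + 1) := by rw [ha', hb']; ring
    have h3 : (x₁ + (1 - x₂)) / (d : ℝ) ^ (m + 1) ≤ x₁ + (1 - x₂) :=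
      div_le_self (by linarith) h1
    linarith [D.x1r, D.x2l]
  have hc0 := mem_ball_self (x := c0) g0
  -- the rays at `c0`
  have near0 : ∀ (y : ℝ) (T : ℂ → ℝ → ℂ), Ray d Φ c0 εm y T →
      (∀ s : ℝ, 0 < s → s ≤ l → ‖Φ c0 (zt s y) - B c0 0‖ ≤ η / 2) →
      ∀ s ∈ Icc 0 l, ‖T c0 s - B c0 0‖ < η := by
    intro y T R hs s hsl
    refine lt_of_le_of_lt ?_ (half_lt_self hη)
    rcases hsl.1.eq_or_lt with h0 | h0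
    · rw [← h0]
      have h1 := R.land g0 h.conn
      have h2 : Tendsto (fun s : ℝ => ‖Φ c0 (zt s y) - B c0 0‖) (𝓝[>] 0) (𝓝 ‖T c0 0 - B c0 0‖) :=
        (h1.sub_const _).norm
      refine le_of_tendsto h2 ?_
      have h3 : ∀ᶠ s : ℝ in 𝓝[>] 0, s ≤ l :=
        mem_nhdsWithin_of_mem_nhds (Iic_mem_nhds hl0)
      filter_upwards [self_mem_nhdsWithin, h3] with u hu hu'
      exact hs u hu hu'
    · rw [R.eq c0 hc0 s (by rw [h.conn]; exact h0)]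
      exact hs s h0 hsl.2
  have n0 := near0 a' T0 R0 (fun s h1 h2 => (s1 s h1 h2).2)
  have n1 := near0 b' T1 R1 (fun s h1 h2 => (s1 s h1 h2).1)
  obtain ⟨ε₁, p1, p2, p3⟩ := hUni d Φ hd h.bott c0 (B c0 0) εm l a' b' η T0 T1 g0 h.conn hl0
    (by linarith) hab R0 R1 gc (fun s hs => ⟨n0 s hs, n1 s hs⟩)
    (fun u hu => lt_of_le_of_lt (s2 u hu) (half_lt_self hη))
  obtain ⟨ε₂, δ, q1, q2, q3, q4⟩ := hInn d Φ hd h.bott c0 εm l a' b' T0 T1 B g0 h.conn hl0 ha0 hb0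
    hab R0 R1 (D.rB.mono g1) gc gn
  obtain ⟨ε', hε'⟩ : ∃ ε' : ℝ, ε' = min ε₁ ε₂ := ⟨_, rfl⟩
  have l1 : ε' ≤ ε₁ := hε' ▸ min_le_left _ _
  have l2 : ε' ≤ ε₂ := hε' ▸ min_le_right _ _
  have b1 : ball c0 ε' ⊆ ball c0 ε₁ := ball_subset_ball l1
  have b2 : ball c0 ε' ⊆ ball c0 ε₂ := ball_subset_ball l2
  have b3 : ball c0 ε' ⊆ ball c0 εm := b1.trans (ball_subset_ball p2)
  refine ⟨ε', l, a', b', δ, T0, T1, ?_, ?_, ?_⟩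
  · have : a' = -((1 - x₂) / (d : ℝ) ^ (m + 1)) := by rw [ha']; ring
    rw [this]; linarith
  · rw [hb']; exact hm2
  · refine ⟨by rw [hε']; exact lt_min p1 q1, hl0, ha0, hb0, hab, R0.mono (l1.trans p2),
      R1.mono (l1.trans p2), fun c hc => gc c (b3 hc), fun c hc => (p3 c (b1 hc)).1, ?_, ?_, q3, ?_,
      ?_⟩
    · intro c hc
      obtain ⟨-, h1, h2, -⟩ := p3 c (b1 hc)
      exact ⟨fun s hs => ⟨(h1 s hs).1.le, (h1 s hs).2.le⟩, fun u hu => (h2 u hu).le⟩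
    · intro c hc
      exact (p3 c (b1 hc)).2.2.2
    · intro c hc z hz
      obtain ⟨h1, h2, h3, -⟩ := q4 c (b2 hc) z hz
      exact ⟨h1, h2, h3⟩
    · intro c hc z hz s u hs hu
      exact (q4 c (b2 hc) z hz).2.2.2 s u hs hu

theorem Loop.mono {w : ℂ} {ε ε' l a b η δ δ' : ℝ} {T0 T1 : ℂ → ℝ → ℂ}
    (L : Loop d Φ c0 w ε l a b η δ T0 T1) (h0 : 0 < ε') (h1 : ε' ≤ ε) (h2 : 0 < δ')
    (h3 : δ' ≤ δ) : Loop d Φ c0 w ε' l a b η δ' T0 T1 := by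
  have b1 : ball c0 ε' ⊆ ball c0 ε := ball_subset_ball h1
  have b2 : ball w δ' ⊆ ball w δ := ball_subset_ball h3
  exact ⟨h0, L.l0, L.a0, L.b0, L.ab, L.r0.mono h1, L.r1.mono h1, fun c hc => L.col c (b1 hc),
    fun c hc => L.lev c (b1 hc), fun c hc => L.near c (b1 hc), fun c hc => L.ins c (b1 hc), h2,
    fun c hc z hz => L.enc c (b1 hc) z (b2 hz), fun c hc z hz => L.ang c (b1 hc) z (b2 hz)⟩

end Pool.Agent.Y272.LC
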