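import Mathlib
import Pool.Agent.Y272.LC.Scale2
import Pool.Agent.Y272.LC.Meas
import Pool.Agent.Y272.LC.Stm4

set_option autoImplicit false
set_option maxHeartbeats 800000

/-!
# Moduli at typical angles
-/

open Complex Filter Topology Metric Set MeasureTheory

namespace Pool.Agent.Y272.LC

open Pool.Agent.H712R2 Pool.Agent.H713R2 Pool.Agent.H713R2.AR Pool.Agent.W677.Mar Pool.Agent.Y272.TY

attribute [local irreducible] Pool.Agent.H713R2.AR.green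

/-- the pieces at the good scales (conclusion of `Ang.scale`) -/
def Pieces (d : ℕ) (β : ℂ → ℂ) (t : ℝ) (c0 : ℂ) : Prop :=
    ∃ C₁ C₂ C₃ : ℝ, 0 < C₁ ∧ 0 < C₂ ∧ 0 < C₃ ∧ ∀ᶠ N : ℕ in atTop, ∃ n : ℕ, N ≤ n ∧
      (n : ℝ) ≤ N + Real.log N ^ 6 ∧
      (∃ Q : Set ℂ, IsConnected Q ∧ Q ⊆ N62a1eb23.multibrotSet d ∧
        N62a1eb23.multibrotSet d ∩ closedBall c0 (C₁ / ‖MM d c0 (n + 1)‖) ⊆ Q ∧
        Q ⊆ closedBall c0 (C₂ / ‖MM d c0 (n + 1)‖)) ∧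
      ∀ s u : ℝ, 0 < s → (d : ℝ) ^ n * s < C₃ → (d : ℝ) ^ n * |u - t| < C₃ →
        ‖pa β u s - c0‖ ≤ C₂ / ‖MM d c0 (n + 1)‖

theorem MM_pos {d : ℕ} (hd : 2 ≤ d) {β : ℂ → ℂ} {θ : ℝ} {c0 : ℂ} {A : ℝ} {R : ℂ}
    (hT : Typ d β θ c0 A R) (n : ℕ) : 0 < ‖MM d c0 (n + 1)‖ :=
  norm_pos_iff.2 (MM_ne_zero hd c0 n fun j _ => hT.P_ne j)

theorem MM_succ_le {d : ℕ} (hd : 2 ≤ d) {β : ℂ → ℂ} (hβ : IsBeta d β) {θ : ℝ} {c0 : ℂ} {A : ℝ}
    {R : ℂ} (hT : Typ d β θ c0 A R) (n : ℕ) :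
    ‖MM d c0 (n + 1 + 1)‖ ≤ (d * 2 ^ (d - 1)) * ‖MM d c0 (n + 1)‖ := by
  rw [MM_succ d c0 (by omega : 1 ≤ n + 1), norm_mul, norm_mul, norm_pow, Complex.norm_natCast,
    mul_comm]
  refine mul_le_mul_of_nonneg_right ?_ (norm_nonneg _)
  exact mul_le_mul_of_nonneg_left (pow_le_pow_left₀ (norm_nonneg _) (hT.P_le hd hβ _) _)
    (by positivity)

/-- the modulus of local connectivity -/
theorem lc_mod {d : ℕ} (hd : 2 ≤ d) {β : ℂ → ℂ} (hβ : IsBeta d β) {θ t : ℝ} {c0 : ℂ} {A₀ : ℝ}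
    {R : ℂ} (hT : Typ d β θ c0 A₀ R) (hP : Pieces d β t c0) (hMod : St_Mod1) :
    ∃ A r₀ : ℝ, 0 < A ∧ 0 < r₀ ∧ ∀ r : ℝ, 0 < r → r < r₀ → ∃ Q : Set ℂ, IsConnected Q ∧
      Q ⊆ N62a1eb23.multibrotSet d ∧ N62a1eb23.multibrotSet d ∩ closedBall c0 r ⊆ Q ∧
      Q ⊆ closedBall c0 (r * Real.exp (A * Real.log (Real.log (1 / r)) ^ 6)) := by
  obtain ⟨C₁, C₂, C₃, hC₁, hC₂, hC₃, hev⟩ := hP
  have hd1 : (1 : ℝ) < d := by exact_mod_cast (by omega : 1 < d)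
  have hld : 0 < Real.log d := Real.log_pos hd1
  obtain ⟨K, hK, hlow⟩ := hT.low hd (half_pos hld)
  obtain ⟨A, r₀, hA, hr₀, H⟩ := hMod (fun n => ‖MM d c0 (n + 1)‖) C₁ C₂ (d * 2 ^ (d - 1)) K
    (Real.log d / 2) (fun n => ∃ Q : Set ℂ, IsConnected Q ∧ Q ⊆ N62a1eb23.multibrotSet d ∧
        N62a1eb23.multibrotSet d ∩ closedBall c0 (C₁ / ‖MM d c0 (n + 1)‖) ⊆ Q ∧
        Q ⊆ closedBall c0 (C₂ / ‖MM d c0 (n + 1)‖)) hC₁ hC₂ (by
          have : (1 : ℝ) ≤ 2 ^ (d - 1) := one_le_pow₀ (by norm_num)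
          nlinarith) (half_pos hld)
    (fun n => MM_pos hd hT n) (fun n => MM_succ_le hd hβ hT n) (fun n => by
      rw [← Real.le_log_iff_exp_le (MM_pos hd hT n)]
      have := hlow n
      have e : (n : ℝ) * (Real.log d - Real.log d / 2) = Real.log d / 2 * n := by ring
      linarith) (by
      filter_upwards [hev] with N hN
      obtain ⟨n, h1, h2, h3, -⟩ := hN
      exact ⟨n, h1, h2, h3⟩)
  refine ⟨A, r₀, hA, hr₀, fun r hr hr' => ?_⟩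
  obtain ⟨n, ⟨Q, Q1, Q2, Q3, Q4⟩, h1, h2⟩ := H r hr hr'
  refine ⟨Q, Q1, Q2, ?_, ?_⟩
  · exact (inter_subset_inter_right _ (closedBall_subset_closedBall h1)).trans Q3
  · exact Q4.trans (closedBall_subset_closedBall h2)

/-- polar coordinates near a point of the unit circle -/
theorem polar {z : ℂ} {t h : ℝ} (hz : 1 < ‖z‖) (hh : ‖z - Complex.exp ((2 * Real.pi * t : ℝ) * I)‖ ≤ h)
    (hh1 : h < 1) : ∃ s u : ℝ, 0 < s ∧ s ≤ h ∧ |u - t| ≤ h ∧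
      z = ((Real.exp s : ℝ) : ℂ) * Complex.exp ((2 * Real.pi * u : ℝ) * I) := by
  have hz0 : 0 < ‖z‖ := by linarith
  obtain ⟨w, hw⟩ : ∃ w : ℂ, w = z * Complex.exp (-((2 * Real.pi * t : ℝ) * I)) := ⟨_, rfl⟩
  have hzw : z = w * Complex.exp ((2 * Real.pi * t : ℝ) * I) := by
    rw [hw, mul_assoc, ← Complex.exp_add, neg_add_cancel, Complex.exp_zero, mul_one]
  have hw1 : ‖w‖ = ‖z‖ := by
    rw [hzw, norm_mul, Complex.norm_exp_ofReal_mul_I, mul_one]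
  have hw2 : ‖w - 1‖ ≤ h := by
    have e : z - Complex.exp ((2 * Real.pi * t : ℝ) * I) =
        (w - 1) * Complex.exp ((2 * Real.pi * t : ℝ) * I) := by rw [sub_mul, one_mul, ← hzw]
    rw [e, norm_mul, Complex.norm_exp_ofReal_mul_I, mul_one] at hh
    exact hh
  have h0 : 0 ≤ h := (norm_nonneg _).trans hw2
  have hre : 0 < w.re := by
    have h1 : |(w - 1).re| ≤ ‖w - 1‖ := Complex.abs_re_le_norm _
    rw [Complex.sub_re, Complex.one_re] at h1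
    have := (abs_le.1 (h1.trans hw2)).1
    linarith
  have him : |w.im| ≤ h := by
    have h1 : |(w - 1).im| ≤ ‖w - 1‖ := Complex.abs_im_le_norm _
    rw [Complex.sub_im, Complex.one_im, sub_zero] at h1
    exact h1.trans hw2
  have hwn : 1 < ‖w‖ := hw1 ▸ hz
  have harg : |Complex.arg w| ≤ Real.pi / 2 := Complex.abs_arg_le_pi_div_two_iff.2 hre.le
  have hsin : |Real.sin (Complex.arg w)| ≤ h := by
    rw [Complex.sin_arg, abs_div, abs_of_pos (by linarith : 0 < ‖w‖), div_le_iff₀ (by linarith)]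
    nlinarith
  have hj : 2 / Real.pi * |Complex.arg w| ≤ |Real.sin (Complex.arg w)| := by
    exact Real.mul_abs_le_abs_sin harg
  have hpi := Real.pi_pos
  have hpi4 := Real.pi_le_four
  refine ⟨Real.log ‖z‖, t + Complex.arg w / (2 * Real.pi), Real.log_pos hz, ?_, ?_, ?_⟩
  · have h1 := Real.log_le_sub_one_of_pos hz0
    have h2 : ‖z‖ - 1 ≤ h := by
      have h3 := norm_sub_norm_le z (Complex.exp ((2 * Real.pi * t : ℝ) * I))
      rw [Complex.norm_exp_ofReal_mul_I] at h3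
      exact h3.trans hh
    linarith
  · rw [add_sub_cancel_left, abs_div, abs_of_pos (by positivity : 0 < 2 * Real.pi),
      div_le_iff₀ (by positivity)]
    have h1 : 2 / Real.pi * |Complex.arg w| ≤ h := hj.trans hsin
    rw [div_mul_eq_mul_div, div_le_iff₀ hpi] at h1
    nlinarith [abs_nonneg (Complex.arg w)]
  · rw [Real.exp_log hz0, ← hw1]
    have h1 : (((2 * Real.pi * (t + Complex.arg w / (2 * Real.pi)) : ℝ) : ℂ)) * I =
        ((2 * Real.pi * t : ℝ) : ℂ) * I + (Complex.arg w : ℂ) * I := by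
      have : 2 * Real.pi * (t + Complex.arg w / (2 * Real.pi)) = 2 * Real.pi * t + Complex.arg w := by
        field_simp
      rw [this]
      push_cast
      ring
    rw [h1, Complex.exp_add, mul_comm (Complex.exp ((2 * Real.pi * t : ℝ) * I)), ← mul_assoc,
      Complex.norm_mul_exp_arg_mul_I, ← hzw]

theorem psi_pa {d : ℕ} {β : ℂ → ℂ} (hβ : IsBeta d β) {ψ : ℂ → ℂ}
    (hψ : IsExteriorMap (N62a1eb23.multibrotSet d) ψ) {s : ℝ} (hs : 0 < s) (u : ℝ) :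
    ψ (((Real.exp s : ℝ) : ℂ) * Complex.exp ((2 * Real.pi * u : ℝ) * I)) = pa β u s := by
  rw [psi_eq hβ hψ (Real.one_lt_exp_iff.2 hs) (2 * Real.pi * u), pa_eq, ← Real.exp_neg]
  congr 2
  ring

/-- the upper modulus of continuity of the Riemann map -/
theorem psi_mod {d : ℕ} (hd : 2 ≤ d) {β : ℂ → ℂ} (hβ : IsBeta d β) {θ t : ℝ} {c0 : ℂ} {A₀ : ℝ}
    {R : ℂ} (hT : Typ d β θ c0 A₀ R) (hP : Pieces d β (Int.fract t) c0) (hMod : St_Mod2)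
    {ψ : ℂ → ℂ} (hψ : IsExteriorMap (N62a1eb23.multibrotSet d) ψ) :
    ∃ A h₀ : ℝ, 0 < A ∧ 0 < h₀ ∧ ∀ h : ℝ, 0 < h → h < h₀ → ∀ z : ℂ, 1 < ‖z‖ →
      ‖z - Complex.exp ((2 * Real.pi * t : ℝ) * I)‖ ≤ h →
      ‖ψ z - c0‖ ≤ h * Real.exp (A * √(Real.log (1 / h) *
        Real.log (Real.log (Real.log (1 / h))))) := by
  obtain ⟨C₁, C₂, C₃, hC₁, hC₂, hC₃, hev⟩ := hP
  obtain ⟨A, h₀, hA, hh₀, H⟩ := hMod d (fun n => ‖MM d c0 (n + 1)‖) C₂ C₃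
    (fun n => ∀ s u : ℝ, 0 < s → (d : ℝ) ^ n * s < C₃ → (d : ℝ) ^ n * |u - Int.fract t| < C₃ →
        ‖pa β u s - c0‖ ≤ C₂ / ‖MM d c0 (n + 1)‖) hd hC₂ hC₃ (fun n => MM_pos hd hT n)
    (hT.lilM hd) (by
      filter_upwards [hev] with N hN
      obtain ⟨n, h1, h2, -, h3⟩ := hN
      exact ⟨n, h1, h2, h3⟩)
  refine ⟨A, min h₀ 1, hA, lt_min hh₀ one_pos, fun h hh hh' z hz hzh => ?_⟩
  obtain ⟨n, h1, h2, h3⟩ := H h hh (hh'.trans_le (min_le_left _ _))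
  obtain ⟨s, u, s0, sh, uh, e⟩ := polar hz hzh (hh'.trans_le (min_le_right _ _))
  rw [e, psi_pa hβ hψ s0]
  have h4 : pa β u s = pa β (u - ⌊t⌋) s := by
    have := pa_int β (u - ⌊t⌋) s ⌊t⌋
    rwa [sub_add_cancel] at this
  rw [h4]
  have hdn : (0 : ℝ) < (d : ℝ) ^ n := by positivity
  refine (h1 s (u - ⌊t⌋) s0 ?_ ?_).trans h3
  · exact lt_of_le_of_lt (mul_le_mul_of_nonneg_left sh hdn.le) h2
  · have e2 : u - ⌊t⌋ - Int.fract t = u - t := by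
      rw [Int.fract]; ring
    rw [e2]
    exact lt_of_le_of_lt (mul_le_mul_of_nonneg_left uh hdn.le) h2

end Pool.Agent.Y272.LC
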