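import Mathlib
import Pool.Agent.Y272.LC.Scale2
import Pool.Agent.Y272.LC.Stm5

set_option autoImplicit false
set_option maxHeartbeats 800000

/-!
# Typical angles: the lower bound at the good scales
-/

open Complex Filter Topology Metric Set MeasureTheory

namespace Pool.Agent.Y272.LC

open Pool.Agent.H712R2 Pool.Agent.H713R2 Pool.Agent.H713R2.AR Pool.Agent.W677.Mar Pool.Agent.Y272.TY

attribute [local irreducible] Pool.Agent.H713R2.AR.green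

variable {d : ℕ} {Φ : ℂ → ℂ → ℂ} {β : ℂ → ℂ} {t : ℝ} {c0 : ℂ}

/-- the Boettcher coordinates are Lipschitz in the parameter -/
theorem lip_par (hd : 2 ≤ d) (hΦ : IsBott d Φ)
    (hHol : ∀ ζ : ℂ, DifferentiableOn ℂ (fun c => Φ c ζ) {c | green d c 0 < ζ.re})
    (h0 : green d c0 0 = 0) {s a b : ℝ} (hs : 0 < s) :
    ∃ ε Λ : ℝ, 0 < ε ∧ 0 < Λ ∧ ∀ c ∈ ball c0 ε, ∀ c' ∈ ball c0 ε, ∀ u ∈ Icc a b,
      green d c 0 < s ∧ ‖Φ c (zt s u) - Φ c' (zt s u)‖ ≤ Λ * ‖c - c'‖ := by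
  have hop : IsOpen {c : ℂ | green d c 0 < s} := isOpen_lt (continuous_greenc hd) continuous_const
  obtain ⟨r, hr, hr'⟩ := Metric.isOpen_iff.1 hop c0 (by show green d c0 0 < s; rw [h0]; exact hs)
  have hK : IsCompact (closedBall c0 (r / 2) ×ˢ Icc a b) :=
    (isCompact_closedBall c0 (r / 2)).prod isCompact_Icc
  have hmem : ∀ c ∈ closedBall c0 (r / 2), green d c 0 < s := fun c hc =>
    hr' (closedBall_subset_ball (by linarith) hc)
  have hcont : ContinuousOn (fun q : ℂ × ℝ => Φ q.1 (zt s q.2)) (closedBall c0 (r / 2) ×ˢ Icc a b) := by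
    have h1 : ContinuousOn (fun q : ℂ × ℂ => Φ q.1 q.2) {q | green d q.1 0 < q.2.re} := hΦ.cont
    refine h1.comp (f := fun q : ℂ × ℝ => (q.1, zt s q.2)) ?_ ?_
    · apply Continuous.continuousOn
      unfold zt
      fun_prop
    · intro q hq
      show green d q.1 0 < (zt s q.2).re
      rw [zt_re]
      exact hmem _ hq.1
  obtain ⟨B, hB⟩ := hK.exists_bound_of_continuousOn hcont
  refine ⟨r / 4, (|B| + 1) / (r / 4), by positivity, by positivity, ?_⟩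
  intro c hc c' hc' u hu
  refine ⟨hmem c (ball_subset_closedBall (ball_subset_ball (by linarith) hc)), ?_⟩
  have hdiff : DifferentiableOn ℂ (fun c => Φ c (zt s u)) (ball c0 (r / 2)) := by
    refine (hHol (zt s u)).mono fun c hc => ?_
    show green d c 0 < (zt s u).re
    rw [zt_re]
    exact hmem c (ball_subset_closedBall hc)
  have hder : ∀ x ∈ ball c0 (r / 4), ‖deriv (fun c => Φ c (zt s u)) x‖ ≤ (|B| + 1) / (r / 4) := by
    intro x hx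
    refine Complex.norm_deriv_le_of_forall_mem_sphere_norm_le (by positivity) ?_ ?_
    · refine DifferentiableOn.diffContOnCl_ball (U := ball c0 (r / 2)) hdiff ?_
      intro y hy
      rw [mem_closedBall] at hy
      rw [mem_ball] at hx ⊢
      have := dist_triangle y x c0
      linarith
    · intro y hy
      rw [mem_sphere] at hy
      rw [mem_ball] at hx
      have h3 := dist_triangle y x c0
      have h2 := hB (y, u) ⟨by rw [mem_closedBall]; linarith, hu⟩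
      simp only at h2
      linarith [le_abs_self B]
  have := Convex.norm_image_sub_le_of_norm_deriv_le (𝕜 := ℂ) (f := fun c => Φ c (zt s u))
    (fun x hx => (hdiff.differentiableAt (isOpen_ball.mem_nhds
      (ball_subset_ball (by linarith) hx)))) hder (convex_ball c0 (r / 4)) hc' hc
  exact this

/-- the lower bound at the good scales -/
theorem Ang.scaleLow (h : Ang d Φ β t c0) {θ A : ℝ} {R : ℂ} (hT : Typ d β θ c0 A R)
    {i : ℤ} {x₁ x₂ ε : ℝ} {A₁ A₂ D₁ D₂ B : ℂ → ℝ → ℂ}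
    (D : Dat d Φ β c0 t i x₁ x₂ ε A₁ A₂ D₁ D₂ B)
    (hL : ∀ m : ℕ, ∃ (εm : ℝ) (T0 T1 : ℂ → ℝ → ℂ), 0 < εm ∧ εm ≤ ε ∧
        Ray d Φ c0 εm ((x₂ - 1) / (d : ℝ) ^ (m + 1)) T0 ∧
        Ray d Φ c0 εm (x₁ / (d : ℝ) ^ (m + 1)) T1 ∧ (∀ c ∈ ball c0 εm, T0 c 0 = T1 c 0) ∧
        B c0 0 ≠ T0 c0 0)
    (hShr : St_Shr) (hUni : St_Uni) (hInn : St_Inn) (hKoe : St_Koe) (hSim : St_Sim)
    (hPul : St_Pul) (hPu0 : St_Pu0) (hPsi : St_Psi) (hLow : St_Low)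
    (hHol : ∀ ζ : ℂ, DifferentiableOn ℂ (fun c => Φ c ζ) {c | green d c 0 < ζ.re}) :
    ∃ C₁ C₃ : ℝ, 0 < C₁ ∧ 0 < C₃ ∧ ∀ᶠ N : ℕ in atTop, ∃ n : ℕ, N ≤ n ∧
      (n : ℝ) ≤ N + Real.log N ^ 6 ∧
      ∀ s u : ℝ, 0 < s → ‖pa β u s - c0‖ < C₁ / ‖MM d c0 (n + 1)‖ →
        (d : ℝ) ^ n * s < C₃ ∧ ∃ j : ℤ, |(d : ℝ) ^ n * (u - j - t)| < C₃ := by
  have hd := h.d2
  have hdR := h.dR
  have ht0 := h.t0
  have ht1 := h.t1
  obtain ⟨κ, hκ0, hκ1, hK⟩ := hKoe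
  obtain ⟨w, hw⟩ : ∃ w : ℂ, w = B c0 0 := ⟨_, rfl⟩
  obtain ⟨a, ha⟩ : ∃ a : ℝ, a = min t (1 - t) / 8 := ⟨_, rfl⟩
  have hmin : 0 < min t (1 - t) := lt_min ht0 (by linarith)
  have ha0 : 0 < a := by rw [ha]; positivity
  have ha4 : ∀ m : ℤ, 4 * a < |t - m| := by
    intro m
    have := dist_int h m
    rw [ha]; linarith
  -- first loop
  obtain ⟨ε1, l1, a1, b1, δ1, U0, U1, ha1, hb1, L1⟩ :=
    exists_loop h D hL hShr hUni hInn one_pos ha0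
  rw [← hw] at L1
  obtain ⟨δ, hδ⟩ : ∃ δ : ℝ, δ = min δ1 1 := ⟨_, rfl⟩
  have hδ0 : 0 < δ := by rw [hδ]; exact lt_min L1.δ0 one_pos
  have hδ1 : δ ≤ 1 := hδ ▸ min_le_right _ _
  have hδ' : δ ≤ δ1 := hδ ▸ min_le_left _ _
  have hR : 0 < ‖R‖ := norm_pos_iff.2 hT.R0
  obtain ⟨ρ, hρ⟩ : ∃ ρ : ℝ, ρ = κ * δ / (2 * ‖R‖ + 2) := ⟨_, rfl⟩
  have hρ0 : 0 < ρ := by rw [hρ]; positivity
  obtain ⟨κL, hκL⟩ : ∃ κL : ℝ, κL = κ * ‖R‖ := ⟨_, rfl⟩
  obtain ⟨KL, hKL⟩ : ∃ KL : ℝ, KL = ‖R‖ / κ := ⟨_, rfl⟩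
  have hκL0 : 0 < κL := by rw [hκL]; positivity
  have hKL0 : 0 < KL := by rw [hKL]; positivity
  have hκK : κL ≤ KL := by
    rw [hκL, hKL, le_div_iff₀ hκ0]
    nlinarith [mul_nonneg hκ0.le hR.le]
  obtain ⟨q, hq⟩ : ∃ q : ℝ, q = κL * ρ := ⟨_, rfl⟩
  have hq0 : 0 < q := by rw [hq]; positivity
  -- second loop
  obtain ⟨ε2', l2, a2, b2, δ2', T0, T1, -, -, L2'⟩ :=
    exists_loop h D hL hShr hUni hInn (show 0 < q / 16 by positivity) ha0
  rw [← hw] at L2'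
  obtain ⟨δ2, hδ2⟩ : ∃ δ2 : ℝ, δ2 = min δ2' (q / 16) := ⟨_, rfl⟩
  have hδ20 : 0 < δ2 := by rw [hδ2]; exact lt_min L2'.δ0 (by positivity)
  have hδ2a : δ2 ≤ δ2' := hδ2 ▸ min_le_left _ _
  have hδ2b : δ2 ≤ q / 16 := hδ2 ▸ min_le_right _ _
  obtain ⟨e, he⟩ : ∃ e : ℝ, e = δ2 / 8 := ⟨_, rfl⟩
  have he0 : 0 < e := by rw [he]; positivity
  -- Lipschitz dependence on the parameter
  obtain ⟨ε4, Λ, hε4, hΛ, hlip⟩ := lip_par (c0 := c0) hd h.bott hHol h.conn (s := l2 / 2) (a := a2)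
    (b := b2) (by linarith [L2'.l0])
  obtain ⟨ε2, hε2⟩ : ∃ ε2 : ℝ, ε2 = min ε2' ε4 := ⟨_, rfl⟩
  have hε20 : 0 < ε2 := by rw [hε2]; exact lt_min L2'.eps hε4
  have hε2a : ε2 ≤ ε2' := hε2 ▸ min_le_left _ _
  have hε2b : ε2 ≤ ε4 := hε2 ▸ min_le_right _ _
  have L2 := L2'.mono hε20 hε2a hδ20 hδ2a
  -- third loop
  obtain ⟨η3, hη3⟩ : ∃ η3 : ℝ, η3 = min (δ2 / 8) (δ / 4) := ⟨_, rfl⟩
  have hη30 : 0 < η3 := by rw [hη3]; exact lt_min (by positivity) (by positivity)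
  obtain ⟨ε3, l3, a3, b3, δ3, V0, V1, -, -, L3⟩ := exists_loop h D hL hShr hUni hInn hη30 ha0
  rw [← hw] at L3
  have hmin2 : 0 < min (-a2) b2 := lt_min (by linarith [L2.a0]) L2.b0
  have hmin3 : 0 < min (-a3) b3 := lt_min (by linarith [L3.a0]) L3.b0
  obtain ⟨b, hb⟩ : ∃ b : ℝ, b = min (min (-a3) b3) (min (-a2) b2 / 2) := ⟨_, rfl⟩
  have hb0 : 0 < b := by rw [hb]; exact lt_min hmin3 (by positivity)
  obtain ⟨C₃, hC₃⟩ : ∃ C₃ : ℝ, C₃ = max l2 (b2 - a2) := ⟨_, rfl⟩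
  have hC₃0 : 0 < C₃ := by rw [hC₃]; exact lt_max_of_lt_left L2.l0
  -- similarity
  obtain ⟨n₀, hn₀⟩ := hSim d c0 A R κ δ e hd hT.A0 (hT.P_le hd h.beta) hT.rec' hT.sum hT.lim hκ0
    hκ1 hδ0 hδ1 he0
  have hsmall : ∀ᶠ n : ℕ in atTop, ρ / ‖MM d c0 (n + 1)‖ ≤ ε2 :=
    ((tendsto_MM hd hT).const_div_atTop ρ).eventually (Iic_mem_nhds hε20)
  have hbig : ∀ᶠ n : ℕ in atTop, 2 * Λ / κL < ‖MM d c0 (n + 1)‖ :=
    (tendsto_MM hd hT).eventually_gt_atTop _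
  obtain ⟨n₁, hn₁⟩ := eventually_atTop.1 (hsmall.and hbig)
  refine ⟨δ2 / (4 * KL), C₃, by positivity, hC₃0, ?_⟩
  filter_upwards [h.good a b ha0 ha4 hb0, eventually_ge_atTop (max n₀ (max n₁ 1))] with N hN hNge
  obtain ⟨n, hn1, hn2, ⟨k, hk⟩, hnr⟩ := hN
  have hnn0 : n₀ ≤ n := (le_max_left _ _).trans (hNge.trans hn1)
  have hnn1 : n₁ ≤ n := (le_max_left _ _).trans ((le_max_right _ _).trans (hNge.trans hn1))
  have hnn2 : 1 ≤ n := (le_max_right _ _).trans ((le_max_right _ _).trans (hNge.trans hn1))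
  rw [abs_lt] at hk
  have hba3 : b ≤ -a3 := hb ▸ (min_le_left _ _).trans (min_le_left _ _)
  have hbb3 : b ≤ b3 := hb ▸ (min_le_left _ _).trans (min_le_right _ _)
  have hb2 : b ≤ min (-a2) b2 / 2 := hb ▸ min_le_right _ _
  have hma2 : min (-a2) b2 ≤ -a2 := min_le_left _ _
  have hmb2 : min (-a2) b2 ≤ b2 := min_le_right _ _
  -- the orbit is near the landing point
  have hnear : ‖P d (n + 1) c0 - w‖ ≤ η3 :=
    (hPsi d Φ β hd h.bott h.beta c0 w t ε3 l3 a3 b3 η3 0 0 0 0 n k (fun _ => 0) L3.eps L3.l0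
      h.land L3.ins (by linarith) (by linarith)).1
  have hη3a : η3 ≤ δ2 / 8 := hη3 ▸ min_le_left _ _
  have hη3b : η3 ≤ δ / 4 := hη3 ▸ min_le_right _ _
  have hit : (fc d c0)^[n] c0 = P d (n + 1) c0 := iter_c hd n c0
  have hmem : (fc d c0)^[n] c0 ∈ ball w δ := by
    rw [mem_ball, dist_eq_norm, hit]
    linarith
  -- the inverse branch at `c0`
  have hfreq : ∃ᶠ c in 𝓝 c0, ∃ g : ℂ → ℂ, DifferentiableOn ℂ g (ball w δ) ∧
      (∀ z ∈ ball w δ, (fc d c)^[n] (g z) = z) ∧ g ((fc d c)^[n] c) = c := by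
    refine h.land.frequently (Eventually.frequently ?_)
    have hcn : Continuous (fun c : ℂ => (fc d c)^[n] c) :=
      (continuous_fc_iter d n).comp (f := fun c : ℂ => (c, c)) (by fun_prop)
    have h1 : ∀ᶠ c in 𝓝 c0, (fc d c)^[n] c ∈ ball w δ :=
      hcn.continuousAt.eventually (isOpen_ball.mem_nhds hmem)
    filter_upwards [h.ev L1.eps, h.land.eventually h1] with G hG hG2
    obtain ⟨hG0, hG1⟩ := hG
    have hE := esc_pa h.bott h.beta t hG0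
    have hGd : G / d < G := by
      rw [div_lt_iff₀ (by linarith)]; nlinarith
    refine hPul d Φ hd h.bott _ t G hE w δ a hδ0 ha0 ?_ ?_ h.irr n hnn2 hG2 hnr
    · intro s hs hmem'
      obtain ⟨-, m, m1, m2⟩ := L1.ang _ hG1 _ (ball_subset_ball hδ' hmem') s t
        (by rw [hE.crit]; linarith) rfl
      have h3 := ha4 m
      have h4 : |t - m| < a := by
        rw [abs_lt]; constructor <;> linarith
      linarith
    · intro s u hs hmem'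
      obtain ⟨-, m, m1, m2⟩ := L1.ang _ hG1 _ (ball_subset_ball hδ' hmem') s u
        (by rw [hE.crit]; linarith) rfl
      refine ⟨m, ?_⟩
      rw [abs_lt]; constructor <;> linarith
  obtain ⟨g, hg1, hg2, hg3⟩ := hPu0 d hd c0 w δ n hδ0 hmem hfreq
  obtain ⟨hM0, hbil⟩ := hK d c0 w δ n g hd hδ0 (by rw [hit]; linarith) hg1 hg2 hg3
  obtain ⟨M, hM⟩ : ∃ M : ℝ, M = ‖MM d c0 (n + 1)‖ := ⟨_, rfl⟩
  rw [← hM] at hM0 hbil
  have hsim := hn₀ n hnn0 (by rw [← hM]; exact fun z hz z' hz' => (hbil z hz z' hz').2)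
  rw [← hM] at hsim
  have hρM : ρ / M ≤ ε2 := by rw [hM]; exact (hn₁ n hnn1).1
  obtain ⟨W, hW⟩ : ∃ W : ℂ → ℂ, W = fun c => (fc d c0)^[n] (c0 + R * (c - c0)) := ⟨_, rfl⟩
  have hWc0 : W c0 = P d (n + 1) c0 := by
    rw [hW]; simp only [sub_self, mul_zero, add_zero]; exact hit
  have hin : ∀ c ∈ ball c0 (ρ / M), c0 + R * (c - c0) ∈ ball c0 (κ * δ / M) := by
    intro c hc
    rw [mem_ball, dist_eq_norm] at hc ⊢
    rw [add_sub_cancel_left, norm_mul]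
    have h1 : ‖R‖ * ‖c - c0‖ ≤ ‖R‖ * (ρ / M) := mul_le_mul_of_nonneg_left hc.le hR.le
    refine lt_of_le_of_lt h1 ?_
    rw [← mul_div_assoc, div_lt_div_iff_of_pos_right hM0, hρ, ← mul_div_assoc,
      div_lt_iff₀ (by positivity)]
    have : 0 < κ * δ := by positivity
    nlinarith
  have hdiffW : DifferentiableOn ℂ W (ball c0 (ρ / M)) := by
    rw [hW]
    have h1 : Differentiable ℂ ((fc d c0)^[n]) := by
      have h2 : Differentiable ℂ (fc d c0) := by unfold fc; fun_prop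
      exact h2.iterate n
    exact (h1.comp (by fun_prop : Differentiable ℂ fun c : ℂ => c0 + R * (c - c0))).differentiableOn
  have hbilW : ∀ c ∈ ball c0 (ρ / M), ∀ c' ∈ ball c0 (ρ / M),
      κL * M * ‖c - c'‖ ≤ ‖W c - W c'‖ ∧ ‖W c - W c'‖ ≤ KL * M * ‖c - c'‖ := by
    intro c hc c' hc'
    obtain ⟨h1, h2⟩ := hbil _ (hin c hc) _ (hin c' hc')
    have h3 : ‖c0 + R * (c - c0) - (c0 + R * (c' - c0))‖ = ‖R‖ * ‖c - c'‖ := by
      rw [← norm_mul]; congr 1; ring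
    rw [h3] at h1 h2
    rw [hW]
    constructor
    · rw [hκL]
      refine le_trans (le_of_eq ?_) h1
      ring
    · rw [hKL]
      have h4 : ‖R‖ / κ * M * ‖c - c'‖ = M * (‖R‖ * ‖c - c'‖) / κ := by ring
      rw [h4, le_div_iff₀ hκ0, mul_comm]
      exact h2
  have hPW : ∀ c ∈ ball c0 (ρ / M), ‖P d (n + 1) c - W c‖ ≤ e := by
    intro c hc
    rw [hW]
    refine hsim c ?_
    rw [mem_ball, dist_eq_norm] at hc
    rw [← hρ]
    exact ((lt_div_iff₀ hM0).1 hc).le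
  have hc0b := mem_ball_self (x := c0) (show 0 < ρ / M by positivity)
  have hqq : κL * ρ = q := hq.symm
  have hbig' : Λ < κL * M / 2 := by
    have h1 := (hn₁ n hnn1).2
    rw [← hM, div_lt_iff₀ hκL0] at h1
    linarith
  refine ⟨n, hn1, hn2, ?_⟩
  rw [← hM]
  intro s u hs hsu
  have e1 : δ2 / (4 * KL) / M = δ2 / (4 * KL * M) := by rw [div_div]
  rw [e1] at hsu
  obtain ⟨g1, j, g2, g3⟩ := hLow d Φ β hd h.bott h.beta c0 w t ε2 l2 a2 b2 (q / 16) δ2 κL KL ρ M e Λ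
    n k W hε20 L2.l0 (by linarith [L2.a0, L2.b0]) h.land L2.ins L2.ang
    (fun c hc c' hc' u hu => hlip c (ball_subset_ball hε2b hc) c' (ball_subset_ball hε2b hc') u hu)
    (by linarith) (by linarith) hδ20 hκL0 hκK hρ0 hM0 hρM he0.le hbig' hdiffW hbilW hPW
    (by rw [hWc0]; linarith) (by rw [hqq]; linarith) (by linarith) (by rw [hqq]; linarith)
    s u hs (by rw [mem_ball, dist_eq_norm]; exact hsu)
  have hC3a : l2 ≤ C₃ := hC₃ ▸ le_max_left _ _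
  have hC3b : b2 - a2 ≤ C₃ := hC₃ ▸ le_max_right _ _
  refine ⟨by linarith, j, ?_⟩
  have e2 : (d : ℝ) ^ n * (u - j - t) = (d : ℝ) ^ n * (u - j) - (d : ℝ) ^ n * t := by ring
  rw [e2, abs_lt]
  constructor <;> linarith

end Pool.Agent.Y272.LC
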