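import Mathlib
import Pool.Agent.Y272.LC.Scale3
import Pool.Agent.Y272.LC.Fin

set_option autoImplicit false
set_option maxHeartbeats 800000

/-!
# Lower modulus at typical angles
-/

open Complex Filter Topology Metric Set MeasureTheory

namespace Pool.Agent.Y272.LC

open Pool.Agent.H712R2 Pool.Agent.H713R2 Pool.Agent.H713R2.AR Pool.Agent.W677.Mar Pool.Agent.Y272.TY

attribute [local irreducible] Pool.Agent.H713R2.AR.green

/-- the lower bound at the good scales (conclusion of `Ang.scaleLow`) -/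
def LowPieces (d : ℕ) (β : ℂ → ℂ) (t : ℝ) (c0 : ℂ) : Prop :=
    ∃ C₁ C₃ : ℝ, 0 < C₁ ∧ 0 < C₃ ∧ ∀ᶠ N : ℕ in atTop, ∃ n : ℕ, N ≤ n ∧
      (n : ℝ) ≤ N + Real.log N ^ 6 ∧
      ∀ s u : ℝ, 0 < s → ‖pa β u s - c0‖ < C₁ / ‖MM d c0 (n + 1)‖ →
        (d : ℝ) ^ n * s < C₃ ∧ ∃ j : ℤ, |(d : ℝ) ^ n * (u - j - t)| < C₃

theorem polar' {z : ℂ} (hz : 1 < ‖z‖) : ∃ s u : ℝ, 0 < s ∧
      z = ((Real.exp s : ℝ) : ℂ) * Complex.exp ((2 * Real.pi * u : ℝ) * I) := by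
  have hz0 : 0 < ‖z‖ := by linarith
  have hpi := Real.pi_pos
  refine ⟨Real.log ‖z‖, Complex.arg z / (2 * Real.pi), Real.log_pos hz, ?_⟩
  rw [Real.exp_log hz0]
  have : 2 * Real.pi * (Complex.arg z / (2 * Real.pi)) = Complex.arg z := by field_simp
  rw [this, Complex.norm_mul_exp_arg_mul_I]

/-- distance to a point of the unit circle in polar coordinates -/
theorem dist_polar {s u t x : ℝ} (hs : 0 < s) (hsx : s < x) (hx : x ≤ 1) {j : ℤ}
    (hu : |u - j - Int.fract t| < x) :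
    ‖((Real.exp s : ℝ) : ℂ) * Complex.exp ((2 * Real.pi * u : ℝ) * I) -
      Complex.exp ((2 * Real.pi * t : ℝ) * I)‖ ≤ 9 * x := by
  have hpi := Real.pi_pos
  have hpi4 := Real.pi_lt_d2
  have h1 : Complex.exp ((2 * Real.pi * u : ℝ) * I) =
      Complex.exp ((2 * Real.pi * (u - j - Int.fract t) : ℝ) * I) *
      Complex.exp ((2 * Real.pi * t : ℝ) * I) := by
    rw [← Complex.exp_add, Complex.exp_eq_exp_iff_exists_int]
    refine ⟨j - ⌊t⌋, ?_⟩
    rw [Int.fract]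
    push_cast
    ring
  have h2 : ((Real.exp s : ℝ) : ℂ) * Complex.exp ((2 * Real.pi * u : ℝ) * I) -
      Complex.exp ((2 * Real.pi * t : ℝ) * I) =
      ((((Real.exp s : ℝ) : ℂ) - 1) * Complex.exp ((2 * Real.pi * (u - j - Int.fract t) : ℝ) * I) +
      (Complex.exp ((2 * Real.pi * (u - j - Int.fract t) : ℝ) * I) - 1)) *
      Complex.exp ((2 * Real.pi * t : ℝ) * I) := by
    rw [h1]; ring
  rw [h2, norm_mul, Complex.norm_exp_ofReal_mul_I, mul_one]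
  refine (norm_add_le _ _).trans ?_
  rw [norm_mul, Complex.norm_exp_ofReal_mul_I, mul_one]
  have h3 : ‖((Real.exp s : ℝ) : ℂ) - 1‖ ≤ 2 * x := by
    rw [← Complex.ofReal_one, ← Complex.ofReal_sub, Complex.norm_real, Real.norm_eq_abs,
      abs_of_pos (by linarith [Real.add_one_lt_exp hs.ne'])]
    have h4 : |Real.exp s - 1| ≤ 2 * |s| := Real.abs_exp_sub_one_le (by
      rw [abs_of_pos hs]; linarith)
    rw [abs_of_pos (by linarith [Real.add_one_lt_exp hs.ne']), abs_of_pos hs] at h4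
    linarith
  have h5 : ‖Complex.exp ((2 * Real.pi * (u - j - Int.fract t) : ℝ) * I) - 1‖ ≤ 7 * x := by
    have h6 := Real.norm_exp_I_mul_ofReal_sub_one_le (x := 2 * Real.pi * (u - j - Int.fract t))
    rw [mul_comm I] at h6
    refine h6.trans ?_
    rw [Real.norm_eq_abs, abs_mul, abs_of_pos (by positivity : 0 < 2 * Real.pi)]
    have hx0 : 0 < x := hs.trans hsx
    calc 2 * Real.pi * |u - j - Int.fract t| ≤ 2 * Real.pi * x :=
          mul_le_mul_of_nonneg_left hu.le (by positivity)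
      _ ≤ 7 * x := mul_le_mul_of_nonneg_right (by linarith) hx0.le
  linarith

/-- the lower modulus of the Riemann map -/
theorem psi_low {d : ℕ} (hd : 2 ≤ d) {β : ℂ → ℂ} (hβ : IsBeta d β) {θ t : ℝ} {c0 : ℂ} {A₀ : ℝ}
    {R : ℂ} (hT : Typ d β θ c0 A₀ R) (hP : LowPieces d β (Int.fract t) c0) (hMod : St_Mod3)
    {ψ : ℂ → ℂ} (hψ : IsExteriorMap (N62a1eb23.multibrotSet d) ψ) :
    ∃ A h₀ : ℝ, 0 < A ∧ 0 < h₀ ∧ ∀ h : ℝ, 0 < h → h < h₀ → ∀ z : ℂ, 1 < ‖z‖ →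
      h ≤ ‖z - Complex.exp ((2 * Real.pi * t : ℝ) * I)‖ →
      h * Real.exp (-(A * √(Real.log (1 / h) * Real.log (Real.log (Real.log (1 / h)))))) ≤
        ‖ψ z - c0‖ := by
  obtain ⟨C₁, C₃, hC₁, hC₃, hev⟩ := hP
  obtain ⟨A, h₀, hA, hh₀, H⟩ := hMod d (fun n => ‖MM d c0 (n + 1)‖) C₁ (9 * C₃)
    (fun n => ∀ s u : ℝ, 0 < s → ‖pa β u s - c0‖ < C₁ / ‖MM d c0 (n + 1)‖ →
        (d : ℝ) ^ n * s < C₃ ∧ ∃ j : ℤ, |(d : ℝ) ^ n * (u - j - Int.fract t)| < C₃) hd hC₁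
    (by positivity) (fun n => MM_pos hd hT n) (hT.lilM hd) hev
  refine ⟨A, min h₀ 1, hA, lt_min hh₀ one_pos, fun h hh hh' z hz hzh => ?_⟩
  obtain ⟨n, h1, h2, h3⟩ := H h hh (hh'.trans_le (min_le_left _ _))
  have hh1 : h < 1 := hh'.trans_le (min_le_right _ _)
  by_contra hcon
  rw [not_le] at hcon
  obtain ⟨s, u, s0, e⟩ := polar' hz
  have hcon2 := hcon.trans_le h3
  rw [e, psi_pa hβ hψ s0] at hcon2
  obtain ⟨g1, j, g2⟩ := h1 s u s0 hcon2
  have hdn : (0 : ℝ) < (d : ℝ) ^ n := by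
    have : (0 : ℝ) < d := by positivity
    positivity
  have hx : C₃ / (d : ℝ) ^ n < h / 9 := by
    rw [div_lt_div_iff₀ hdn (by norm_num)]
    linarith
  have hs : s < C₃ / (d : ℝ) ^ n := by rw [lt_div_iff₀ hdn]; linarith
  have hu : |u - j - Int.fract t| < C₃ / (d : ℝ) ^ n := by
    rw [abs_mul, abs_of_pos hdn] at g2
    rw [lt_div_iff₀ hdn]; linarith
  have h4 := dist_polar s0 hs (by linarith) hu
  rw [← e] at h4
  linarith

end Pool.Agent.Y272.LC
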