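import Mathlib
import Pool.Agent.Y272.LC.Fin2
import Pool.Agent.Y272.LC.Stm6

set_option autoImplicit false
set_option maxHeartbeats 800000

/-!
# Moduli at typical angles with explicit constants
-/

open Complex Filter Topology Metric Set MeasureTheory

namespace Pool.Agent.Y272.LC

open Pool.Agent.H712R2 Pool.Agent.H713R2 Pool.Agent.H713R2.AR Pool.Agent.W677.Mar Pool.Agent.Y272.TY

attribute [local irreducible] Pool.Agent.H713R2.AR.green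

/-- the modulus of local connectivity -/
theorem lc_modc {d : ℕ} (hd : 2 ≤ d) {β : ℂ → ℂ} (hβ : IsBeta d β) {θ t : ℝ} {c0 : ℂ} {A₀ : ℝ}
    {R : ℂ} (hT : Typ d β θ c0 A₀ R) (hP : Pieces d β t c0) (hMod : St_Mod1c) :
    ∃ r₀ : ℝ, 0 < r₀ ∧ ∀ r : ℝ, 0 < r → r < r₀ → ∃ Q : Set ℂ, IsConnected Q ∧
      Q ⊆ N62a1eb23.multibrotSet d ∧ N62a1eb23.multibrotSet d ∩ closedBall c0 r ⊆ Q ∧
      Q ⊆ closedBall c0 (r * Real.exp (4 * d * Real.log (Real.log (1 / r)) ^ 6)) := by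
  obtain ⟨C₁, C₂, C₃, hC₁, hC₂, hC₃, hev⟩ := hP
  have hd1 : (1 : ℝ) < d := by exact_mod_cast (by omega : 1 < d)
  have hld : 0 < Real.log d := Real.log_pos hd1
  obtain ⟨K, hK, hlow⟩ := hT.low hd (half_pos hld)
  obtain ⟨r₀, hr₀, H⟩ := hMod (fun n => ‖MM d c0 (n + 1)‖) C₁ C₂ (d * 2 ^ (d - 1)) K
    (Real.log d / 2) (fun n => ∃ Q : Set ℂ, IsConnected Q ∧ Q ⊆ N62a1eb23.multibrotSet d ∧
        N62a1eb23.multibrotSet d ∩ closedBall c0 (C₁ / ‖MM d c0 (n + 1)‖) ⊆ Q ∧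
        Q ⊆ closedBall c0 (C₂ / ‖MM d c0 (n + 1)‖)) hC₁ hC₂ (by
          have : (1 : ℝ) ≤ 2 ^ (d - 1) := one_le_pow₀ (by norm_num)
          nlinarith) (half_pos hld)
    (fun n => MM_pos hd hT n) (fun n => MM_succ_le hd hβ hT n) (fun n => by
      rw [← Real.le_log_iff_exp_le (MM_pos hd hT n)]
      have := hlow n
      have e : (n : ℝ) * (Real.log d - Real.log d / 2) = Real.log d / 2 * n := by ring
      linarith) (by
      filter_upwards [hev] with N hN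
      obtain ⟨n, h1, h2, h3, -⟩ := hN
      exact ⟨n, h1, h2, h3⟩)
  have hD : 2 * Real.log ((d : ℝ) * 2 ^ (d - 1)) + 1 ≤ 4 * d := by
    have hd2 : (2 : ℝ) ≤ d := by exact_mod_cast hd
    rw [Real.log_mul (by positivity) (by positivity), Real.log_pow, Nat.cast_sub (by omega),
      Nat.cast_one]
    have h1 : Real.log d ≤ d - 1 := Real.log_le_sub_one_of_pos (by linarith)
    have h2 : Real.log 2 ≤ 0.7 := by linarith [Real.log_two_lt_d9]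
    have h3 : ((d : ℝ) - 1) * Real.log 2 ≤ (d - 1) * 0.7 :=
      mul_le_mul_of_nonneg_left h2 (by linarith)
    linarith
  refine ⟨r₀, hr₀, fun r hr hr' => ?_⟩
  obtain ⟨n, ⟨Q, Q1, Q2, Q3, Q4⟩, h1, h2⟩ := H r hr hr'
  refine ⟨Q, Q1, Q2, ?_, ?_⟩
  · exact (inter_subset_inter_right _ (closedBall_subset_closedBall h1)).trans Q3
  · refine Q4.trans (closedBall_subset_closedBall (h2.trans ?_))
    refine mul_le_mul_of_nonneg_left (Real.exp_le_exp.2 ?_) hr.le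
    exact mul_le_mul_of_nonneg_right hD (by positivity)

/-- the upper modulus of continuity of the Riemann map -/
theorem psi_modc {d : ℕ} (hd : 2 ≤ d) {β : ℂ → ℂ} (hβ : IsBeta d β) {θ t : ℝ} {c0 : ℂ} {A₀ : ℝ}
    {R : ℂ} (hT : Typ d β θ c0 A₀ R) (hP : Pieces d β (Int.fract t) c0) (hMod : St_Mod2c)
    {ψ : ℂ → ℂ} (hψ : IsExteriorMap (N62a1eb23.multibrotSet d) ψ) :
    ∃ h₀ : ℝ, 0 < h₀ ∧ ∀ h : ℝ, 0 < h → h < h₀ → ∀ z : ℂ, 1 < ‖z‖ →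
      ‖z - Complex.exp ((2 * Real.pi * t : ℝ) * I)‖ ≤ h →
      ‖ψ z - c0‖ ≤ h * Real.exp (33 * √(Real.log (1 / h) *
        Real.log (Real.log (Real.log (1 / h))))) := by
  obtain ⟨C₁, C₂, C₃, hC₁, hC₂, hC₃, hev⟩ := hP
  obtain ⟨h₀, hh₀, H⟩ := hMod d (fun n => ‖MM d c0 (n + 1)‖) C₂ C₃
    (fun n => ∀ s u : ℝ, 0 < s → (d : ℝ) ^ n * s < C₃ → (d : ℝ) ^ n * |u - Int.fract t| < C₃ →
        ‖pa β u s - c0‖ ≤ C₂ / ‖MM d c0 (n + 1)‖) hd hC₂ hC₃ (fun n => MM_pos hd hT n)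
    (hT.lilM hd) (by
      filter_upwards [hev] with N hN
      obtain ⟨n, h1, h2, -, h3⟩ := hN
      exact ⟨n, h1, h2, h3⟩)
  refine ⟨min h₀ 1, lt_min hh₀ one_pos, fun h hh hh' z hz hzh => ?_⟩
  obtain ⟨n, h1, h2, h3⟩ := H h hh (hh'.trans_le (min_le_left _ _))
  obtain ⟨s, u, s0, sh, uh, e⟩ := polar hz hzh (hh'.trans_le (min_le_right _ _))
  rw [e, psi_pa hβ hψ s0]
  have h4 : pa β u s = pa β (u - ⌊t⌋) s := by
    have := pa_int β (u - ⌊t⌋) s ⌊t⌋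
    rwa [sub_add_cancel] at this
  rw [h4]
  have hdn : (0 : ℝ) < (d : ℝ) ^ n := by positivity
  refine (h1 s (u - ⌊t⌋) s0 ?_ ?_).trans h3
  · exact lt_of_le_of_lt (mul_le_mul_of_nonneg_left sh hdn.le) h2
  · have e2 : u - ⌊t⌋ - Int.fract t = u - t := by
      rw [Int.fract]; ring
    rw [e2]
    exact lt_of_le_of_lt (mul_le_mul_of_nonneg_left uh hdn.le) h2

/-- the lower modulus of the Riemann map -/
theorem psi_lowc {d : ℕ} (hd : 2 ≤ d) {β : ℂ → ℂ} (hβ : IsBeta d β) {θ t : ℝ} {c0 : ℂ} {A₀ : ℝ}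
    {R : ℂ} (hT : Typ d β θ c0 A₀ R) (hP : LowPieces d β (Int.fract t) c0) (hMod : St_Mod3c)
    {ψ : ℂ → ℂ} (hψ : IsExteriorMap (N62a1eb23.multibrotSet d) ψ) :
    ∃ h₀ : ℝ, 0 < h₀ ∧ ∀ h : ℝ, 0 < h → h < h₀ → ∀ z : ℂ, 1 < ‖z‖ →
      h ≤ ‖z - Complex.exp ((2 * Real.pi * t : ℝ) * I)‖ →
      h * Real.exp (-(33 * √(Real.log (1 / h) * Real.log (Real.log (Real.log (1 / h)))))) ≤
        ‖ψ z - c0‖ := by
  obtain ⟨C₁, C₃, hC₁, hC₃, hev⟩ := hP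
  obtain ⟨h₀, hh₀, H⟩ := hMod d (fun n => ‖MM d c0 (n + 1)‖) C₁ (9 * C₃)
    (fun n => ∀ s u : ℝ, 0 < s → ‖pa β u s - c0‖ < C₁ / ‖MM d c0 (n + 1)‖ →
        (d : ℝ) ^ n * s < C₃ ∧ ∃ j : ℤ, |(d : ℝ) ^ n * (u - j - Int.fract t)| < C₃) hd hC₁
    (by positivity) (fun n => MM_pos hd hT n) (hT.lilM hd) hev
  refine ⟨min h₀ 1, lt_min hh₀ one_pos, fun h hh hh' z hz hzh => ?_⟩
  obtain ⟨n, h1, h2, h3⟩ := H h hh (hh'.trans_le (min_le_left _ _))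
  have hh1 : h < 1 := hh'.trans_le (min_le_right _ _)
  by_contra hcon
  rw [not_le] at hcon
  obtain ⟨s, u, s0, e⟩ := polar' hz
  have hcon2 := hcon.trans_le h3
  rw [e, psi_pa hβ hψ s0] at hcon2
  obtain ⟨g1, j, g2⟩ := h1 s u s0 hcon2
  have hdn : (0 : ℝ) < (d : ℝ) ^ n := by
    have : (0 : ℝ) < d := by positivity
    positivity
  have hx : C₃ / (d : ℝ) ^ n < h / 9 := by
    rw [div_lt_div_iff₀ hdn (by norm_num)]
    linarith
  have hs : s < C₃ / (d : ℝ) ^ n := by rw [lt_div_iff₀ hdn]; linarith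
  have hu : |u - j - Int.fract t| < C₃ / (d : ℝ) ^ n := by
    rw [abs_mul, abs_of_pos hdn] at g2
    rw [lt_div_iff₀ hdn]; linarith
  have h4 := dist_polar s0 hs (by linarith) hu
  rw [← e] at h4
  linarith

end Pool.Agent.Y272.LC
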