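import Mathlib
import Pool.Agent.Y272.TY.All
import Pool.Agent.Y272.LC.Fin
import Pool.Agent.Y272.LC.Data2
import Pool.Agent.Y421.LC.Disc
import Pool.Agent.Y686.LC.Fin
import Pool.Agent.Y761.LC.Pt
import Pool.Agent.Y394.LC.FarHom
import Pool.Agent.Y977.LC.Enc
import Pool.Agent.Y941.LC.Slit
import Pool.Agent.Y545.LC.Br
import Pool.Agent.Y232.LC.Cb
import Pool.Agent.Y215.LC.Eh
import Pool.Agent.Y215.LC.Snail
import Pool.Agent.Y288.LC.Col
import Pool.Agent.Y25.LC.Comb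
import Pool.Agent.Y488.LC.Good
import Pool.Agent.Y488.LC.Vit
import Pool.Agent.Y576.LC.Lnd
import Pool.Agent.Y925.LC.Stab
import Pool.Agent.Y141.LC.Sla
import Pool.Agent.Y333.LC.Shr
import Pool.Agent.Y809.LC.Uni
import Pool.Agent.Y961.LC.Inn
import Pool.Agent.Y888.LC.Pul
import Pool.Agent.Y515.LC.Koe
import Pool.Agent.Y901.LC.Loc
import Pool.Agent.Y514.LC.Psi
import Pool.Agent.Y484.LC.Bott
import Pool.Agent.Y51.LC.Pu0
import Pool.Agent.Y87.LC.Mod1
import Pool.Agent.Y447.LC.Mod2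

set_option autoImplicit false
set_option maxHeartbeats 800000

/-!
# All hypotheses discharged
-/

open Complex Filter Topology Metric Set MeasureTheory

namespace Pool.Agent.Y272.LC

open Pool.Agent.H712R2 Pool.Agent.H713R2 Pool.Agent.H713R2.AR Pool.Agent.W677.Mar Pool.Agent.Y272.TY

theorem st_grn : St_Grn := Pool.Agent.Y960.LC.t
theorem st_far : St_Far := Pool.Agent.Y394.LC.FarHom.far
theorem st_hom : St_Hom := Pool.Agent.Y394.LC.FarHom.hom
theorem st_enc : St_Enc := Pool.Agent.Y977.LC.t st_grn st_far st_hom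
theorem st_slit : St_Slit := Pool.Agent.Y941.LC.t
theorem st_br : St_Br := Pool.Agent.Y545.LC.t st_grn st_slit
theorem st_cb : St_Cb := Pool.Agent.Y232.LC.cb
theorem st_col : St_Col := Pool.Agent.Y288.LC.Col.t st_grn st_br st_cb Pool.Agent.Y215.LC.EH.t
theorem st_snail : St_Snail := Pool.Agent.Y215.LC.SN.t st_grn Pool.Agent.Y421.LC.Disc.t
theorem st_sla : St_Sla := Pool.Agent.Y141.LC.t st_grn st_far st_hom st_enc
theorem st_shr : St_Shr := Pool.Agent.Y333.LC.t st_grn st_sla st_br st_cb Pool.Agent.Y488.LC.Vit.t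
theorem st_uni : St_Uni := Pool.Agent.Y809.LC.t st_grn st_far st_enc
theorem st_inn : St_Inn := Pool.Agent.Y961.LC.t st_grn st_far st_hom st_enc
theorem st_pul : St_Pul := Pool.Agent.Y888.LC.Pul.t st_grn st_br
theorem st_loc : St_Loc := Pool.Agent.Y901.LC.t st_grn st_far st_hom
theorem st_psi : St_Psi := Pool.Agent.Y514.LC.t'

/-- almost every angle is typical, and has pieces at the good scales -/
theorem pieces_ae (hSim : St_Sim) {d : ℕ} (hd : 2 ≤ d) {β : ℂ → ℂ} (hβ : IsBeta d β) :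
    ∀ᵐ t : ℝ, ∃ (c0 : ℂ) (A : ℝ) (R : ℂ), Typ d β (-(2 * Real.pi) * t) c0 A R ∧
      Pieces d β (Int.fract t) c0 := by
  obtain ⟨Φ, hΦ⟩ := Pool.Agent.Y484.LC.t d hd
  filter_upwards [ae_ang hd hΦ hβ (typical_all hd hβ) Pool.Agent.Y686.LC.t Pool.Agent.Y761.LC.t
    Pool.Agent.Y488.LC.Good.t] with t ht
  obtain ⟨c0, A, R, hT, hA⟩ := ht
  refine ⟨c0, A, R, hT, ?_⟩
  obtain ⟨i, x₁, x₂, ε, A₁, A₂, D₁, D₂, B, D, hL⟩ := hA.data Pool.Agent.Y576.LC.lnd st_snail
    (Pool.Agent.Y925.LC.t2 st_grn) st_col st_br st_cb Pool.Agent.Y25.LC.comb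
  exact hA.scale hT D hL st_shr st_uni st_inn Pool.Agent.Y515.LC.t hSim st_pul
    Pool.Agent.Y51.LC.t st_loc st_psi

end Pool.Agent.Y272.LC
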