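import Mathlib
import Pool.Agent.Y272.LC.All

set_option autoImplicit false
set_option maxHeartbeats 800000

/-!
# The moduli at almost every angle
-/

open Complex Filter Topology Metric Set MeasureTheory

namespace Pool.Agent.Y272.LC

open Pool.Agent.H712R2 Pool.Agent.H713R2 Pool.Agent.H713R2.AR Pool.Agent.W677.Mar Pool.Agent.Y272.TY

theorem two_pi_ne : (2 * Real.pi)⁻¹ ≠ 0 := by
  have := Real.pi_pos
  positivity

/-- quantitative local connectivity at almost every angle -/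
theorem lc_res (hSim : St_Sim) {d : ℕ} (hd : 2 ≤ d) {ψ : ℂ → ℂ}
    (hψ : IsExteriorMap (N62a1eb23.multibrotSet d) ψ) :
    ∀ᵐ θ : ℝ, ∃ c₀ ∈ frontier (N62a1eb23.multibrotSet d), ∃ A : ℝ, 0 < A ∧
      Tendsto (fun r : ℝ => ψ (r * Complex.exp (θ * I))) (𝓝[>] 1) (𝓝 c₀) ∧
      (∀ᶠ r : ℝ in 𝓝[>] 0, ∃ Q : Set ℂ, IsCompact Q ∧ IsConnected Q ∧
        Q ⊆ N62a1eb23.multibrotSet d ∧ N62a1eb23.multibrotSet d ∩ closedBall c₀ r ⊆ Q ∧
        Q ⊆ closedBall c₀ (r * Real.exp (A * Real.log (Real.log (1 / r)) ^ 6))) ∧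
      (∀ᶠ h : ℝ in 𝓝[>] 0, ∀ z : ℂ, 1 < ‖z‖ → ‖z - Complex.exp (θ * I)‖ ≤ h →
        ‖ψ z - c₀‖ ≤ h * Real.exp (A * √(Real.log (1 / h) *
          Real.log (Real.log (Real.log (1 / h)))))) := by
  obtain ⟨β, hβ⟩ := exists_beta (d := d) hd
  filter_upwards [ae_scale two_pi_ne (pieces_ae hSim hd hβ)] with θ hθ
  obtain ⟨c0, A₀, R, hT, hP⟩ := hθ
  have hpi := Real.pi_pos
  obtain ⟨t, ht⟩ : ∃ t : ℝ, t = (2 * Real.pi)⁻¹ * θ := ⟨_, rfl⟩
  rw [← ht] at hT hP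
  have e1 : 2 * Real.pi * t = θ := by rw [ht]; field_simp
  have e2 : -(2 * Real.pi) * t = -θ := by rw [neg_mul, e1]
  rw [e2] at hT
  obtain ⟨A1, r1, hA1, hr1, H1⟩ := lc_mod hd hβ hT hP Pool.Agent.Y87.LC.t
  obtain ⟨A2, h2, hA2, hh2, H2⟩ := psi_mod hd hβ hT hP Pool.Agent.Y447.LC.t hψ
  rw [e1] at H2
  refine ⟨c0, hT.frontier hd hβ, A1 + A2, by linarith, hT.tendsto_psi hβ hψ, ?_, ?_⟩
  · have h1 : ∀ᶠ r : ℝ in 𝓝[>] 0, r < r1 :=
      mem_nhdsWithin_of_mem_nhds (gt_mem_nhds hr1)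
    have h3 : ∀ᶠ r : ℝ in 𝓝[>] 0, r < 1 :=
      mem_nhdsWithin_of_mem_nhds (gt_mem_nhds one_pos)
    filter_upwards [h1, h3, self_mem_nhdsWithin] with r hr hr3 hr0
    have hr0' : (0 : ℝ) < r := hr0
    obtain ⟨Q, Q1, Q2, Q3, Q4⟩ := H1 r hr0 hr
    have hcl : IsClosed (N62a1eb23.multibrotSet d) := (isCompact_multibrot hd).isClosed
    have h5 : closedBall c0 (r * Real.exp (A1 * Real.log (Real.log (1 / r)) ^ 6)) ⊆
        closedBall c0 (r * Real.exp ((A1 + A2) * Real.log (Real.log (1 / r)) ^ 6)) := by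
      apply closedBall_subset_closedBall
      refine mul_le_mul_of_nonneg_left (Real.exp_le_exp.2 ?_) hr0'.le
      have : 0 ≤ Real.log (Real.log (1 / r)) ^ 6 := by positivity
      nlinarith
    have hcl2 : closure Q ⊆ N62a1eb23.multibrotSet d := closure_minimal Q2 hcl
    refine ⟨closure Q, (isCompact_multibrot hd).of_isClosed_subset isClosed_closure hcl2,
      Q1.closure, hcl2, Q3.trans subset_closure, ?_⟩
    exact (closure_minimal Q4 isClosed_closedBall).trans h5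
  · have h1 : ∀ᶠ r : ℝ in 𝓝[>] 0, r < h2 :=
      mem_nhdsWithin_of_mem_nhds (gt_mem_nhds hh2)
    filter_upwards [h1, self_mem_nhdsWithin] with h hh hh0 z hz hzh
    have hh0' : (0 : ℝ) < h := hh0
    refine (H2 h hh0 hh z hz hzh).trans ?_
    refine mul_le_mul_of_nonneg_left (Real.exp_le_exp.2 ?_) hh0'.le
    exact mul_le_mul_of_nonneg_right (by linarith) (Real.sqrt_nonneg _)

end Pool.Agent.Y272.LC
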