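import Mathlib
import Pool.Agent.Y272.LC.Res
import Pool.Agent.Y272.LC.FinC
import Pool.Agent.Y79.LC.Sim

set_option autoImplicit false
set_option maxHeartbeats 800000

/-!
# Quantitative local connectivity: final form
-/

open Complex Filter Topology Metric Set MeasureTheory

namespace Pool.Agent.Y272.LC

open Pool.Agent.H712R2 Pool.Agent.H713R2 Pool.Agent.H713R2.AR Pool.Agent.W677.Mar Pool.Agent.Y272.TY

/-- quantitative local connectivity at almost every angle -/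
theorem lc_final (hMod1 : St_Mod1c) {d : ℕ} (hd : 2 ≤ d) {ψ : ℂ → ℂ}
    (hψ : IsExteriorMap (N62a1eb23.multibrotSet d) ψ) :
    ∀ᵐ θ : ℝ, ∃ c₀ ∈ frontier (N62a1eb23.multibrotSet d),
      Tendsto (fun r : ℝ => ψ (r * Complex.exp (θ * I))) (𝓝[>] 1) (𝓝 c₀) ∧
      (∀ᶠ r : ℝ in 𝓝[>] 0, ∃ Q : Set ℂ, IsCompact Q ∧ IsConnected Q ∧
        Q ⊆ N62a1eb23.multibrotSet d ∧ N62a1eb23.multibrotSet d ∩ closedBall c₀ r ⊆ Q ∧
        Q ⊆ closedBall c₀ (r * Real.exp (4 * d * Real.log (Real.log (1 / r)) ^ 6))) := by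
  obtain ⟨β, hβ⟩ := exists_beta (d := d) hd
  filter_upwards [ae_scale two_pi_ne (pieces_ae Pool.Agent.Y79.LC.t hd hβ)] with θ hθ
  obtain ⟨c0, A₀, R, hT, hP⟩ := hθ
  have hpi := Real.pi_pos
  obtain ⟨t, ht⟩ : ∃ t : ℝ, t = (2 * Real.pi)⁻¹ * θ := ⟨_, rfl⟩
  rw [← ht] at hT hP
  have e1 : 2 * Real.pi * t = θ := by rw [ht]; field_simp
  have e2 : -(2 * Real.pi) * t = -θ := by rw [neg_mul, e1]
  rw [e2] at hT
  obtain ⟨r1, hr1, H1⟩ := lc_modc hd hβ hT hP hMod1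
  refine ⟨c0, hT.frontier hd hβ, hT.tendsto_psi hβ hψ, ?_⟩
  · have h1 : ∀ᶠ r : ℝ in 𝓝[>] 0, r < r1 :=
      mem_nhdsWithin_of_mem_nhds (gt_mem_nhds hr1)
    have h3 : ∀ᶠ r : ℝ in 𝓝[>] 0, r < 1 :=
      mem_nhdsWithin_of_mem_nhds (gt_mem_nhds one_pos)
    filter_upwards [h1, h3, self_mem_nhdsWithin] with r hr hr3 hr0
    have hr0' : (0 : ℝ) < r := hr0
    obtain ⟨Q, Q1, Q2, Q3, Q4⟩ := H1 r hr0 hr
    have hcl : IsClosed (N62a1eb23.multibrotSet d) := (isCompact_multibrot hd).isClosed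
    have hcl2 : closure Q ⊆ N62a1eb23.multibrotSet d := closure_minimal Q2 hcl
    refine ⟨closure Q, (isCompact_multibrot hd).of_isClosed_subset isClosed_closure hcl2,
      Q1.closure, hcl2, Q3.trans subset_closure, ?_⟩
    exact closure_minimal Q4 isClosed_closedBall

end Pool.Agent.Y272.LC
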