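import Mathlib
import Pool.Agent.Y272.LC.Fin2
import Pool.Agent.Y272.LC.Res

set_option autoImplicit false
set_option maxHeartbeats 800000

/-!
# The two-sided estimate of the Riemann map at almost every angle
-/

open Complex Filter Topology Metric Set MeasureTheory

namespace Pool.Agent.Y272.LC

open Pool.Agent.H712R2 Pool.Agent.H713R2 Pool.Agent.H713R2.AR Pool.Agent.W677.Mar Pool.Agent.Y272.TY

/-- almost every angle is typical, and has pieces and lower bounds at the good scales -/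
theorem pieces_ae2 (hSim : St_Sim) (hB : St_Bott2) (hLow : St_Low) {d : ℕ} (hd : 2 ≤ d) {β : ℂ → ℂ}
    (hβ : IsBeta d β) :
    ∀ᵐ t : ℝ, ∃ (c0 : ℂ) (A : ℝ) (R : ℂ), Typ d β (-(2 * Real.pi) * t) c0 A R ∧
      Pieces d β (Int.fract t) c0 ∧ LowPieces d β (Int.fract t) c0 := by
  obtain ⟨Φ, hΦ, hHol⟩ := hB d hd
  filter_upwards [ae_ang hd hΦ hβ (typical_all hd hβ) Pool.Agent.Y686.LC.t Pool.Agent.Y761.LC.t
    Pool.Agent.Y488.LC.Good.t] with t ht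
  obtain ⟨c0, A, R, hT, hA⟩ := ht
  refine ⟨c0, A, R, hT, ?_⟩
  obtain ⟨i, x₁, x₂, ε, A₁, A₂, D₁, D₂, B, D, hL⟩ := hA.data Pool.Agent.Y576.LC.lnd st_snail
    (Pool.Agent.Y925.LC.t2 st_grn) st_col st_br st_cb Pool.Agent.Y25.LC.comb
  exact ⟨hA.scale hT D hL st_shr st_uni st_inn Pool.Agent.Y515.LC.t hSim st_pul
    Pool.Agent.Y51.LC.t st_loc st_psi, hA.scaleLow hT D hL st_shr st_uni st_inn
    Pool.Agent.Y515.LC.t hSim st_pul Pool.Agent.Y51.LC.t st_psi hLow hHol⟩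

/-- the two-sided estimate at almost every angle -/
theorem two_sided (hSim : St_Sim) (hB : St_Bott2) (hLow : St_Low) (hMod3 : St_Mod3)
    {d : ℕ} (hd : 2 ≤ d) {ψ : ℂ → ℂ} (hψ : IsExteriorMap (N62a1eb23.multibrotSet d) ψ) :
    ∀ᵐ θ : ℝ, ∃ c₀ ∈ frontier (N62a1eb23.multibrotSet d), ∃ A : ℝ, 0 < A ∧
      Tendsto (fun r : ℝ => ψ (r * Complex.exp (θ * I))) (𝓝[>] 1) (𝓝 c₀) ∧
      ∀ᶠ h : ℝ in 𝓝[>] 0, ∀ z : ℂ, 1 < ‖z‖ →
        (‖z - Complex.exp (θ * I)‖ ≤ h → ‖ψ z - c₀‖ ≤ h * Real.exp (A * √(Real.log (1 / h) *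
          Real.log (Real.log (Real.log (1 / h)))))) ∧
        (h ≤ ‖z - Complex.exp (θ * I)‖ → h * Real.exp (-(A * √(Real.log (1 / h) *
          Real.log (Real.log (Real.log (1 / h)))))) ≤ ‖ψ z - c₀‖) := by
  obtain ⟨β, hβ⟩ := exists_beta (d := d) hd
  filter_upwards [ae_scale two_pi_ne (pieces_ae2 hSim hB hLow hd hβ)] with θ hθ
  obtain ⟨c0, A₀, R, hT, hP, hP'⟩ := hθ
  have hpi := Real.pi_pos
  obtain ⟨t, ht⟩ : ∃ t : ℝ, t = (2 * Real.pi)⁻¹ * θ := ⟨_, rfl⟩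
  rw [← ht] at hT hP hP'
  have e1 : 2 * Real.pi * t = θ := by rw [ht]; field_simp
  have e2 : -(2 * Real.pi) * t = -θ := by rw [neg_mul, e1]
  rw [e2] at hT
  obtain ⟨A1, h1, hA1, hh1, H1⟩ := psi_low hd hβ hT hP' hMod3 hψ
  obtain ⟨A2, h2, hA2, hh2, H2⟩ := psi_mod hd hβ hT hP Pool.Agent.Y447.LC.t hψ
  rw [e1] at H1 H2
  refine ⟨c0, hT.frontier hd hβ, A1 + A2, by linarith, hT.tendsto_psi hβ hψ, ?_⟩
  have k1 : ∀ᶠ r : ℝ in 𝓝[>] 0, r < h1 := mem_nhdsWithin_of_mem_nhds (gt_mem_nhds hh1)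
  have k2 : ∀ᶠ r : ℝ in 𝓝[>] 0, r < h2 := mem_nhdsWithin_of_mem_nhds (gt_mem_nhds hh2)
  filter_upwards [k1, k2, self_mem_nhdsWithin] with h k1 k2 k0 z hz
  have hh0' : (0 : ℝ) < h := k0
  have hs := Real.sqrt_nonneg (Real.log (1 / h) * Real.log (Real.log (Real.log (1 / h))))
  constructor
  · intro hzh
    refine (H2 h k0 k2 z hz hzh).trans ?_
    refine mul_le_mul_of_nonneg_left (Real.exp_le_exp.2 ?_) hh0'.le
    exact mul_le_mul_of_nonneg_right (by linarith) hs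
  · intro hzh
    refine le_trans ?_ (H1 h k0 k1 z hz hzh)
    refine mul_le_mul_of_nonneg_left (Real.exp_le_exp.2 ?_) hh0'.le
    rw [neg_le_neg_iff]
    exact mul_le_mul_of_nonneg_right (by linarith) hs

end Pool.Agent.Y272.LC
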