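import Mathlib
import Pool.Agent.Y272.LC.Res2
import Pool.Agent.Y272.LC.Out
import Pool.Agent.Y272.LC.Mod3c
import Pool.Agent.Y447.LC.Mod2c
import Pool.Agent.Y388.LC.Low
import Pool.Agent.Y298.LC.ForBott2

set_option autoImplicit false
set_option maxHeartbeats 800000

/-!
# The two-sided estimate of the Riemann map: final form
-/

open Complex Filter Topology Metric Set MeasureTheory

namespace Pool.Agent.Y272.LC

open Pool.Agent.H712R2 Pool.Agent.H713R2 Pool.Agent.H713R2.AR Pool.Agent.W677.Mar Pool.Agent.Y272.TY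

/-- the two-sided estimate at almost every angle -/
theorem two_sided_final {d : ℕ} (hd : 2 ≤ d) {ψ : ℂ → ℂ}
    (hψ : IsExteriorMap (N62a1eb23.multibrotSet d) ψ) :
    ∀ᵐ θ : ℝ, ∃ c₀ ∈ frontier (N62a1eb23.multibrotSet d),
      ∀ᶠ h : ℝ in 𝓝[>] 0, ∀ z : ℂ, 1 < ‖z‖ →
        (‖z - Complex.exp (θ * I)‖ ≤ h → ‖ψ z - c₀‖ ≤ h * Real.exp (33 * √(Real.log (1 / h) *
          Real.log (Real.log (Real.log (1 / h)))))) ∧
        (h ≤ ‖z - Complex.exp (θ * I)‖ → h * Real.exp (-(33 * √(Real.log (1 / h) *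
          Real.log (Real.log (Real.log (1 / h)))))) ≤ ‖ψ z - c₀‖) := by
  obtain ⟨β, hβ⟩ := exists_beta (d := d) hd
  filter_upwards [ae_scale two_pi_ne (pieces_ae2 Pool.Agent.Y79.LC.t Pool.Agent.Y298.LC.bott2
    Pool.Agent.Y388.LC.t hd hβ)] with θ hθ
  obtain ⟨c0, A₀, R, hT, hP, hP'⟩ := hθ
  have hpi := Real.pi_pos
  obtain ⟨t, ht⟩ : ∃ t : ℝ, t = (2 * Real.pi)⁻¹ * θ := ⟨_, rfl⟩
  rw [← ht] at hT hP hP'
  have e1 : 2 * Real.pi * t = θ := by rw [ht]; field_simp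
  have e2 : -(2 * Real.pi) * t = -θ := by rw [neg_mul, e1]
  rw [e2] at hT
  obtain ⟨h1, hh1, H1⟩ := psi_lowc hd hβ hT hP' M3C.t hψ
  obtain ⟨h2, hh2, H2⟩ := psi_modc hd hβ hT hP Pool.Agent.Y447.LC.C.t hψ
  rw [e1] at H1 H2
  refine ⟨c0, hT.frontier hd hβ, ?_⟩
  have k1 : ∀ᶠ r : ℝ in 𝓝[>] 0, r < h1 := mem_nhdsWithin_of_mem_nhds (gt_mem_nhds hh1)
  have k2 : ∀ᶠ r : ℝ in 𝓝[>] 0, r < h2 := mem_nhdsWithin_of_mem_nhds (gt_mem_nhds hh2)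
  filter_upwards [k1, k2, self_mem_nhdsWithin] with h k1 k2 k0 z hz
  exact ⟨H2 h k0 k2 z hz, H1 h k0 k1 z hz⟩

end Pool.Agent.Y272.LC
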