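import Pool.Agent.Y272.LC.Stm6
import Pool.Agent.Y87.LC.Mod1

/-!
# LC-MOD1C: modulus of continuity from windows of good times, explicit constant (after Y87.LC.Mod1)
-/

set_option autoImplicit false

namespace Pool.Agent.Y272.LC.M1C

open Filter Topology

theorem t : Pool.Agent.Y272.LC.St_Mod1c := by
  intro M C₁ C₂ D₀ K lam good hC1 hC2 hD hlam hM hMs hlow hwin
  obtain ⟨N₀, hN₀⟩ := eventually_atTop.1 hwin
  obtain ⟨n₁, hn₁, -, hg₁⟩ := hN₀ N₀ le_rfl
  have hD0 : 0 < D₀ := by linarith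
  have hlD : 0 ≤ Real.log D₀ := Real.log_nonneg hD
  set c : ℝ := Real.log C₁ + K + lam with hc
  set E : ℝ := |Real.log ((1 + |c|) / lam)| with hE
  set F : ℝ := 2 + 20 * E + |Real.log (C₂ / C₁)| with hF
  have hE0 : 0 ≤ E := abs_nonneg _
  have hF0 : 2 ≤ F := by
    have := abs_nonneg (Real.log (C₂ / C₁))
    linarith
  set Y₀ : ℝ := Real.exp F with hY₀
  refine ⟨min (C₁ / M n₁) (Real.exp (-Y₀)),
    lt_min (div_pos hC1 (hM _)) (Real.exp_pos _), fun r hr hr0 => ?_⟩
  have hr1 : r < C₁ / M n₁ := hr0.trans_le (min_le_left _ _)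
  have hr2 : r < Real.exp (-Y₀) := hr0.trans_le (min_le_right _ _)
  -- logarithms
  set y := Real.log (1 / r) with hy
  have hyY : Y₀ ≤ y := by
    rw [hy, one_div, Real.log_inv]
    have := (Real.log_lt_iff_lt_exp hr).2 hr2
    linarith
  have hy0 : 0 < y := (Real.exp_pos F).trans_le hyY
  have hy1 : 1 ≤ y := by
    have := Real.add_one_le_exp F
    linarith
  set l := Real.log y with hl
  have hlF : F ≤ l := (Real.le_log_iff_exp_le hy0).2 hyY
  have hl2 : 2 ≤ l := hF0.trans hlF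
  have hl1 : 1 ≤ l := by linarith
  -- the set of good times
  set S : Set ℕ := {n | good n ∧ N₀ ≤ n ∧ M n ≤ C₁ / r} with hS
  have hbd : ∀ n, M n ≤ C₁ / r → (n : ℝ) ≤ (y + Real.log C₁ + K) / lam := by
    intro n hn
    have h1 : Real.exp (lam * n - K) ≤ C₁ / r := (hlow n).trans hn
    have h2 := (Real.le_log_iff_exp_le (by positivity)).2 h1
    have h3 : Real.log (C₁ / r) = Real.log C₁ + y := by
      rw [hy, one_div, Real.log_inv, Real.log_div hC1.ne' hr.ne']
      ring
    rw [h3] at h2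
    rw [le_div_iff₀ hlam]
    linarith
  have hSne : S.Nonempty := by
    refine ⟨n₁, hg₁, hn₁, ?_⟩
    rw [le_div_iff₀ hr]
    rw [lt_div_iff₀ (hM _)] at hr1
    linarith
  have hSb : BddAbove S := by
    refine ⟨⌊(y + Real.log C₁ + K) / lam⌋₊, fun n hn => ?_⟩
    exact Nat.le_floor (hbd n hn.2.2)
  have hmem : sSup S ∈ S := Nat.sSup_mem hSne hSb
  set n := sSup S with hn
  obtain ⟨hg, hnN, hMn⟩ := hmem
  have hMn0 := hM n
  refine ⟨n, hg, ?_, ?_⟩
  · rw [le_div_iff₀ hMn0]
    rw [le_div_iff₀ hr] at hMn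
    linarith
  · obtain ⟨n', hn'1, hn'2, hg'⟩ := hN₀ (n + 1) (by omega)
    have hn'S : ¬ M n' ≤ C₁ / r := by
      intro h
      have h1 : n' ∈ S := ⟨hg', by omega, h⟩
      have h2 := le_csSup hSb h1
      omega
    push Not at hn'S
    obtain ⟨k, hk⟩ := Nat.exists_eq_add_of_le (by omega : n ≤ n')
    set L := Real.log ((n + 1 : ℕ) : ℝ) with hL
    have hL0 : 0 ≤ L := Real.log_natCast_nonneg _
    have hkL : (k : ℝ) ≤ 1 + L ^ 6 := by
      rw [hk] at hn'2
      push_cast at hn'2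
      linarith
    have hDk : D₀ ^ k ≤ Real.exp ((1 + L ^ 6) * Real.log D₀) := by
      rw [← Real.rpow_natCast, Real.rpow_def_of_pos hD0, mul_comm]
      apply Real.exp_le_exp.2
      gcongr
    have h1 : C₁ / r < Real.exp ((1 + L ^ 6) * Real.log D₀) * M n := by
      refine hn'S.trans_le ?_
      rw [hk]
      refine (Pool.Agent.Y87.LC.grow hD hMs n k).trans ?_
      gcongr
    -- the bound of `L`
    have hLl : L ≤ 21 / 20 * l := by
      have h2 := hbd n hMn
      have h3 : ((n + 1 : ℕ) : ℝ) ≤ (1 + |c|) / lam * y := by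
        push_cast
        have h4 : (y + Real.log C₁ + K) / lam + 1 = (y + c) / lam := by
          rw [hc]
          field_simp
          ring
        have h5 : (y + c) / lam ≤ (1 + |c|) / lam * y := by
          rw [div_mul_eq_mul_div, div_le_div_iff_of_pos_right hlam]
          have h6 := le_abs_self c
          have h8 : |c| ≤ |c| * y := le_mul_of_one_le_right (abs_nonneg c) hy1
          nlinarith
        linarith
      have h4 := Real.log_le_log (by positivity) h3
      rw [Real.log_mul (by positivity) hy0.ne'] at h4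
      have h5 : Real.log ((1 + |c|) / lam) ≤ E := le_abs_self _
      have h6 := abs_nonneg (Real.log (C₂ / C₁))
      rw [hL]
      linarith
    have hL6 : L ^ 6 ≤ 3 / 2 * l ^ 6 := by
      calc L ^ 6 ≤ (21 / 20 * l) ^ 6 := by gcongr
        _ = (21 / 20) ^ 6 * l ^ 6 := by ring
        _ ≤ 3 / 2 * l ^ 6 := by gcongr; norm_num
    have hl6 : 1 ≤ l ^ 6 := one_le_pow₀ hl1
    have h2 : C₂ / M n ≤ r * (C₂ / C₁ * Real.exp ((1 + L ^ 6) * Real.log D₀)) := by
      rw [div_lt_iff₀ hr] at h1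
      rw [div_le_iff₀ hMn0]
      calc C₂ = C₂ / C₁ * C₁ := by field_simp
        _ ≤ C₂ / C₁ * (Real.exp ((1 + L ^ 6) * Real.log D₀) * M n * r) := by gcongr
        _ = _ := by ring
    refine h2.trans ?_
    have h3 : C₂ / C₁ = Real.exp (Real.log (C₂ / C₁)) := (Real.exp_log (by positivity)).symm
    have h4 : C₂ / C₁ * Real.exp ((1 + L ^ 6) * Real.log D₀) ≤
        Real.exp ((2 * Real.log D₀ + 1) * l ^ 6) := by
      conv_lhs => rw [h3]
      rw [← Real.exp_add]
      apply Real.exp_le_exp.2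
      have h5 := le_abs_self (Real.log (C₂ / C₁))
      have h51 : |Real.log (C₂ / C₁)| ≤ l := by linarith
      have h52 : l ≤ l ^ 6 := le_self_pow₀ hl1 (by norm_num)
      have h53 : (2 : ℝ) ≤ l ^ 6 := hl2.trans h52
      have h7 : (1 + L ^ 6) * Real.log D₀ ≤ (2 * l ^ 6) * Real.log D₀ := by
        gcongr
        linarith
      nlinarith
    gcongr

end Pool.Agent.Y272.LC.M1C
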